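import Pool.Agent.Helper44K9.FN.Fina
import Pool.Agent.U237.NF.Lite

/-!
# Project NP (helper307): from the correlation with a sequence which is in the class on every window to the sum of
the suprema over all windows, natural averages, uniformly over all scales
-/

set_option autoImplicit false

namespace Pool.Agent.U307.NP

open Finset
open Pool.Agent.Helper44K9.FU (Mul1)
open Pool.Agent.Helper44K9.FN (sT cw)
open Pool.Agent.Helper44K9.FN.FinaL (cw_le WW sub_window le_sT sT_nonneg sT_le sT_bdd)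
open Pool.Agent.U237.NF.Lite (kx)

/-- bounded multiplicative functions do not correlate with sequences which are, up to constants, in the class `T` on
each window -/
def CoreT (T : Set (ℕ → ℂ)) : Prop := ∀ ε : ℝ, 0 < ε → ε ≤ 1 →
  ∃ H0 : ℕ, ∀ H : ℕ, H0 ≤ H → ∃ N0 : ℕ, ∀ N : ℕ, N0 ≤ N → ∀ s : ℕ, s < H → ∀ f : ℕ → ℂ, Mul1 f →
    ∀ (om : ℕ → ℂ) (φ : ℕ → ℕ → ℂ), (∀ k, ‖om k‖ ≤ 1) → (∀ k, om k ≠ 0 → φ k ∈ T) →
    ‖∑ n ∈ Ioc 0 N, f n * (om (kx H s n) * φ (kx H s n) n)‖ ≤ ε * N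

lemma win (H r : ℕ) (hr : r < H) (f : ℕ → ℂ) (om : ℕ → ℂ) (φ : ℕ → ℕ → ℂ) (h0 : om 0 = 0) (J : ℕ) :
    ∑ m ∈ Ioc 0 (r + J * H), f m * (om (kx H (H - 1 - r) m) * φ (kx H (H - 1 - r) m) m) =
      ∑ j ∈ range J, om (j + 1) * ∑ m ∈ Ioc (j * H + r) (j * H + r + H), f m * φ (j + 1) m := by
  induction J with
  | zero =>
    simp only [zero_mul, add_zero, range_zero, sum_empty]
    refine sum_eq_zero fun m hm => ?_
    rw [mem_Ioc] at hm
    have : kx H (H - 1 - r) m = 0 := by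
      unfold kx
      exact Nat.div_eq_of_lt (by omega)
    rw [this, h0]
    ring
  | succ J ih =>
    rw [sum_range_succ, ← ih, ← sum_Ioc_consecutive _ (Nat.zero_le _) (by nlinarith : r + J * H ≤ r + (J + 1) * H)]
    congr 1
    have e1 : r + (J + 1) * H = J * H + r + H := by ring
    rw [e1, add_comm r (J * H), mul_sum]
    refine sum_congr rfl fun m hm => ?_
    rw [mem_Ioc] at hm
    have : kx H (H - 1 - r) m = J + 1 := by
      unfold kx
      refine Nat.div_eq_of_lt_le ?_ ?_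
      · have : (J + 1) * H = J * H + H := by ring
        omega
      · have : (J + 1 + 1) * H = J * H + H + H := by ring
        omega
    rw [this]
    ring

lemma sum_range_blocks (G : ℕ → ℝ) (H J : ℕ) :
    ∑ n ∈ range (J * H), G n = ∑ j ∈ range J, ∑ r ∈ range H, G (j * H + r) := by
  induction J with
  | zero => simp
  | succ J ih =>
    have e1 : (J + 1) * H = J * H + H := by ring
    rw [sum_range_succ, ← ih, e1, sum_range_add]

/-- a phase -/
lemma exists_phase (w : ℂ) : ∃ u : ℂ, ‖u‖ ≤ 1 ∧ u * w = (‖w‖ : ℂ) := by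
  by_cases hw : w = 0
  · exact ⟨0, by simp, by simp [hw]⟩
  · have hw' : ‖w‖ ≠ 0 := by simpa using hw
    refine ⟨(starRingEnd ℂ) w / ‖w‖, ?_, ?_⟩
    · rw [norm_div, RCLike.norm_conj, Complex.norm_real, norm_norm, div_self hw']
    · rw [div_mul_eq_mul_div, mul_comm, Complex.mul_conj, Complex.normSq_eq_norm_sq]
      have : (‖w‖ : ℂ) ≠ 0 := by exact_mod_cast hw'
      field_simp
      push_cast
      ring

/-- fixed length of the windows -/
theorem fin_fixed (T : Set (ℕ → ℂ)) (hT : ∀ ψ ∈ T, ∀ m, ‖ψ m‖ ≤ 1) (hcore : CoreT T) (ε : ℝ) (hε : 0 < ε)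
    (hε1 : ε ≤ 1) : ∃ H0 : ℕ, 1 ≤ H0 ∧ ∀ H : ℕ, H0 ≤ H → ∃ N0 : ℕ, ∀ N : ℕ, N0 ≤ N → H ≤ N → ∀ f : ℕ → ℂ, Mul1 f →
      ∑ n ∈ Icc 1 N, sT T f n H ≤ 4 * ε * H * N := by
  classical
  obtain ⟨H0, h0⟩ := hcore ε hε hε1
  refine ⟨max H0 1, le_max_right _ _, fun H hH => ?_⟩
  obtain ⟨N0, hN0⟩ := h0 H ((le_max_left _ _).trans hH)
  have hH1 : 1 ≤ H := (le_max_right _ _).trans hH
  refine ⟨N0, fun N hN hHN f hf => ?_⟩
  have hHR : (1 : ℝ) ≤ H := by exact_mod_cast hH1
  have hNR : (H : ℝ) ≤ N := by exact_mod_cast hHN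
  rcases T.eq_empty_or_nonempty with hTe | ⟨ψ₀, hψ₀⟩
  · have h1 : ∀ n, sT T f n H = 0 := by
      intro n
      have : IsEmpty T := by rw [hTe]; infer_instance
      unfold sT
      exact Real.iSup_of_isEmpty _
    rw [sum_congr rfl fun n _ => h1 n, sum_const_zero]
    positivity
  have hch : ∀ n, ∃ ψ ∈ T, sT T f n H ≤ cw f ψ n H + ε := by
    intro n
    have : Nonempty T := ⟨⟨ψ₀, hψ₀⟩⟩
    obtain ⟨ψ, hψ⟩ := exists_lt_of_lt_ciSup (show sT T f n H - ε < ⨆ φ : T, cw f φ n H from sub_lt_self _ hε)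
    exact ⟨ψ.1, ψ.2, by linarith⟩
  choose ψ hψT hψ using hch
  set w : ℕ → ℂ := fun n => ∑ m ∈ Ioc n (n + H), f m * ψ n m with hw
  choose u hu1 hu2 using fun n => exists_phase (w n)
  set G : ℕ → ℝ := fun n => if 1 ≤ n ∧ n ≤ N then cw f (ψ n) n H else 0 with hG
  have hG0 : ∀ n, 0 ≤ G n := fun n => by
    simp only [hG]
    split_ifs
    · exact norm_nonneg _
    · exact le_rfl
  set J : ℕ := N / H + 1 with hJ
  have hJH : N < J * H := by
    have h1 := Nat.div_add_mod N H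
    have h2 := Nat.mod_lt N (by omega : 0 < H)
    have h3 : J * H = H * (N / H) + H := by rw [hJ]; ring
    omega
  have hJH2 : J * H ≤ N + H := by
    have h1 := Nat.div_mul_le_self N H
    have h3 : J * H = N / H * H + H := by rw [hJ]; ring
    omega
  have hres : ∀ r ∈ range H, ∑ j ∈ range J, G (j * H + r) ≤ ε * (3 * N) := by
    intro r hr
    have hr' : r < H := mem_range.1 hr
    set om : ℕ → ℂ := fun k => if k = 0 then 0 else
      if 1 ≤ (k - 1) * H + r ∧ (k - 1) * H + r ≤ N then u ((k - 1) * H + r) else 0 with hom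
    have h1 := hN0 (r + J * H) (by omega) (H - 1 - r) (by omega) f hf om (fun k => ψ ((k - 1) * H + r))
      (fun k => by
        simp only [hom]
        split_ifs
        · simp
        · exact hu1 _
        · simp) (fun k _ => hψT _)
    rw [win H r hr' f om (fun k => ψ ((k - 1) * H + r)) (by simp [hom]) J] at h1
    have h2 : ∑ j ∈ range J, om (j + 1) * ∑ m ∈ Ioc (j * H + r) (j * H + r + H), f m * ψ ((j + 1 - 1) * H + r) m =
        ((∑ j ∈ range J, G (j * H + r) : ℝ) : ℂ) := by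
      push_cast
      refine sum_congr rfl fun j _ => ?_
      have e1 : j + 1 - 1 = j := by omega
      simp only [hom, hG, e1, Nat.succ_ne_zero, if_false]
      split_ifs with h
      · exact hu2 (j * H + r)
      · simp
    rw [h2, Complex.norm_real, Real.norm_of_nonneg (sum_nonneg fun _ _ => hG0 _)] at h1
    refine h1.trans (mul_le_mul_of_nonneg_left ?_ hε.le)
    have h3 : ((r + J * H : ℕ) : ℝ) ≤ ((3 * N : ℕ) : ℝ) := by
      have : r + J * H ≤ 3 * N := by omega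
      exact_mod_cast this
    push_cast at h3 ⊢
    exact h3
  have h1 : ∑ n ∈ Icc 1 N, sT T f n H ≤ ∑ n ∈ Icc 1 N, (G n + ε) := by
    refine sum_le_sum fun n hn => ?_
    rw [mem_Icc] at hn
    have : G n = cw f (ψ n) n H := if_pos hn
    rw [this]
    exact hψ n
  have h2 : ∑ n ∈ Icc 1 N, G n ≤ ∑ n ∈ range (J * H), G n :=
    sum_le_sum_of_subset_of_nonneg (fun n hn => by
      rw [mem_Icc] at hn
      rw [mem_range]
      omega) fun n _ _ => hG0 n
  rw [sum_range_blocks, sum_comm] at h2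
  have h3 := sum_le_sum hres
  rw [sum_const, card_range, nsmul_eq_mul] at h3
  rw [sum_add_distrib, sum_const, Nat.card_Icc, nsmul_eq_mul] at h1
  have h4 : ((N + 1 - 1 : ℕ) : ℝ) = N := by simp
  rw [h4] at h1
  have h5 : (N : ℝ) * ε ≤ H * (ε * N) := by
    have : (0 : ℝ) ≤ ε * N := by positivity
    nlinarith
  linarith

/-- all scales -/
theorem fin_abs (T : Set (ℕ → ℂ)) (hT : ∀ ψ ∈ T, ∀ m, ‖ψ m‖ ≤ 1) (hcore : CoreT T) (ε : ℝ) (hε : 0 < ε) :
    ∃ H0 : ℕ, ∀ f : ℕ → ℂ, Mul1 f → ∀ N H : ℕ, H0 ≤ H → H ≤ N → ∑ n ∈ Icc 1 N, sT T f n H ≤ ε * H * N := by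
  set ε' : ℝ := min ε 1 / 16 with hε'
  have hε'0 : 0 < ε' := by
    have : 0 < min ε 1 := lt_min hε one_pos
    positivity
  have hε'1 : ε' ≤ 1 := by
    have : min ε 1 ≤ 1 := min_le_right _ _
    rw [hε']
    linarith
  have hε'2 : 16 * ε' ≤ ε := by
    have : min ε 1 ≤ ε := min_le_left _ _
    rw [hε']
    linarith
  obtain ⟨H', hH'1, hH'⟩ := fin_fixed T hT hcore ε' hε'0 hε'1
  obtain ⟨N0, hN0⟩ := hH' H' le_rfl
  have hH'R : (1 : ℝ) ≤ H' := by exact_mod_cast hH'1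
  refine ⟨max N0 (max H' ⌈4 * (H' : ℝ) / ε⌉₊), fun f hf N H hH hHN => ?_⟩
  have hHN0 : N0 ≤ H := (le_max_left _ _).trans hH
  have hHH' : H' ≤ H := ((le_max_left _ _).trans (le_max_right _ _)).trans hH
  have hH4 : 4 * (H' : ℝ) ≤ ε * H := by
    have h1 : 4 * (H' : ℝ) / ε ≤ H :=
      (Nat.le_ceil _).trans (by exact_mod_cast ((le_max_right _ _).trans (le_max_right _ _)).trans hH)
    rw [div_le_iff₀ hε] at h1
    linarith
  have hHR : (1 : ℝ) ≤ H := hH'R.trans (by exact_mod_cast hHH')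
  have hNR : (H : ℝ) ≤ N := by exact_mod_cast hHN
  -- sub-windows
  have h1 : ∀ n, (H' : ℝ) * sT T f n H ≤ ∑ i ∈ range H, sT T f (n + i) H' + 2 * (H' : ℝ) ^ 2 := by
    intro n
    have h2 : sT T f n H ≤ (∑ i ∈ range H, sT T f (n + i) H' + 2 * (H' : ℝ) ^ 2) / H' := by
      refine sT_le (div_nonneg (add_nonneg (sum_nonneg fun _ _ => sT_nonneg _ _) (by positivity)) (by positivity))
        fun ψ hψ => ?_
      rw [le_div_iff₀ (by linarith)]
      have h3 := sub_window (g := fun m => f m * ψ m) (fun m => by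
        rw [norm_mul]
        exact mul_le_one₀ (hf.1 m) (norm_nonneg _) (hT ψ hψ m)) n H H'
      have h4 : ∑ i ∈ range H, ‖WW (fun m => f m * ψ m) (n + i) H'‖ ≤ ∑ i ∈ range H, sT T f (n + i) H' :=
        sum_le_sum fun i _ => le_sT hT hf.1 (n + i) H' hψ
      have h5 : cw f ψ n H * (H' : ℝ) = H' * ‖WW (fun m => f m * ψ m) n H‖ := by
        rw [mul_comm]
        rfl
      rw [h5]
      linarith
    rw [le_div_iff₀ (by linarith)] at h2
    linarith
  have h2 : (H' : ℝ) * ∑ n ∈ Icc 1 N, sT T f n H ≤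
      ∑ i ∈ range H, ∑ n ∈ Icc 1 N, sT T f (n + i) H' + N * (2 * (H' : ℝ) ^ 2) := by
    rw [mul_sum, sum_comm]
    refine (sum_le_sum fun n _ => h1 n).trans (le_of_eq ?_)
    rw [sum_add_distrib, sum_const, Nat.card_Icc, nsmul_eq_mul]
    simp
  have h3 : ∀ i ∈ range H, ∑ n ∈ Icc 1 N, sT T f (n + i) H' ≤ ∑ m ∈ Icc 1 (N + H), sT T f m H' := by
    intro i hi
    rw [mem_range] at hi
    have e1 : ∑ n ∈ Icc 1 N, sT T f (n + i) H' = ∑ m ∈ (Icc 1 N).image (fun n => n + i), sT T f m H' := by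
      rw [sum_image fun a _ b _ hab => by omega]
    rw [e1]
    refine sum_le_sum_of_subset_of_nonneg ?_ fun _ _ _ => sT_nonneg _ _
    intro m hm
    rw [mem_image] at hm
    obtain ⟨n, hn, rfl⟩ := hm
    rw [mem_Icc] at hn ⊢
    omega
  have h4 := sum_le_sum h3
  rw [sum_const, card_range, nsmul_eq_mul] at h4
  have h5 := hN0 (N + H) (by omega) (by omega) f hf
  have h6 : (H : ℝ) * ∑ m ∈ Icc 1 (N + H), sT T f m H' ≤ H * (4 * ε' * H' * ((N + H : ℕ) : ℝ)) :=
    mul_le_mul_of_nonneg_left h5 (by linarith)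
  have h7 : (H : ℝ) * (4 * ε' * H' * ((N + H : ℕ) : ℝ)) ≤ H' * (ε / 2 * H * N) := by
    push_cast
    calc (H : ℝ) * (4 * ε' * H' * (N + H)) ≤ (H : ℝ) * (4 * ε' * H' * (N + N)) := by gcongr
      _ = H' * (8 * ε' * H * N) := by ring
      _ ≤ H' * (ε / 2 * H * N) := by
          have : 8 * ε' ≤ ε / 2 := by linarith
          gcongr
  have h8 : (N : ℝ) * (2 * (H' : ℝ) ^ 2) ≤ H' * (ε / 2 * H * N) := by
    calc (N : ℝ) * (2 * (H' : ℝ) ^ 2) = H' * (N / 2) * (4 * H') := by ring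
      _ ≤ H' * (N / 2) * (ε * H) := by gcongr
      _ = H' * (ε / 2 * H * N) := by ring
  have h9 : (H' : ℝ) * ∑ n ∈ Icc 1 N, sT T f n H ≤ H' * (ε * H * N) := by
    have : (H' : ℝ) * (ε * H * N) = H' * (ε / 2 * H * N) + H' * (ε / 2 * H * N) := by ring
    linarith
  exact le_of_mul_le_mul_left h9 (by linarith)

end Pool.Agent.U307.NP
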