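import Pool.Agent.U307.NP.Core
import Pool.Agent.U307.NP.Fin
import Pool.Agent.Helper44K9.FU.Fin
import Pool.Agent.Helper44K9.FU.Wr
import Pool.Agent.Helper44K9.FU.Pw
import Pool.Agent.Helper44K9.FU.Chb
import Pool.Agent.Helper44K9.FU.Kap

/-!
# Project NP (helper307): natural averages for polynomial phases with leading coefficient in a null set
-/

set_option autoImplicit false

namespace Pool.Agent.U307.NP

open Finset MeasureTheory Polynomial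
open Pool.Agent.H807R2.Dav (ee)
open Pool.Agent.Helper44K9.FU (Mul1 wSup W wr pw trig2 chb kap)
open Pool.Agent.Helper44K9.FN (sT cw)
open Pool.Agent.Helper44K9.FN.FinaL (le_sT sT_nonneg)
open Pool.Agent.U237.NF.Lite (kx)

/-- the class of the polynomial phases -/
def ClP (d : ℕ) (E : Set UnitAddCircle) : Set (ℕ → ℂ) :=
  {ψ | ∃ P : ℝ[X], P.natDegree ≤ d ∧ ((P.coeff d : ℝ) : UnitAddCircle) ∈ E ∧ ∀ m : ℕ, ψ m = ee (P.eval (m : ℝ))}

lemma ClP_le {d : ℕ} {E : Set UnitAddCircle} : ∀ ψ ∈ ClP d E, ∀ m, ‖ψ m‖ ≤ 1 := by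
  rintro ψ ⟨P, -, -, h⟩ m
  rw [h, norm_ee]

theorem coreT_phases (d : ℕ) (hd : 1 ≤ d) (E : Set UnitAddCircle) (hE : IsCompact E) (hE0 : volume E = 0)
    (htf : ∀ x ∈ E, addOrderOf x = 0) : CoreT (ClP d E) := by
  classical
  intro ε hε hε1
  obtain ⟨H0, h0⟩ := core wr pw trig2 chb kap d hd E hE hE0 htf ε hε hε1
  refine ⟨H0, fun H hH => ?_⟩
  obtain ⟨N0, h1⟩ := h0 H hH
  refine ⟨N0, fun N hN s hs f hf om φ hom hφ => ?_⟩
  have hP : ∀ k, ∃ P : ℝ[X], om k ≠ 0 → P.natDegree ≤ d ∧ ((P.coeff d : ℝ) : UnitAddCircle) ∈ E ∧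
      ∀ m : ℕ, φ k m = ee (P.eval (m : ℝ)) := by
    intro k
    by_cases hk : om k ≠ 0
    · obtain ⟨P, h⟩ := hφ k hk
      exact ⟨P, fun _ => h⟩
    · exact ⟨0, fun h => absurd h hk⟩
  choose P hP using hP
  have h2 := h1 N hN s hs f hf om P hom fun k hk => ⟨(hP k hk).1, (hP k hk).2.1⟩
  refine le_trans (le_of_eq ?_) h2
  congr 1
  refine sum_congr rfl fun n _ => ?_
  congr 1
  unfold Fp
  by_cases hk : om (kx H s n) = 0
  · rw [hk, zero_mul, zero_mul]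
  · rw [(hP _ hk).2.2 n]

/-- **Polynomial phases, natural averages.** -/
theorem nat_phases (d : ℕ) (hd : 1 ≤ d) (E : Set UnitAddCircle) (hE : IsCompact E) (hE0 : volume E = 0)
    (htf : ∀ x ∈ E, addOrderOf x = 0) (ε : ℝ) (hε : 0 < ε) : ∃ H₀ : ℕ, ∀ f : ℕ → ℂ, Mul1 f →
      ∀ N H : ℕ, H₀ ≤ H → H ≤ N → ∑ n ∈ Icc 1 N, wSup d E f n H ≤ ε * H * N := by
  obtain ⟨H0, h⟩ := fin_abs (ClP d E) ClP_le (coreT_phases d hd E hE hE0 htf) ε hε
  refine ⟨H0, fun f hf N H hH hN => le_trans (sum_le_sum fun n _ => ?_) (h f hf N H hH hN)⟩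
  unfold wSup
  refine Real.iSup_le (fun P => ?_) (sT_nonneg n H)
  have h1 : (fun m : ℕ => ee (P.1.eval (m : ℝ))) ∈ ClP d E := ⟨P.1, P.2.1, P.2.2, fun _ => rfl⟩
  have h2 := le_sT (ClP_le (d := d) (E := E)) hf.1 n H h1
  exact h2

end Pool.Agent.U307.NP
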