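import Pool.Agent.U307.NP.A1
import Pool.Agent.Helper44K9.FB.Fin

/-!
# Project NP (helper307): unipotent affine maps of tori, natural averages
-/

set_option autoImplicit false

namespace Pool.Agent.U307.NP

open Finset MeasureTheory Polynomial
open Pool.Agent.H807R2.Dav (ee)
open Pool.Agent.Helper44K9.FU (Mul1 wSup)
open Pool.Agent.Helper44K9.FU.FL
open Pool.Agent.Helper44K9.FB

/-- the theorem for functions of mean zero -/
theorem fbN {m s : ℕ} {A : Matrix (Fin m) (Fin m) ℤ} (hA : (A - 1) ^ s = 0) (F : C(Fin m → UnitAddCircle, ℂ))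
    {E : Set (Fin m → UnitAddCircle)} (hEc : IsCompact E)
    (hE : ∀ k : Fin m → ℤ, k ≠ 0 → Matrix.vecMul k A = k → volume (lf k '' E) = 0 ∧
      ∀ b ∈ E, addOrderOf (lf k b) = 0) (ε : ℝ) (hε : 0 < ε) :
    ∃ H₀ : ℕ, ∀ f : ℕ → ℂ, Mul1 f → ∀ N H : ℕ, H₀ ≤ H → H ≤ N →
      ∑ n ∈ Icc 1 N, oSup A (fun x => F x - ∫ y, F y) E f n H ≤ ε * H * N := by
  classical
  obtain ⟨S, a, hSa⟩ := trigm m F (ε / 16) (by positivity)
  have hmean := mean_near F S a (ε / 16) hSa
  set S' : Finset (Fin m → ℤ) := S.filter (fun k => k ≠ 0) with hS'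
  -- the characters
  have hchar : ∀ k : Fin m → ℤ, ∃ (G : (ℕ → ℂ) → ℕ → ℕ → ℝ) (H₀ : ℕ), k ∈ S' → (∀ f n H, 0 ≤ G f n H) ∧
      (∀ f : ℕ → ℂ, (∀ n, ‖f n‖ ≤ 1) → ∀ n H : ℕ, ∀ b ∈ E, ∀ x : Fin m → UnitAddCircle,
        ‖∑ h ∈ Icc 1 H, f (n + h) * (fourier 1 (lf k ((aff A b)^[n + h] x)) : ℂ)‖ ≤ G f n H) ∧
      ∀ f : ℕ → ℂ, Mul1 f → ∀ N H : ℕ, H₀ ≤ H → H ≤ N →
        ∑ n ∈ Icc 1 N, G f n H ≤ (ε / (4 * (#S' + 1) * (‖a k‖ + 1))) * H * N := by
    intro k
    by_cases hk : k ∈ S'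
    · have hk0 : k ≠ 0 := (mem_filter.1 hk).2
      obtain ⟨d, E', hd, hE'c, hE'v, hE't, hb⟩ := char_bound hA hEc hE hk0
      obtain ⟨H₀, hH₀⟩ := nat_phases d hd E' hE'c hE'v hE't (ε / (4 * (#S' + 1) * (‖a k‖ + 1))) (by positivity)
      exact ⟨wSup d E', H₀, fun _ => ⟨fun f n H => wSup_nonneg n H, hb, hH₀⟩⟩
    · exact ⟨fun _ _ _ => 0, 0, fun h => absurd h hk⟩
  choose G HG hG using hchar
  refine ⟨∑ k ∈ S', HG k + 3, fun f hf N H hH hN => ?_⟩
  have hHr : (0 : ℝ) < H := by exact_mod_cast (by omega : 0 < H)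
  have hNr : (3 : ℝ) ≤ N := by exact_mod_cast (by omega : 3 ≤ N)
  -- pointwise
  have hpt : ∀ n, oSup A (fun x => F x - ∫ y, F y) E f n H ≤ ∑ k ∈ S', ‖a k‖ * G k f n H + ε / 8 * H := by
    intro n
    have hnn : 0 ≤ ∑ k ∈ S', ‖a k‖ * G k f n H + ε / 8 * H :=
      add_nonneg (sum_nonneg fun k hk => mul_nonneg (norm_nonneg _) ((hG k hk).1 f n H)) (by positivity)
    refine Real.iSup_le (fun p => ?_) hnn
    obtain ⟨⟨b, hb⟩, x⟩ := p
    show ‖∑ h ∈ Icc 1 H, f (n + h) * (F ((aff A b)^[n + h] x) - ∫ y, F y)‖ ≤ _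
    have hsplit : ∀ y : Fin m → UnitAddCircle, F y - ∫ y, F y = ∑ k ∈ S', a k * (fourier 1 (lf k y) : ℂ) +
        ((F y - ∑ k ∈ S, a k * (fourier 1 (lf k y) : ℂ)) - ((∫ y, F y) - if (0 : Fin m → ℤ) ∈ S then a 0 else 0)) := by
      intro y
      have h1 := sum_filter_add_sum_filter_not S (fun k : Fin m → ℤ => k ≠ 0) (fun k => a k * (fourier 1 (lf k y) : ℂ))
      have h2 : ∑ k ∈ S.filter (fun k => ¬ k ≠ 0), a k * (fourier 1 (lf k y) : ℂ) =
          if (0 : Fin m → ℤ) ∈ S then a 0 else 0 := by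
        have h3 : ∀ k ∈ S.filter (fun k => ¬ k ≠ 0), a k * (fourier 1 (lf k y) : ℂ) = a 0 := by
          intro k hk
          have h4 : k = 0 := not_not.1 (mem_filter.1 hk).2
          subst h4
          unfold lf
          simp
        rw [sum_congr rfl h3, sum_const]
        have h5 : S.filter (fun k => ¬ k ≠ 0) = if (0 : Fin m → ℤ) ∈ S then {0} else ∅ := by
          ext k
          simp only [mem_filter, not_not]
          split_ifs with h6
          · rw [mem_singleton]
            constructor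
            · exact fun h => h.2
            · rintro rfl; exact ⟨h6, rfl⟩
          · constructor
            · rintro ⟨h7, rfl⟩; exact absurd h7 h6
            · intro h; simp at h
        rw [h5]
        split_ifs <;> simp
      rw [← h1, h2]
      ring
    calc ‖∑ h ∈ Icc 1 H, f (n + h) * (F ((aff A b)^[n + h] x) - ∫ y, F y)‖ =
        ‖∑ k ∈ S', a k * ∑ h ∈ Icc 1 H, f (n + h) * (fourier 1 (lf k ((aff A b)^[n + h] x)) : ℂ) +
          ∑ h ∈ Icc 1 H, f (n + h) * ((F ((aff A b)^[n + h] x) -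
            ∑ k ∈ S, a k * (fourier 1 (lf k ((aff A b)^[n + h] x)) : ℂ)) -
              ((∫ y, F y) - if (0 : Fin m → ℤ) ∈ S then a 0 else 0))‖ := by
          congr 1
          simp only [mul_sum]
          rw [sum_comm, ← sum_add_distrib]
          refine sum_congr rfl fun h _ => ?_
          rw [hsplit, mul_add, mul_sum]
          congr 1
          refine sum_congr rfl fun k _ => ?_
          ring
      _ ≤ ∑ k ∈ S', ‖a k‖ * G k f n H + ε / 8 * H := by
          refine (norm_add_le _ _).trans (add_le_add ?_ ?_)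
          · refine (norm_sum_le _ _).trans (sum_le_sum fun k hk => ?_)
            rw [norm_mul]
            exact mul_le_mul_of_nonneg_left ((hG k hk).2.1 f hf.1 n H b hb x) (norm_nonneg _)
          · refine (norm_sum_le _ _).trans ?_
            calc ∑ h ∈ Icc 1 H, ‖f (n + h) * ((F ((aff A b)^[n + h] x) -
                ∑ k ∈ S, a k * (fourier 1 (lf k ((aff A b)^[n + h] x)) : ℂ)) -
                  ((∫ y, F y) - if (0 : Fin m → ℤ) ∈ S then a 0 else 0))‖ ≤ ∑ h ∈ Icc 1 H, ε / 8 := by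
                  refine sum_le_sum fun h _ => ?_
                  rw [norm_mul]
                  have h1 := norm_sub_le (F ((aff A b)^[n + h] x) -
                    ∑ k ∈ S, a k * (fourier 1 (lf k ((aff A b)^[n + h] x)) : ℂ))
                    ((∫ y, F y) - if (0 : Fin m → ℤ) ∈ S then a 0 else 0)
                  have h2 := hSa ((aff A b)^[n + h] x)
                  have h3 := hf.1 (n + h)
                  have h4 := norm_nonneg ((F ((aff A b)^[n + h] x) -
                    ∑ k ∈ S, a k * (fourier 1 (lf k ((aff A b)^[n + h] x)) : ℂ)) -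
                    ((∫ y, F y) - if (0 : Fin m → ℤ) ∈ S then a 0 else 0))
                  calc _ ≤ 1 * ‖(F ((aff A b)^[n + h] x) -
                    ∑ k ∈ S, a k * (fourier 1 (lf k ((aff A b)^[n + h] x)) : ℂ)) -
                    ((∫ y, F y) - if (0 : Fin m → ℤ) ∈ S then a 0 else 0)‖ := mul_le_mul_of_nonneg_right h3 h4
                    _ ≤ ε / 8 := by rw [one_mul]; linarith
              _ = ε / 8 * H := by rw [sum_const, Nat.card_Icc, nsmul_eq_mul]; simp [mul_comm]
  calc ∑ n ∈ Icc 1 N, oSup A (fun x => F x - ∫ y, F y) E f n H ≤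
      ∑ n ∈ Icc 1 N, (∑ k ∈ S', ‖a k‖ * G k f n H + ε / 8 * H) := sum_le_sum fun n _ => hpt n
    _ = ∑ k ∈ S', ‖a k‖ * ∑ n ∈ Icc 1 N, G k f n H + ε / 8 * H * N := by
        simp only [sum_add_distrib, mul_sum]
        rw [sum_comm]
        congr 1
        rw [sum_const, Nat.card_Icc, nsmul_eq_mul]
        simp
        ring
    _ ≤ ∑ k ∈ S', (ε / (4 * (#S' + 1))) * H * N + ε / 8 * H * N := by
        refine add_le_add (sum_le_sum fun k hk => ?_) le_rfl
        have h1 : HG k ≤ ∑ k ∈ S', HG k := single_le_sum (f := HG) (fun _ _ => Nat.zero_le _) hk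
        have h2 := (hG k hk).2.2 f hf N H (by omega) hN
        have h3 : ‖a k‖ * ∑ n ∈ Icc 1 N, G k f n H ≤
            (‖a k‖ + 1) * ((ε / (4 * (#S' + 1) * (‖a k‖ + 1))) * H * N) := by
          refine mul_le_mul (by linarith) h2 ?_ (by positivity)
          exact sum_nonneg fun n _ => (hG k hk).1 f n H
        refine h3.trans (le_of_eq ?_)
        field_simp
    _ ≤ ε / 4 * H * N + ε / 8 * H * N := by
        refine add_le_add ?_ le_rfl
        rw [sum_const, nsmul_eq_mul]
        have h1 : (#S' : ℝ) * (ε / (4 * (#S' + 1)) * H * N) = (#S' * (ε / (4 * (#S' + 1)))) * (H * N) := by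
          ring
        rw [h1, mul_assoc (ε / 4)]
        refine mul_le_mul_of_nonneg_right ?_ (by positivity)
        rw [mul_div_assoc', div_le_div_iff₀ (by positivity) (by norm_num)]
        nlinarith
    _ ≤ ε * H * N := by
        have h1 : 0 < ε * H * N := by positivity
        nlinarith

end Pool.Agent.U307.NP
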