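import Pool.Agent.U307.NP.L

/-!
# Project NP (helper307): the root lemma with arbitrary right-hand sides and the bipartite graph lemma
-/

set_option autoImplicit false

namespace Pool.Agent.U307.NP

open Finset
open Pool.Agent.U237.NF.Lite (PB)

/-- If `p0 A p = p B0` and `p1 A p = p B1` modulo one, up to `e`, then the `A p` have a common root. -/
theorem root2 (W : Finset ℕ) (e Y : ℝ) (A : ℕ → ℝ) (B0 B1 : ℝ) (p0 p1 : ℕ) (hp0 : p0.Prime) (hp1 : p1.Prime)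
    (hne : p0 ≠ p1) (hWne : W.Nonempty) (hW : ∀ p ∈ W, p.Prime ∧ p ≠ p0 ∧ (p : ℝ) ≤ Y)
    (h0Y : (p0 : ℝ) ≤ Y) (h1Y : (p1 : ℝ) ≤ Y) (he : 4 * Y ^ 2 * e < 1)
    (hrel0 : ∀ p ∈ W, ∃ k : ℤ, |(p0 : ℝ) * A p - (p : ℝ) * B0 - k| ≤ e)
    (hrel1 : ∀ p ∈ W, ∃ k : ℤ, |(p1 : ℝ) * A p - (p : ℝ) * B1 - k| ≤ e) :
    ∃ β : ℝ, ∀ p ∈ W, ∃ k : ℤ, |(p : ℝ) * β - A p - k| ≤ e := by
  have hY0 : 0 ≤ Y := le_trans (by positivity) h0Y
  choose! cc hcc using hrel0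
  choose! dd hdd using hrel1
  set tt : ℕ → ℝ := fun p => (p0 : ℝ) * A p - (p : ℝ) * B0 - cc p with htt
  set ss : ℕ → ℝ := fun p => (p1 : ℝ) * A p - (p : ℝ) * B1 - dd p with hss
  have key : ∀ p ∈ W, ∀ q ∈ W, ((q : ℤ) * cc p - (p : ℤ) * cc q) * (p1 : ℤ) =
      ((q : ℤ) * dd p - (p : ℤ) * dd q) * (p0 : ℤ) := by
    intro p hp q hq
    have u2 : |tt p| ≤ e := hcc p hp
    have u4 : |tt q| ≤ e := hcc q hq
    have v2 : |ss p| ≤ e := hdd p hp
    have v4 : |ss q| ≤ e := hdd q hq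
    have hpR := (hW p hp).2.2
    have hqR := (hW q hq).2.2
    have e0 : 0 ≤ e := le_trans (abs_nonneg _) u2
    have heq : (((((q : ℤ) * cc p - (p : ℤ) * cc q) * (p1 : ℤ) -
        ((q : ℤ) * dd p - (p : ℤ) * dd q) * (p0 : ℤ) : ℤ)) : ℝ) =
        (q : ℝ) * (ss p * (p0 : ℝ) - tt p * (p1 : ℝ)) -
          (p : ℝ) * (ss q * (p0 : ℝ) - tt q * (p1 : ℝ)) := by
      simp only [htt, hss]
      push_cast
      ring
    have hb : |(((((q : ℤ) * cc p - (p : ℤ) * cc q) * (p1 : ℤ) -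
        ((q : ℤ) * dd p - (p : ℤ) * dd q) * (p0 : ℤ) : ℤ)) : ℝ)| < 1 := by
      rw [heq]
      have w : ∀ r : ℕ, |tt r| ≤ e → |ss r| ≤ e → |ss r * (p0 : ℝ) - tt r * (p1 : ℝ)| ≤ 2 * (e * Y) := by
        intro r h1 h2
        calc |ss r * (p0 : ℝ) - tt r * (p1 : ℝ)|
            ≤ |ss r * (p0 : ℝ)| + |tt r * (p1 : ℝ)| := abs_sub _ _
          _ = |ss r| * (p0 : ℝ) + |tt r| * (p1 : ℝ) := by
              rw [abs_mul, abs_mul, abs_of_nonneg (by positivity : (0 : ℝ) ≤ (p0 : ℝ)),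
                abs_of_nonneg (by positivity : (0 : ℝ) ≤ (p1 : ℝ))]
          _ ≤ e * Y + e * Y := by gcongr
          _ = 2 * (e * Y) := by ring
      have w1 := w p u2 v2
      have w2 := w q u4 v4
      have hpp : (0 : ℝ) ≤ (p : ℝ) := by positivity
      have hqq : (0 : ℝ) ≤ (q : ℝ) := by positivity
      calc |(q : ℝ) * (ss p * (p0 : ℝ) - tt p * (p1 : ℝ)) -
            (p : ℝ) * (ss q * (p0 : ℝ) - tt q * (p1 : ℝ))|
          ≤ |(q : ℝ) * (ss p * (p0 : ℝ) - tt p * (p1 : ℝ))| +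
            |(p : ℝ) * (ss q * (p0 : ℝ) - tt q * (p1 : ℝ))| := abs_sub _ _
        _ = (q : ℝ) * |ss p * (p0 : ℝ) - tt p * (p1 : ℝ)| +
            (p : ℝ) * |ss q * (p0 : ℝ) - tt q * (p1 : ℝ)| := by
            rw [abs_mul, abs_mul, abs_of_nonneg hpp, abs_of_nonneg hqq]
        _ ≤ Y * (2 * (e * Y)) + Y * (2 * (e * Y)) := by gcongr
        _ = 4 * Y ^ 2 * e := by ring
        _ < 1 := he
    have hz : |((q : ℤ) * cc p - (p : ℤ) * cc q) * (p1 : ℤ) -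
        ((q : ℤ) * dd p - (p : ℤ) * dd q) * (p0 : ℤ)| < 1 := by
      exact_mod_cast hb
    have := Int.abs_lt_one_iff.1 hz
    linarith
  have hcopr : ∀ a b : ℕ, a.Prime → b.Prime → a ≠ b → IsCoprime (a : ℤ) (b : ℤ) := by
    intro a b ha hb hab
    rw [Nat.isCoprime_iff_coprime]
    exact (Nat.coprime_primes ha hb).2 hab
  have hdvd : ∀ p ∈ W, ∀ q ∈ W, (p0 : ℤ) ∣ (q : ℤ) * cc p - (p : ℤ) * cc q := by
    intro p hp q hq
    have hd : (p0 : ℤ) ∣ ((q : ℤ) * cc p - (p : ℤ) * cc q) * (p1 : ℤ) :=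
      ⟨(q : ℤ) * dd p - (p : ℤ) * dd q, by rw [key p hp q hq]; ring⟩
    exact (hcopr p0 p1 hp0 hp1 hne).dvd_of_dvd_mul_right hd
  obtain ⟨w, hw⟩ := hWne
  obtain ⟨u, v, huv⟩ := hcopr w p0 (hW w hw).1 hp0 (hW w hw).2.1
  have hp01 : (1 : ℝ) ≤ (p0 : ℝ) := by exact_mod_cast hp0.one_lt.le
  refine ⟨(B0 + ((u * cc w : ℤ) : ℝ)) / (p0 : ℝ), fun p hp => ?_⟩
  have hd2 : (p0 : ℤ) ∣ (p : ℤ) * (u * cc w) - cc p := by
    have hh := hdvd p hp w hw
    obtain ⟨r, hr⟩ := hh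
    refine ⟨-u * r - v * cc p, ?_⟩
    linear_combination (cc p) * huv - u * hr
  obtain ⟨r, hr⟩ := hd2
  have hp0pos : (0 : ℝ) < (p0 : ℝ) := by linarith
  have hrR : (p : ℝ) * ((u * cc w : ℤ) : ℝ) - cc p = (p0 : ℝ) * r := by exact_mod_cast hr
  refine ⟨r, ?_⟩
  have hfin : (p : ℝ) * ((B0 + ((u * cc w : ℤ) : ℝ)) / (p0 : ℝ)) - A p - r = -(tt p) / (p0 : ℝ) := by
    simp only [htt]
    field_simp
    linarith
  rw [hfin, abs_div, abs_neg, abs_of_pos hp0pos, div_le_iff₀ hp0pos]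
  have u2 : |tt p| ≤ e := hcc p hp
  have e0 : 0 ≤ e := le_trans (abs_nonneg _) u2
  nlinarith

open Classical in
/-- a relation with many pairs: two elements with many common neighbours -/
theorem graph2 (P : Finset ℕ) (R : ℕ → ℕ → Prop) (c : ℝ) (hc0 : 0 < c) (hc1 : c ≤ 1)
    (hn : 4 / c ^ 2 ≤ (P.card : ℝ))
    (hR : c * (P.card : ℝ) ^ 2 ≤ (((P ×ˢ P).filter (fun pq => R pq.1 pq.2)).card : ℝ)) :
    ∃ p0 ∈ P, ∃ p1 ∈ P, p0 ≠ p1 ∧
      c ^ 2 / 8 * P.card ≤ ((P.filter (fun q => q ≠ p0 ∧ q ≠ p1 ∧ R p0 q ∧ R p1 q)).card : ℝ) := by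
  by_contra hno
  push Not at hno
  set n : ℝ := (P.card : ℝ) with hndef
  have hnpos : 0 < n := lt_of_lt_of_le (by positivity) hn
  have hc2 : 4 ≤ c ^ 2 * n := by
    have := (div_le_iff₀ (by positivity : (0 : ℝ) < c ^ 2)).1 hn
    linarith
  let i : ℕ → ℕ → ℝ := fun x q => if R x q then (1 : ℝ) else 0
  have hi0 : ∀ x q, 0 ≤ i x q := fun x q => by simp only [i]; split_ifs <;> norm_num
  have hi1 : ∀ x q, i x q ≤ 1 := fun x q => by simp only [i]; split_ifs <;> norm_num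
  have h1 : c * n ^ 2 ≤ ∑ q ∈ P, ∑ x ∈ P, i x q := by
    have h0 := hR
    have h01 : ((((P ×ˢ P).filter (fun pq => R pq.1 pq.2)).card : ℕ) : ℝ) = ∑ x ∈ P, ∑ q ∈ P, i x q := by
      rw [Finset.card_filter, Nat.cast_sum, Finset.sum_product]
      refine Finset.sum_congr rfl fun x _ => Finset.sum_congr rfl fun q _ => ?_
      simp only [i]
      split_ifs <;> simp
    rw [h01, Finset.sum_comm] at h0
    exact h0
  have h2 : (∑ q ∈ P, ∑ x ∈ P, i x q) ^ 2 ≤ n * ∑ q ∈ P, (∑ x ∈ P, i x q) ^ 2 :=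
    sq_sum_le_card_mul_sum_sq
  have h3 : ∑ q ∈ P, (∑ x ∈ P, i x q) ^ 2 = ∑ x ∈ P, ∑ x' ∈ P, ∑ q ∈ P, i x q * i x' q := by
    calc ∑ q ∈ P, (∑ x ∈ P, i x q) ^ 2 = ∑ q ∈ P, ∑ x ∈ P, ∑ x' ∈ P, i x q * i x' q := by
          refine Finset.sum_congr rfl fun q _ => ?_
          rw [sq, Finset.sum_mul_sum]
      _ = ∑ x ∈ P, ∑ q ∈ P, ∑ x' ∈ P, i x q * i x' q := Finset.sum_comm
      _ = _ := Finset.sum_congr rfl fun x _ => Finset.sum_comm
  have h4 : ∀ x ∈ P, ∀ x' ∈ P, ∑ q ∈ P, i x q * i x' q ≤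
      (if x = x' then n else 0) + (c ^ 2 / 8 * n + 2) := by
    intro x hx x' hx'
    by_cases hxx : x = x'
    · rw [if_pos hxx]
      have : ∑ q ∈ P, i x q * i x' q ≤ ∑ _q ∈ P, (1 : ℝ) :=
        Finset.sum_le_sum fun q _ => by nlinarith [hi0 x q, hi1 x q, hi0 x' q, hi1 x' q]
      rw [Finset.sum_const, nsmul_eq_mul, mul_one] at this
      have h8 : 0 ≤ c ^ 2 / 8 * n := by positivity
      linarith
    · rw [if_neg hxx]
      have hlt := hno x hx x' hx' hxx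
      have hcard : (((P.filter (fun q => q ≠ x ∧ q ≠ x' ∧ R x q ∧ R x' q)).card : ℕ) : ℝ) =
          ∑ q ∈ P, (if q ≠ x ∧ q ≠ x' ∧ R x q ∧ R x' q then (1 : ℝ) else 0) := by
        rw [Finset.card_filter, Nat.cast_sum]
        refine Finset.sum_congr rfl fun q _ => ?_
        split_ifs <;> simp
      have hterm : ∀ q ∈ P, i x q * i x' q ≤
          (if q ≠ x ∧ q ≠ x' ∧ R x q ∧ R x' q then (1 : ℝ) else 0) + (if q = x then (1 : ℝ) else 0) +
            (if q = x' then (1 : ℝ) else 0) := by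
        intro q _
        have a1 : (0 : ℝ) ≤ (if q ≠ x ∧ q ≠ x' ∧ R x q ∧ R x' q then (1 : ℝ) else 0) := by
          split_ifs <;> norm_num
        have b1 : (0 : ℝ) ≤ (if q = x then (1 : ℝ) else 0) := by split_ifs <;> norm_num
        have b2 : (0 : ℝ) ≤ (if q = x' then (1 : ℝ) else 0) := by split_ifs <;> norm_num
        have hle : i x q * i x' q ≤ 1 := by nlinarith [hi0 x q, hi1 x q, hi0 x' q, hi1 x' q]
        by_cases e1 : q = x
        · rw [if_pos e1]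
          linarith
        by_cases e2 : q = x'
        · rw [if_pos e2]
          linarith
        by_cases r1 : R x q
        · by_cases r2 : R x' q
          · rw [if_pos ⟨e1, e2, r1, r2⟩]
            linarith
          · have : i x' q = 0 := if_neg r2
            rw [this, mul_zero]
            linarith
        · have : i x q = 0 := if_neg r1
          rw [this, zero_mul]
          linarith
      have hs := Finset.sum_le_sum hterm
      rw [Finset.sum_add_distrib, Finset.sum_add_distrib, ← hcard, Finset.sum_ite_eq',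
        Finset.sum_ite_eq', if_pos hx, if_pos hx'] at hs
      linarith
  have h5 : ∑ x ∈ P, ∑ x' ∈ P, ∑ q ∈ P, i x q * i x' q ≤
      ∑ x ∈ P, ∑ x' ∈ P, ((if x = x' then n else 0) + (c ^ 2 / 8 * n + 2)) :=
    Finset.sum_le_sum fun q hq => Finset.sum_le_sum fun q' hq' => h4 q hq q' hq'
  have h6 : ∑ x ∈ P, ∑ x' ∈ P, ((if x = x' then n else 0) + (c ^ 2 / 8 * n + 2)) =
      n * n + n * (n * (c ^ 2 / 8 * n + 2)) := by
    have : ∀ x ∈ P, ∑ x' ∈ P, ((if x = x' then n else 0) + (c ^ 2 / 8 * n + 2)) =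
        n + n * (c ^ 2 / 8 * n + 2) := by
      intro x hx
      rw [Finset.sum_add_distrib, Finset.sum_ite_eq, if_pos hx, Finset.sum_const, nsmul_eq_mul]
    rw [Finset.sum_congr rfl this, Finset.sum_const, nsmul_eq_mul]
    ring
  have h7 : (c * n ^ 2) ^ 2 ≤ n * (n * n + n * (n * (c ^ 2 / 8 * n + 2))) := by
    calc (c * n ^ 2) ^ 2 ≤ (∑ q ∈ P, ∑ x ∈ P, i x q) ^ 2 := by gcongr
      _ ≤ n * ∑ q ∈ P, (∑ x ∈ P, i x q) ^ 2 := h2
      _ ≤ _ := by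
          rw [h3, ← h6]
          exact mul_le_mul_of_nonneg_left h5 hnpos.le
  have h8 : c ^ 2 * n ≤ 3 + c ^ 2 * n / 8 := by
    have hn3 : 0 < n ^ 3 := by positivity
    have : n ^ 3 * (c ^ 2 * n) ≤ n ^ 3 * (3 + c ^ 2 * n / 8) := by nlinarith
    exact le_of_mul_le_mul_left this hn3
  linarith

end Pool.Agent.U307.NP
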