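import Pool.Agent.Helper44K9.FN.Inv
import Pool.Agent.U307.NP.B0
import Pool.Agent.U307.NF.A

/-!
# Project NP (helper307): two-step nilsequences: correlations of dilated sequences, with constants which do not depend
on the dilations
-/

set_option autoImplicit false

namespace Pool.Agent.U307.NP

open Finset MeasureTheory Polynomial
open Pool.Agent.H807R2.Dav (ee)
open Pool.Agent.U237.NF.Lite (PB)
open Pool.Agent.Helper44K9.FN
open Pool.Agent.Helper44K9.FN.InvL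
open Pool.Agent.Helper44K9 (FB.lf)
open Pool.Agent.Helper44K9.FU (S_PW S_TRIG2 S_CHB)

/-- the condition on the slope -/
def Slp {d : ℕ} (b : Matrix (Fin d) (Fin d) ℤ) (j : Fin d) (s0 : ℕ) (κ : ℝ) (p : ℕ) (α : Fin d → ℝ) : Prop :=
  ∀ s : ℕ, 1 ≤ s → s ≤ s0 → ∀ a : ℤ, κ ≤ |s * ((p : ℝ) * dt (col b j) α) - a|

/-- the inverse theorem with an explicit condition on the slope -/
theorem inv3 (hAFF : S_AFF) (d : ℕ) (b : Matrix (Fin d) (Fin d) ℤ) (j : Fin d) (S : Finset (Fin d → ℤ)) (C c κ₀ : ℝ)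
    (hC : 0 < C) (hc : 0 < c) (hκ₀ : 0 < κ₀) : ∃ K H₀ : ℕ, ∀ H ≥ H₀, ∀ α ∈ Box d,
    (∀ s : ℕ, 1 ≤ s → s ≤ ⌈4 / c⌉₊ → ∀ a : ℤ, κ₀ ≤ |s * dt (col b j) α - a|) →
    ∀ β ∈ Box d, Rl b S C c α β H → ∃ ζ ζ' : Fin d → ℤ, ζ ≠ 0 ∧ (∀ i, |ζ i| ≤ K) ∧
    (∀ i, |ζ' i| ≤ K) ∧ ∃ a : ℤ, |dt ζ α - dt ζ' β - a| ≤ K / H := by
  obtain ⟨M, hM⟩ := fin_bd S
  obtain ⟨W, hW⟩ : ∃ W : ℝ, W = ∑ i, |(col b j i : ℝ)| + M + 1 := ⟨_, rfl⟩
  have hs0 : 0 ≤ ∑ i, |(col b j i : ℝ)| := sum_nonneg fun _ _ => abs_nonneg _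
  have hW0 : 0 < W := by rw [hW]; positivity
  obtain ⟨K₁, H₁, hA⟩ := hAFF c W κ₀ hc hW0 hκ₀
  obtain ⟨N, hN⟩ := lam_diff_bd b M K₁
  refine ⟨2 * K₁ * N + ⌈4 * K₁ * C⌉₊, H₁, fun H hH α hα hαE β hβ hRl => ?_⟩
  obtain ⟨κ, U, η, η', hU, hUc, hηS, hrel⟩ := hRl
  have hl : ∀ h ∈ U, |((lam b α (η h) h j : ℤ) : ℝ) - h * dt (col b j) α| ≤ W := by
    intro h hh
    refine (lam_lin b α (η h) h j).trans ?_
    have h1 := hM _ (hηS h hh).1 j
    have h2 : |((η h j : ℤ) : ℝ)| ≤ M := by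
      rw [← Int.cast_abs]; exact_mod_cast h1
    rw [hW]; linarith
  obtain ⟨h, hh, h', hh', g, hg, g', hg', q1, q2, q3, q4, q5⟩ :=
    hA H hH U hU hUc (fun h => lam b α (η h) h j) (dt (col b j) α) hl
      (fun s hs hs' a => hαE s hs hs' a)
  refine ⟨cmb (fun h => lam b α (η h) h) h h' g g', cmb (fun h => lam b β (η' h) h) h h' g g',
    ?_, ?_, ?_, ?_⟩
  · intro h0
    have h1 := congrFun h0 j
    simp only [cmb, Pi.zero_apply] at h1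
    exact q5 (sub_eq_zero.1 h1)
  · intro i
    refine (cmb_bd _ h h' g g' K₁ N q1 q2 q3 q4 i
      (hN α hα _ _ (hM _ (hηS h hh).1) (hM _ (hηS h' hh').1) h h' q1.le q2 i)
      (hN α hα _ _ (hM _ (hηS g hg).1) (hM _ (hηS g' hg').1) g g' q3.le q4 i)).trans ?_
    push_cast
    have : (0 : ℤ) ≤ (⌈4 * (K₁ : ℝ) * C⌉₊ : ℤ) := Int.natCast_nonneg _
    linarith
  · intro i
    refine (cmb_bd _ h h' g g' K₁ N q1 q2 q3 q4 i
      (hN β hβ _ _ (hM _ (hηS h hh).2) (hM _ (hηS h' hh').2) h h' q1.le q2 i)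
      (hN β hβ _ _ (hM _ (hηS g hg).2) (hM _ (hηS g' hg').2) g g' q3.le q4 i)).trans ?_
    push_cast
    have : (0 : ℤ) ≤ (⌈4 * (K₁ : ℝ) * C⌉₊ : ℤ) := Int.natCast_nonneg _
    linarith
  · have hH0 : (0 : ℝ) ≤ H := Nat.cast_nonneg _
    have hrel' : ∀ h ∈ U, ∃ a : ℤ, |κ * h + (dt (lam b α (η h) h) α - dt (lam b β (η' h) h) β) - a| ≤
        C / H := by
      intro h hh
      obtain ⟨a, ha⟩ := hrel h hh
      refine ⟨a, ?_⟩
      rw [← add_sub_assoc]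
      exact ha
    obtain ⟨a, ha⟩ := elim κ (C / H) h h' g g' K₁ q1 q2 q3 q4
      (fun h => dt (lam b α (η h) h) α - dt (lam b β (η' h) h) β)
      (hrel' h hh) (hrel' h' hh') (hrel' g hg) (hrel' g' hg')
    refine ⟨a, ?_⟩
    rw [dt_cmb, dt_cmb]
    have e1 : ((g' : ℝ) - g) * (dt (lam b α (η h') h') α - dt (lam b α (η h) h) α) -
        ((h' : ℝ) - h) * (dt (lam b α (η g') g') α - dt (lam b α (η g) g) α) -
        (((g' : ℝ) - g) * (dt (lam b β (η' h') h') β - dt (lam b β (η' h) h) β) -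
        ((h' : ℝ) - h) * (dt (lam b β (η' g') g') β - dt (lam b β (η' g) g) β)) - a =
        ((g' : ℝ) - g) * ((dt (lam b α (η h') h') α - dt (lam b β (η' h') h') β) -
          (dt (lam b α (η h) h) α - dt (lam b β (η' h) h) β)) -
        ((h' : ℝ) - h) * ((dt (lam b α (η g') g') α - dt (lam b β (η' g') g') β) -
          (dt (lam b α (η g) g) α - dt (lam b β (η' g) g) β)) - a := by ring
    rw [e1]
    refine ha.trans ?_
    rw [← mul_div_assoc]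
    refine div_le_div_of_nonneg_right ?_ hH0
    have h8 := Nat.le_ceil (4 * (K₁ : ℝ) * C)
    push_cast
    have h9 : (0 : ℝ) ≤ 2 * K₁ * N := by positivity
    linarith

end Pool.Agent.U307.NP
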