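import Pool.Agent.U307.NP.B1

/-!
# Project NP (helper307): two-step nilsequences: correlations of dilated sequences; the slopes
-/

set_option autoImplicit false

namespace Pool.Agent.U307.NP

open Finset MeasureTheory Polynomial
open Pool.Agent.H807R2.Dav (ee)
open Pool.Agent.U237.NF.Lite (PB)
open Pool.Agent.Helper44K9.FN
open Pool.Agent.Helper44K9.FN.InvL
open Pool.Agent.Helper44K9.FU (S_PW S_TRIG2 S_CHB)

/-- the class of a rotated argument -/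
lemma Cl_dil {d : ℕ} {b : Matrix (Fin d) (Fin d) ℤ} (hRED : S_RED) {φ : (Fin d → ℝ) → ℂ} (hφ : Th b φ)
    {ψ : ℕ → ℂ} {α x : Fin d → ℝ} {P : ℝ[X]} (hP : P.natDegree ≤ 2)
    (hψ : ∀ m : ℕ, ψ m = ee (P.eval (m : ℝ)) * φ ((m : ℝ) • α + x)) (p : ℕ) :
    ∃ P' : ℝ[X], P'.natDegree ≤ 2 ∧ ∀ m : ℕ, ψ (p * m) = ee (P'.eval (m : ℝ)) *
      φ ((m : ℝ) • fr ((p : ℝ) • α) + x) := by
  have hdeg : (P.comp (C (p : ℝ) * X)).natDegree ≤ 2 := by
    refine natDegree_comp_le.trans ?_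
    have h3 : (C (p : ℝ) * X : ℝ[X]).natDegree ≤ 1 := (natDegree_C_mul_le _ _).trans natDegree_X_le
    calc P.natDegree * (C (p : ℝ) * X : ℝ[X]).natDegree ≤ 2 * 1 := Nat.mul_le_mul hP h3
      _ = 2 := mul_one 2
  obtain ⟨P', hP', h⟩ := hRED d b φ hφ ((p : ℝ) • α) x (P.comp (C (p : ℝ) * X)) hdeg
  refine ⟨P', hP', fun m => ?_⟩
  rw [← h m, hψ]
  have e1 : (P.comp (C (p : ℝ) * X)).eval (m : ℝ) = P.eval ((p * m : ℕ) : ℝ) := by
    rw [eval_comp]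
    simp only [eval_mul, eval_C, eval_X]
    push_cast
    rfl
  have e2 : (((p * m : ℕ) : ℝ)) • α = (m : ℝ) • (p : ℝ) • α := by
    rw [smul_smul]
    congr 1
    push_cast
    ring
  rw [e1, e2]

/-- correlations of dilated sequences, constants independent of the dilations -/
theorem rel_pair (hRED : S_RED) (hVDC : S_VDC) (hAFF : S_AFF) (d : ℕ) (b : Matrix (Fin d) (Fin d) ℤ)
    (φ : (Fin d → ℝ) → ℂ) (hφ : Th b φ) (j : Fin d) (δ : ℝ) (hδ : 0 < δ) :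
    ∃ s0 : ℕ, ∀ κ₀ : ℝ, 0 < κ₀ → ∃ K L₀ : ℕ, ∀ L ≥ L₀, ∀ (n p q : ℕ) (ψ ψ' : ℕ → ℂ) (α β x y : Fin d → ℝ)
      (P Q : ℝ[X]), P.natDegree ≤ 2 → Q.natDegree ≤ 2 →
      (∀ m : ℕ, ψ m = ee (P.eval (m : ℝ)) * φ ((m : ℝ) • α + x)) →
      (∀ m : ℕ, ψ' m = ee (Q.eval (m : ℝ)) * φ ((m : ℝ) • β + y)) →
      Slp b j s0 κ₀ p α →
      δ * L ≤ ‖∑ m ∈ Ioc n (n + L), ψ (p * m) * (starRingEnd ℂ) (ψ' (q * m))‖ →
      ∃ ζ ζ' : Fin d → ℤ, ζ ≠ 0 ∧ (∀ i, |ζ i| ≤ K) ∧ (∀ i, |ζ' i| ≤ K) ∧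
        ∃ a : ℤ, |(p : ℝ) * dt ζ α - (q : ℝ) * dt ζ' β - a| ≤ K / L := by
  obtain ⟨S, C', c, H₀, hC, hc, hV⟩ := hVDC d b φ hφ δ hδ
  refine ⟨⌈4 / c⌉₊, fun κ₀ hκ₀ => ?_⟩
  obtain ⟨K, H₁, hI⟩ := inv3 hAFF d b j S C' c κ₀ hC hc hκ₀
  refine ⟨K, max H₀ H₁, fun L hL n p q ψ ψ' α β x y P Q hP hQ hψ hψ' hslp hbig => ?_⟩
  obtain ⟨P', hP', h1⟩ := Cl_dil hRED hφ hP hψ p
  obtain ⟨Q', hQ', h2⟩ := Cl_dil hRED hφ hQ hψ' q
  have hsum : ∑ m ∈ Ioc n (n + L), ψ (p * m) * (starRingEnd ℂ) (ψ' (q * m)) =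
      ∑ m ∈ Ioc n (n + L), ee ((P' - Q').eval (m : ℝ)) * φ ((m : ℝ) • fr ((p : ℝ) • α) + x) *
        (starRingEnd ℂ) (φ ((m : ℝ) • fr ((q : ℝ) • β) + y)) := by
    refine sum_congr rfl fun m _ => ?_
    rw [h1, h2, map_mul, Pool.Agent.U307.NF.conj_ee, eval_sub, sub_eq_add_neg, Pool.Agent.H807R2.Dav.ee_add]
    ring
  rw [hsum] at hbig
  have hRl := hV L ((le_max_left _ _).trans hL) n (fr ((p : ℝ) • α)) (fr ((q : ℝ) • β)) x y (P' - Q')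
    ((natDegree_sub_le _ _).trans (max_le hP' hQ')) hbig
  obtain ⟨ζ, ζ', hζ, hζK, hζ'K, a, ha⟩ := hI L ((le_max_right _ _).trans hL) (fr ((p : ℝ) • α)) (fr_mem _)
    (fun s hs1 hs2 a => by
      obtain ⟨a', ha'⟩ := dt_fr (col b j) p α
      rw [ha']
      have h3 := hslp s hs1 hs2 (s * a' + a)
      have h4 : (s : ℝ) * ((p : ℝ) * dt (col b j) α - a') - a =
          s * ((p : ℝ) * dt (col b j) α) - ((s * a' + a : ℤ) : ℝ) := by
        push_cast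
        ring
      rw [h4]
      exact h3) (fr ((q : ℝ) • β)) (fr_mem _) hRl
  refine ⟨ζ, ζ', hζ, hζK, hζ'K, ?_⟩
  obtain ⟨a1, h3⟩ := dt_fr ζ p α
  obtain ⟨a2, h4⟩ := dt_fr ζ' q β
  rw [h3, h4] at ha
  refine ⟨a + a1 - a2, ?_⟩
  have h5 : (p : ℝ) * dt ζ α - (q : ℝ) * dt ζ' β - ((a + a1 - a2 : ℤ) : ℝ) =
      (p : ℝ) * dt ζ α - a1 - ((q : ℝ) * dt ζ' β - a2) - a := by
    push_cast
    ring
  rw [h5]
  exact ha

lemma vol_zero : volume ({0} : Set UnitAddCircle) = 0 := by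
  have h : ∀ ε : ℝ, 0 < ε → volume ({0} : Set UnitAddCircle) ≤ ENNReal.ofReal (2 * ε) := by
    intro ε hε
    refine (measure_mono (Set.singleton_subset_iff.2 (Metric.mem_closedBall_self hε.le) :
      ({0} : Set UnitAddCircle) ⊆ Metric.closedBall 0 ε)).trans ?_
    have : Fact ((0 : ℝ) < 1) := ⟨zero_lt_one⟩
    rw [AddCircle.volume_closedBall]
    exact ENNReal.ofReal_le_ofReal (min_le_right _ _)
  refine le_antisymm ?_ bot_le
  refine ENNReal.le_of_forall_pos_le_add fun ε hε _ => ?_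
  have h1 := h (ε / 2) (by positivity)
  rw [show (2 : ℝ) * (ε / 2) = ε by ring, ENNReal.ofReal_coe_nnreal] at h1
  rw [zero_add]
  exact h1

open Classical in
/-- few primes violate the condition on the slope -/
theorem slope (hPW : S_PW) (hTR : S_TRIG2) (hCHB : S_CHB) (d : ℕ) (b : Matrix (Fin d) (Fin d) ℤ) (j : Fin d)
    (hj : col b j ≠ 0) (E : Set (Fin d → UnitAddCircle)) (hE : IsCompact E) (hI : Irr E) (s0 : ℕ) (ρ : ℝ)
    (hρ : 0 < ρ) : ∃ κ₀ : ℝ, 0 < κ₀ ∧ ∃ y0 : ℕ, ∀ y : ℕ, y0 ≤ y → ∀ α : Fin d → ℝ, md α ∈ E →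
      (((PB y).filter (fun p => ¬ Slp b j s0 κ₀ p α)).card : ℝ) * Real.log y ≤ ρ * y := by
  rcases Nat.eq_zero_or_pos s0 with hs0 | hs0
  · refine ⟨1, one_pos, 1, fun y hy α _ => ?_⟩
    have : (PB y).filter (fun p => ¬ Slp b j s0 1 p α) = ∅ := by
      rw [Finset.filter_eq_empty_iff]
      intro p _
      rw [not_not]
      intro s h1 h2
      omega
    rw [this, Finset.card_empty, Nat.cast_zero, zero_mul]
    positivity
  · obtain ⟨Q, hQ1, τ, hτ, y1, h1⟩ := major hPW hTR hCHB 1 le_rfl {0} isCompact_singleton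
      vol_zero s0 hs0 ρ hρ
    obtain ⟨κ, hκ, hkap⟩ := irr_kap E hE hI (col b j) hj Q
    refine ⟨τ, hτ, max y1 (⌈(Q : ℝ) / κ⌉₊ + 1), fun y hy α hα => ?_⟩
    by_contra hcon
    push Not at hcon
    have hyQ : (Q : ℝ) / κ < y := by
      have h2 : ((⌈(Q : ℝ) / κ⌉₊ + 1 : ℕ) : ℝ) ≤ y := by exact_mod_cast (le_max_right _ _).trans hy
      have h3 := Nat.le_ceil ((Q : ℝ) / κ)
      push_cast at h2
      linarith
    have hy0 : (0 : ℝ) < y := lt_of_le_of_lt (by positivity) hyQ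
    obtain ⟨q, hq1, hqQ, a, ha⟩ := h1 y ((le_max_left _ _).trans hy) (dt (col b j) α)
      ((PB y).filter (fun p => ¬ Slp b j s0 τ p α)) (Finset.filter_subset _ _) hcon.le (fun p hp => by
        obtain ⟨-, h2⟩ := Finset.mem_filter.1 hp
        unfold Slp at h2
        push Not at h2
        obtain ⟨s, hs1, hs2, a, ha⟩ := h2
        refine ⟨0, by simp, s, hs1, hs2, -a, ?_⟩
        have h3 : (s : ℝ) * (0 - (p : ℝ) ^ 1 * dt (col b j) α) - ((-a : ℤ) : ℝ) =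
            -(s * ((p : ℝ) * dt (col b j) α) - a) := by
          push_cast
          ring
        rw [h3, abs_neg]
        exact ha.le)
    have h2 := hkap α hα q hq1 hqQ a
    rw [pow_one] at ha
    have h3 : (Q : ℝ) / y < κ := by
      rw [div_lt_iff₀ hκ] at hyQ
      rw [div_lt_iff₀ hy0]
      linarith
    linarith

end Pool.Agent.U307.NP
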