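import Pool.Agent.U237.NF.Lite

/-!
# Project NP (helper307): a common root for the dilates by `d`-th powers of primes
-/

set_option autoImplicit false

namespace Pool.Agent.U307.NP

open Finset

/-- If `A p` is related to `A p0` and `A p1` through `p0 ^ d A p = p ^ d A p0` modulo one, up to `e`, then the `A p` have
a common root. -/
theorem root (d : ℕ) (W : Finset ℕ) (e Y : ℝ) (A : ℕ → ℝ) (p0 p1 : ℕ) (hp0 : p0.Prime) (hp1 : p1.Prime)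
    (hne : p0 ≠ p1) (hWne : W.Nonempty) (hW : ∀ p ∈ W, p.Prime ∧ p ≠ p0 ∧ ((p : ℝ)) ^ d ≤ Y)
    (h0Y : (p0 : ℝ) ^ d ≤ Y) (h1Y : (p1 : ℝ) ^ d ≤ Y) (he : 4 * Y ^ 2 * e < 1)
    (hrel0 : ∀ p ∈ W, ∃ k : ℤ, |(p0 : ℝ) ^ d * A p - (p : ℝ) ^ d * A p0 - k| ≤ e)
    (hrel1 : ∀ p ∈ W, ∃ k : ℤ, |(p1 : ℝ) ^ d * A p - (p : ℝ) ^ d * A p1 - k| ≤ e) :
    ∃ β : ℝ, ∀ p ∈ W, ∃ k : ℤ, |(p : ℝ) ^ d * β - A p - k| ≤ e := by
  have hY0 : 0 ≤ Y := le_trans (by positivity) h0Y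
  choose! cc hcc using hrel0
  choose! dd hdd using hrel1
  set tt : ℕ → ℝ := fun p => (p0 : ℝ) ^ d * A p - (p : ℝ) ^ d * A p0 - cc p with htt
  set ss : ℕ → ℝ := fun p => (p1 : ℝ) ^ d * A p - (p : ℝ) ^ d * A p1 - dd p with hss
  have key : ∀ p ∈ W, ∀ q ∈ W, ((q : ℤ) ^ d * cc p - (p : ℤ) ^ d * cc q) * (p1 : ℤ) ^ d =
      ((q : ℤ) ^ d * dd p - (p : ℤ) ^ d * dd q) * (p0 : ℤ) ^ d := by
    intro p hp q hq
    have u2 : |tt p| ≤ e := hcc p hp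
    have u4 : |tt q| ≤ e := hcc q hq
    have v2 : |ss p| ≤ e := hdd p hp
    have v4 : |ss q| ≤ e := hdd q hq
    have hpR := (hW p hp).2.2
    have hqR := (hW q hq).2.2
    have e0 : 0 ≤ e := le_trans (abs_nonneg _) u2
    have heq : (((((q : ℤ) ^ d * cc p - (p : ℤ) ^ d * cc q) * (p1 : ℤ) ^ d -
        ((q : ℤ) ^ d * dd p - (p : ℤ) ^ d * dd q) * (p0 : ℤ) ^ d : ℤ)) : ℝ) =
        (q : ℝ) ^ d * (ss p * (p0 : ℝ) ^ d - tt p * (p1 : ℝ) ^ d) -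
          (p : ℝ) ^ d * (ss q * (p0 : ℝ) ^ d - tt q * (p1 : ℝ) ^ d) := by
      simp only [htt, hss]
      push_cast
      ring
    have hb : |(((((q : ℤ) ^ d * cc p - (p : ℤ) ^ d * cc q) * (p1 : ℤ) ^ d -
        ((q : ℤ) ^ d * dd p - (p : ℤ) ^ d * dd q) * (p0 : ℤ) ^ d : ℤ)) : ℝ)| < 1 := by
      rw [heq]
      have w : ∀ r : ℕ, |tt r| ≤ e → |ss r| ≤ e → |ss r * (p0 : ℝ) ^ d - tt r * (p1 : ℝ) ^ d| ≤ 2 * (e * Y) := by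
        intro r h1 h2
        calc |ss r * (p0 : ℝ) ^ d - tt r * (p1 : ℝ) ^ d|
            ≤ |ss r * (p0 : ℝ) ^ d| + |tt r * (p1 : ℝ) ^ d| := abs_sub _ _
          _ = |ss r| * (p0 : ℝ) ^ d + |tt r| * (p1 : ℝ) ^ d := by
              rw [abs_mul, abs_mul, abs_of_nonneg (by positivity : (0 : ℝ) ≤ (p0 : ℝ) ^ d),
                abs_of_nonneg (by positivity : (0 : ℝ) ≤ (p1 : ℝ) ^ d)]
          _ ≤ e * Y + e * Y := by gcongr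
          _ = 2 * (e * Y) := by ring
      have w1 := w p u2 v2
      have w2 := w q u4 v4
      have hpp : (0 : ℝ) ≤ (p : ℝ) ^ d := by positivity
      have hqq : (0 : ℝ) ≤ (q : ℝ) ^ d := by positivity
      calc |(q : ℝ) ^ d * (ss p * (p0 : ℝ) ^ d - tt p * (p1 : ℝ) ^ d) -
            (p : ℝ) ^ d * (ss q * (p0 : ℝ) ^ d - tt q * (p1 : ℝ) ^ d)|
          ≤ |(q : ℝ) ^ d * (ss p * (p0 : ℝ) ^ d - tt p * (p1 : ℝ) ^ d)| +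
            |(p : ℝ) ^ d * (ss q * (p0 : ℝ) ^ d - tt q * (p1 : ℝ) ^ d)| := abs_sub _ _
        _ = (q : ℝ) ^ d * |ss p * (p0 : ℝ) ^ d - tt p * (p1 : ℝ) ^ d| +
            (p : ℝ) ^ d * |ss q * (p0 : ℝ) ^ d - tt q * (p1 : ℝ) ^ d| := by
            rw [abs_mul, abs_mul, abs_of_nonneg hpp, abs_of_nonneg hqq]
        _ ≤ Y * (2 * (e * Y)) + Y * (2 * (e * Y)) := by gcongr
        _ = 4 * Y ^ 2 * e := by ring
        _ < 1 := he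
    have hz : |((q : ℤ) ^ d * cc p - (p : ℤ) ^ d * cc q) * (p1 : ℤ) ^ d -
        ((q : ℤ) ^ d * dd p - (p : ℤ) ^ d * dd q) * (p0 : ℤ) ^ d| < 1 := by
      exact_mod_cast hb
    have := Int.abs_lt_one_iff.1 hz
    linarith
  have hcopr : ∀ a b : ℕ, a.Prime → b.Prime → a ≠ b → IsCoprime ((a : ℤ) ^ d) ((b : ℤ) ^ d) := by
    intro a b ha hb hab
    refine IsCoprime.pow ?_
    rw [Nat.isCoprime_iff_coprime]
    exact (Nat.coprime_primes ha hb).2 hab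
  have hdvd : ∀ p ∈ W, ∀ q ∈ W, (p0 : ℤ) ^ d ∣ (q : ℤ) ^ d * cc p - (p : ℤ) ^ d * cc q := by
    intro p hp q hq
    have hd : (p0 : ℤ) ^ d ∣ ((q : ℤ) ^ d * cc p - (p : ℤ) ^ d * cc q) * (p1 : ℤ) ^ d :=
      ⟨(q : ℤ) ^ d * dd p - (p : ℤ) ^ d * dd q, by rw [key p hp q hq]; ring⟩
    exact (hcopr p0 p1 hp0 hp1 hne).dvd_of_dvd_mul_right hd
  obtain ⟨w, hw⟩ := hWne
  obtain ⟨u, v, huv⟩ := hcopr w p0 (hW w hw).1 hp0 (hW w hw).2.1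
  -- u * w ^ d + v * p0 ^ d = 1
  have hp01 : (1 : ℝ) ≤ (p0 : ℝ) ^ d := one_le_pow₀ (by exact_mod_cast hp0.one_lt.le)
  refine ⟨(A p0 + ((u * cc w : ℤ) : ℝ)) / (p0 : ℝ) ^ d, fun p hp => ?_⟩
  have hd2 : (p0 : ℤ) ^ d ∣ (p : ℤ) ^ d * (u * cc w) - cc p := by
    have hh := hdvd p hp w hw
    obtain ⟨r, hr⟩ := hh
    refine ⟨-u * r - v * cc p, ?_⟩
    linear_combination (cc p) * huv - u * hr
  obtain ⟨r, hr⟩ := hd2
  have hp0pos : (0 : ℝ) < (p0 : ℝ) ^ d := by linarith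
  have hrR : (p : ℝ) ^ d * ((u * cc w : ℤ) : ℝ) - cc p = (p0 : ℝ) ^ d * r := by exact_mod_cast hr
  refine ⟨r, ?_⟩
  have hfin : (p : ℝ) ^ d * ((A p0 + ((u * cc w : ℤ) : ℝ)) / (p0 : ℝ) ^ d) - A p - r = -(tt p) / (p0 : ℝ) ^ d := by
    simp only [htt]
    field_simp
    linarith
  rw [hfin, abs_div, abs_neg, abs_of_pos hp0pos, div_le_iff₀ hp0pos]
  have u2 : |tt p| ≤ e := hcc p hp
  have e0 : 0 ≤ e := le_trans (abs_nonneg _) u2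
  nlinarith

end Pool.Agent.U307.NP
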