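import Pool.Agent.U307.NP.L
import Pool.Agent.U307.NP.R
import Pool.Agent.U147.NF.K
import Pool.Agent.U608.NF.GR

/-!
# Project NP (helper307): the core: bounded multiplicative functions do not correlate with sequences which are
polynomial phases on the windows
-/

set_option autoImplicit false

namespace Pool.Agent.U307.NP

open Finset MeasureTheory Polynomial
open Pool.Agent.W24.Katai (Mul1 cor)
open Pool.Agent.U237.NF.Lite (PB kx)
open Pool.Agent.Helper44K9.FU (S_WR S_PW S_TRIG2 S_CHB S_KAP)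

lemma PB_lower (hCHB : S_CHB) : ∃ b : ℝ, 0 < b ∧ ∃ k0 : ℕ, 4 ≤ k0 ∧ ∀ k : ℕ, k0 ≤ k →
    b * 2 ^ k ≤ k * ((PB (2 ^ k)).card : ℝ) := by
  obtain ⟨⟨b, hb, k0, h⟩, -⟩ := hCHB
  refine ⟨b, hb, max k0 4, le_max_right _ _, fun k hk => ?_⟩
  have h1 := h k ((le_max_left _ _).trans hk)
  have hk0 : (0 : ℝ) < k := by
    have : 4 ≤ k := (le_max_right _ _).trans hk
    exact_mod_cast (by omega : 0 < k)
  have h2 : ∑ p ∈ (Ioc (2 ^ k) (2 ^ (k + 1))).filter Nat.Prime, 1 / (p : ℝ) ≤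
      ((PB (2 ^ k)).card : ℝ) * (1 / 2 ^ k) := by
    have h3 : (Ioc (2 ^ k) (2 ^ (k + 1))).filter Nat.Prime = PB (2 ^ k) := by
      unfold PB
      rw [pow_succ, mul_comm (2 ^ k) 2]
    rw [h3, ← nsmul_eq_mul, ← Finset.sum_const]
    refine Finset.sum_le_sum fun p hp => ?_
    have h4 := (PB_mem hp).1
    have h5 : ((2 : ℝ)) ^ k ≤ p := by exact_mod_cast h4.le
    gcongr
  have h3 := h1.trans h2
  rw [div_le_iff₀ hk0, mul_one_div, div_mul_eq_mul_div, le_div_iff₀ (by positivity)] at h3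
  linarith

lemma sq_le_two_pow (k : ℕ) (hk : 4 ≤ k) : k ^ 2 ≤ 2 ^ k := by
  induction k, hk using Nat.le_induction with
  | base => norm_num
  | succ n hn ih =>
    rw [pow_succ 2 n]
    nlinarith

theorem core (hWR : S_WR) (hPW : S_PW) (hTR : S_TRIG2) (hCHB : S_CHB) (hKAP : S_KAP) (d : ℕ) (hd : 1 ≤ d)
    (E : Set UnitAddCircle) (hE : IsCompact E) (hE0 : volume E = 0) (htf : ∀ x ∈ E, addOrderOf x = 0)
    (ε : ℝ) (hε : 0 < ε) (hε1 : ε ≤ 1) :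
    ∃ H0 : ℕ, ∀ H : ℕ, H0 ≤ H → ∃ N0 : ℕ, ∀ N : ℕ, N0 ≤ N → ∀ s : ℕ, s < H → ∀ f : ℕ → ℂ, Mul1 f →
      ∀ (om : ℕ → ℂ) (P : ℕ → ℝ[X]), (∀ k, ‖om k‖ ≤ 1) →
      (∀ k, om k ≠ 0 → (P k).natDegree ≤ d ∧ (((P k).coeff d : ℝ) : UnitAddCircle) ∈ E) →
      ‖∑ n ∈ Ioc 0 N, f n * Fp H s om P n‖ ≤ ε * N := by
  classical
  set c : ℝ := ε ^ 2 / 16 with hc
  have hc0 : 0 < c := by positivity
  have hc1 : c ≤ 1 := by
    rw [hc]
    nlinarith
  obtain ⟨K, C, hK1, hC1, hZ⟩ := corr_rel hWR d hd c hc0 hc1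
  set D : ℕ := K.factorial with hD
  have hD1 : 1 ≤ D := Nat.factorial_pos K
  have hD0 : (0 : ℝ) < D := by exact_mod_cast hD1
  set c2 : ℝ := c / 16 with hc2
  have hc20 : 0 < c2 := by positivity
  have hc21 : c2 ≤ 1 := by
    rw [hc2]
    linarith
  set c3 : ℝ := c2 ^ 2 / 8 with hc3
  have hc30 : 0 < c3 := by positivity
  obtain ⟨b, hb, kb, hkb4, hkb⟩ := PB_lower hCHB
  have hl2 : 0 < Real.log 2 := Real.log_pos (by norm_num)
  obtain ⟨τ, hτ, y0, hfew⟩ := few hPW hTR hCHB hKAP d hd E hE hE0 htf D hD1 (c3 * (b * Real.log 2)) (by positivity)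
  set k0 : ℕ := max (max kb y0) ⌈4 / (b * c2 ^ 2)⌉₊ with hk0
  obtain ⟨k1, N0, hSK⟩ := Pool.Agent.U147.NF.K.t_K ε hε k0
  set Y : ℝ := ((2 : ℝ) * 2 ^ k1) ^ d with hY
  have hY1 : 1 ≤ Y := by
    rw [hY]
    refine one_le_pow₀ ?_
    have : (1 : ℝ) ≤ 2 ^ k1 := one_le_pow₀ (by norm_num)
    linarith
  set t : ℝ := min τ (1 / (8 * Y ^ 2)) with ht
  have ht0 : 0 < t := lt_min hτ (by positivity)
  have hK0 : (0 : ℝ) < K := by exact_mod_cast hK1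
  have hC0 : (0 : ℝ) < C := by exact_mod_cast hC1
  refine ⟨max (C * 2 ^ k1) ⌈D * K * (C * 2 ^ k1) / t⌉₊, ?_⟩
  intro H hH
  have hHC : C * 2 ^ k1 ≤ H := (le_max_left _ _).trans hH
  have hHpos : 0 < H := lt_of_lt_of_le (by positivity) hHC
  have hH0 : (0 : ℝ) < H := by exact_mod_cast hHpos
  have hHt : D * K * (C * 2 ^ k1) ≤ t * H := by
    have h1 : D * K * (C * 2 ^ k1) / t ≤ (H : ℝ) :=
      (Nat.le_ceil _).trans (by exact_mod_cast (le_max_right _ _).trans hH)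
    rw [div_le_iff₀ ht0] at h1
    linarith
  have hMex : ∀ k : ℕ, ∃ M0 : ℕ, k < k1 → ∀ M : ℕ, M0 ≤ M → ∀ s : ℕ, s < H →
      ∀ (om : ℕ → ℂ) (P : ℕ → ℝ[X]), (∀ k, ‖om k‖ ≤ 1) → (∀ k, om k ≠ 0 → (P k).natDegree ≤ d) →
      ∀ m : ℕ → ℕ → ℕ, (∀ p ∈ PB (2 ^ k), ∀ q ∈ PB (2 ^ k), m p q ≤ M) →
      c * ((PB (2 ^ k)).card : ℝ) ^ 2 * M ≤
        ∑ p ∈ PB (2 ^ k), ∑ q ∈ PB (2 ^ k), ‖cor (Fp H s om P) p q (m p q)‖ →
      ∃ z : ℕ, c / 16 * ((PB (2 ^ k)).card : ℝ) ^ 2 ≤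
        (((PB (2 ^ k) ×ˢ PB (2 ^ k)).filter
          (fun pq => RelP d K H s om P (K * (C * ((2 ^ k : ℕ) : ℝ) / H) ^ d) z pq.1 pq.2)).card : ℝ) := by
    intro k
    by_cases hk : k < k1
    · have h2 : (2 : ℕ) ^ k ≤ 2 ^ k1 := Nat.pow_le_pow_right (by norm_num) hk.le
      obtain ⟨M0, hM0⟩ := hZ (2 ^ k) H (Nat.one_le_two_pow) ((Nat.mul_le_mul le_rfl h2).trans hHC)
      exact ⟨M0, fun _ => hM0⟩
    · exact ⟨0, fun h => absurd h hk⟩
  choose M0 hM0 using hMex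
  refine ⟨max N0 (2 ^ k1 * (∑ k ∈ range k1, M0 k + 1)), ?_⟩
  intro N hN s hs f hf om P hom hP
  by_contra hcon
  push Not at hcon
  obtain ⟨k, hkk0, hkk1, hcor⟩ := hSK N ((le_max_left _ _).trans hN) (Fp H s om P) f
    (norm_Fp_le H s om P hom) hf hcon.le
  set y : ℕ := 2 ^ k with hy
  have hy1 : 1 ≤ y := Nat.one_le_two_pow
  have hyR : (0 : ℝ) < y := by exact_mod_cast hy1
  have hyk1 : y ≤ 2 ^ k1 := Nat.pow_le_pow_right (by norm_num) hkk1.le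
  have hNM : M0 k ≤ N / y := by
    rw [Nat.le_div_iff_mul_le (by omega)]
    have h1 : M0 k ≤ ∑ k ∈ range k1, M0 k :=
      Finset.single_le_sum (f := M0) (fun _ _ => Nat.zero_le _) (Finset.mem_range.2 hkk1)
    calc M0 k * y ≤ (∑ k ∈ range k1, M0 k + 1) * 2 ^ k1 := Nat.mul_le_mul (by omega) hyk1
      _ = 2 ^ k1 * (∑ k ∈ range k1, M0 k + 1) := mul_comm _ _
      _ ≤ N := (le_max_right _ _).trans hN
  have hcor' : c * ((PB y).card : ℝ) ^ 2 * ((N / y : ℕ) : ℝ) ≤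
      ∑ p ∈ PB y, ∑ q ∈ PB y, ‖cor (Fp H s om P) p q (min (N / p) (N / q))‖ := by
    refine le_trans ?_ hcor
    have h1 : ((N / y : ℕ) : ℝ) ≤ (N : ℝ) / 2 ^ k := by
      have : ((N / y : ℕ) : ℝ) ≤ (N : ℝ) / (y : ℝ) := Nat.cast_div_le
      rw [hy] at this
      push_cast at this
      exact this
    gcongr
  obtain ⟨z, hz⟩ := hM0 k hkk1 (N / y) hNM s hs om P hom (fun k hk => (hP k hk).1)
    (fun p q => min (N / p) (N / q)) (fun p hp q _ => (min_le_left _ _).trans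
      (Nat.div_le_div_left (PB_mem hp).1.le (by omega))) hcor'
  set e : ℝ := K * (C * ((2 ^ k : ℕ) : ℝ) / H) ^ d with he
  have he0 : 0 ≤ e := by positivity
  have het : D * e ≤ t := by
    have h1 : (C * ((2 ^ k : ℕ) : ℝ) / H) ^ d ≤ C * 2 ^ k1 / H := by
      have h2 : C * ((2 ^ k : ℕ) : ℝ) / H ≤ C * 2 ^ k1 / H := by
        have : ((2 ^ k : ℕ) : ℝ) ≤ 2 ^ k1 := by exact_mod_cast hyk1
        gcongr
      have h3 : C * 2 ^ k1 / (H : ℝ) ≤ 1 := by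
        rw [div_le_one hH0]
        exact_mod_cast hHC
      have h4 : 0 ≤ C * ((2 ^ k : ℕ) : ℝ) / (H : ℝ) := by positivity
      calc (C * ((2 ^ k : ℕ) : ℝ) / H) ^ d ≤ (C * ((2 ^ k : ℕ) : ℝ) / H) ^ 1 :=
            pow_le_pow_of_le_one h4 (h2.trans h3) hd
        _ ≤ _ := by rw [pow_one]; exact h2
    calc (D : ℝ) * e ≤ D * (K * (C * 2 ^ k1 / H)) := by rw [he]; gcongr
      _ = D * K * (C * 2 ^ k1) / H := by ring
      _ ≤ t := by rw [div_le_iff₀ hH0]; exact hHt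
  -- the symmetric relation
  set A : ℕ → ℝ := fun p => (P (kx H s (z / p))).coeff d with hA
  set R : ℕ → ℕ → Prop := fun p q => om (kx H s (z / p)) ≠ 0 ∧ om (kx H s (z / q)) ≠ 0 ∧
    ∃ a : ℤ, |(D : ℝ) * ((p : ℝ) ^ d * A q - (q : ℝ) ^ d * A p) - a| ≤ D * e with hR
  have hRsymm : ∀ p q, R p q → R q p := by
    rintro p q ⟨h1, h2, a, ha⟩
    refine ⟨h2, h1, -a, ?_⟩
    have : (D : ℝ) * ((q : ℝ) ^ d * A p - (p : ℝ) ^ d * A q) - ((-a : ℤ) : ℝ) =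
        -((D : ℝ) * ((p : ℝ) ^ d * A q - (q : ℝ) ^ d * A p) - a) := by
      push_cast
      ring
    rw [this, abs_neg]
    exact ha
  have hRR : ∀ p q, RelP d K H s om P e z p q → R p q := by
    rintro p q ⟨h1, h2, m, hm1, hmK, a, ha⟩
    obtain ⟨r, hr⟩ : m ∣ D := Nat.dvd_factorial hm1 hmK
    refine ⟨h1, h2, r * a, ?_⟩
    have h3 : (D : ℝ) * ((p : ℝ) ^ d * A q - (q : ℝ) ^ d * A p) - ((r * a : ℤ) : ℝ) =
        r * ((m : ℝ) * ((p : ℝ) ^ d * A q - (q : ℝ) ^ d * A p) - a) := by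
      rw [hr]
      push_cast
      ring
    rw [h3, abs_mul, abs_of_nonneg (Nat.cast_nonneg r)]
    have h4 : (r : ℝ) ≤ D := by
      have : r ≤ D := by
        rw [hr]
        exact Nat.le_mul_of_pos_left r (by omega)
      exact_mod_cast this
    exact mul_le_mul h4 ha (abs_nonneg _) hD0.le
  have hcard : c2 * ((PB y).card : ℝ) ^ 2 ≤
      (((PB y ×ˢ PB y).filter (fun pq => R pq.1 pq.2)).card : ℝ) := by
    refine hz.trans ?_
    exact_mod_cast Finset.card_le_card (fun pq hpq => by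
      rw [Finset.mem_filter] at hpq ⊢
      exact ⟨hpq.1, hRR _ _ hpq.2⟩)
  have hkbk : kb ≤ k := ((le_max_left _ _).trans (le_max_left _ _)).trans hkk0
  have hk4 : 4 ≤ k := hkb4.trans hkbk
  have hkR : (0 : ℝ) < k := by exact_mod_cast (by omega : 0 < k)
  have hlow := hkb k hkbk
  have hlowy : b * y ≤ k * ((PB y).card : ℝ) := by
    have : ((y : ℕ) : ℝ) = 2 ^ k := by rw [hy]; push_cast; rfl
    rw [this]
    exact hlow
  have hbig : 4 / c2 ^ 2 ≤ ((PB y).card : ℝ) := by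
    have h1 : 4 / (b * c2 ^ 2) ≤ (k : ℝ) :=
      (Nat.le_ceil _).trans (by exact_mod_cast (le_max_right _ _).trans hkk0)
    have h2 : (k : ℝ) ^ 2 ≤ 2 ^ k := by
      have : k ^ 2 ≤ 2 ^ k := sq_le_two_pow k hk4
      exact_mod_cast this
    have h3 : b * (k : ℝ) ^ 2 ≤ k * ((PB y).card : ℝ) := le_trans (by gcongr) hlow
    have h4 : b * (k : ℝ) ≤ ((PB y).card : ℝ) := by
      have : k * (b * (k : ℝ)) ≤ k * ((PB y).card : ℝ) := by nlinarith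
      exact le_of_mul_le_mul_left this hkR
    refine le_trans ?_ h4
    rw [div_le_iff₀ (by positivity)] at h1 ⊢
    linarith
  obtain ⟨p0, hp0, p1, hp1, hne, hW⟩ := Pool.Agent.U608.NF.GR.t_G (PB y) R c2 hc20 hc21 hRsymm hbig
    (by convert hcard)
  set W : Finset ℕ := (PB y).filter (fun p => p ≠ p0 ∧ p ≠ p1 ∧ R p p0 ∧ R p p1) with hWdef
  have hPBpos : 0 < ((PB y).card : ℝ) := lt_of_lt_of_le (by positivity) hbig
  have hWne : W.Nonempty := by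
    rw [← Finset.card_pos]
    have h1 : 0 < c2 ^ 2 / 8 * ((PB y).card : ℝ) := by positivity
    have h2 : c2 ^ 2 / 8 * ((PB y).card : ℝ) ≤ (W.card : ℝ) := by convert hW
    exact_mod_cast h1.trans_le h2
  have hpY : ∀ p ∈ PB y, (p : ℝ) ^ d ≤ Y := by
    intro p hp
    rw [hY]
    have h1 : (p : ℝ) ≤ 2 * 2 ^ k1 := by
      have h2 := (PB_mem hp).2.1
      have h3 : 2 * y ≤ 2 * 2 ^ k1 := by omega
      exact_mod_cast h2.trans h3
    exact pow_le_pow_left₀ (Nat.cast_nonneg p) h1 d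
  have he8 : 4 * Y ^ 2 * (D * e) < 1 := by
    have h1 : (D : ℝ) * e ≤ 1 / (8 * Y ^ 2) := het.trans (min_le_right _ _)
    have h2 : 4 * Y ^ 2 * (D * e) ≤ 4 * Y ^ 2 * (1 / (8 * Y ^ 2)) := by gcongr
    have h3 : 4 * Y ^ 2 * (1 / (8 * Y ^ 2)) = 1 / 2 := by
      field_simp
      norm_num
    linarith
  have hrelW : ∀ p ∈ W, ∀ r : ℕ, R p r → ∃ k : ℤ,
      |(r : ℝ) ^ d * ((D : ℝ) * A p) - (p : ℝ) ^ d * ((D : ℝ) * A r) - k| ≤ D * e := by
    rintro p - r ⟨-, -, a, ha⟩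
    refine ⟨-a, ?_⟩
    have : (r : ℝ) ^ d * ((D : ℝ) * A p) - (p : ℝ) ^ d * ((D : ℝ) * A r) - ((-a : ℤ) : ℝ) =
        -((D : ℝ) * ((p : ℝ) ^ d * A r - (r : ℝ) ^ d * A p) - a) := by
      push_cast
      ring
    rw [this, abs_neg]
    exact ha
  obtain ⟨β, hβ⟩ := root d W (D * e) Y (fun p => (D : ℝ) * A p) p0 p1 (PB_mem hp0).2.2 (PB_mem hp1).2.2 hne hWne
    (fun p hp => by
      obtain ⟨h1, h2, -⟩ := Finset.mem_filter.1 hp
      exact ⟨(PB_mem h1).2.2, h2, hpY p h1⟩) (hpY p0 hp0) (hpY p1 hp1) he8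
    (fun p hp => hrelW p hp p0 (Finset.mem_filter.1 hp).2.2.2.1)
    (fun p hp => hrelW p hp p1 (Finset.mem_filter.1 hp).2.2.2.2)
  have hy0y : y0 ≤ y := by
    have h1 : y0 ≤ k := ((le_max_right _ _).trans (le_max_left _ _)).trans hkk0
    have h2 : k < 2 ^ k := Nat.lt_two_pow_self
    rw [hy]
    omega
  have hfin := hfew y hy0y (β / D) W (Finset.filter_subset _ _) fun p hp => by
    obtain ⟨j, hj⟩ := hβ p hp
    have hRp : R p p0 := (Finset.mem_filter.1 hp).2.2.2.1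
    refine ⟨A p, (hP _ hRp.1).2, D, hD1, le_rfl, -j, ?_⟩
    have h1 : (D : ℝ) * (A p - (p : ℝ) ^ d * (β / D)) - ((-j : ℤ) : ℝ) =
        -((p : ℝ) ^ d * β - D * A p - j) := by
      push_cast
      field_simp
      ring
    rw [h1, abs_neg]
    exact hj.trans (het.trans (min_le_left _ _))
  have hlogy : Real.log y = k * Real.log 2 := by
    rw [hy]
    push_cast
    rw [Real.log_pow]
  rw [hlogy] at hfin
  have h1 : c3 * (b * Real.log 2) * y ≤ (W.card : ℝ) * (k * Real.log 2) := by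
    have h2 : c3 * ((PB y).card : ℝ) ≤ (W.card : ℝ) := by
      rw [hc3]
      convert hW
    calc c3 * (b * Real.log 2) * y = c3 * Real.log 2 * (b * y) := by ring
      _ ≤ c3 * Real.log 2 * (k * ((PB y).card : ℝ)) := by gcongr
      _ = (c3 * ((PB y).card : ℝ)) * (k * Real.log 2) := by ring
      _ ≤ (W.card : ℝ) * (k * Real.log 2) := by gcongr
  linarith

end Pool.Agent.U307.NP
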