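import Pool.Agent.U307.NP.Z2

/-!
# Project NP (helper307): from correlations along pairs of primes to many large blocks at one point, for arbitrary
sequences on the windows
-/

set_option autoImplicit false

namespace Pool.Agent.U307.NP.G

open Finset
open Pool.Agent.W24.Katai (Mul1 cor)
open Pool.Agent.U237.NF.Lite (PB kx)
open Pool.Agent.U307.NP (kx_mono sum_blocks0 bad_le Good kx_block PB_mem)

/-- the sequence which is `om k * φ k n` on the `k`-th window -/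
noncomputable def Ft (H s : ℕ) (om : ℕ → ℂ) (φ : ℕ → ℕ → ℂ) (n : ℕ) : ℂ := om (kx H s n) * φ (kx H s n) n

/-- the windows of `z / p` and of `z / q` are good and their sequences correlate on a block of length `L` -/
def Big (H s : ℕ) (om : ℕ → ℂ) (φ : ℕ → ℕ → ℂ) (c : ℝ) (L z p q : ℕ) : Prop :=
  om (kx H s (z / p)) ≠ 0 ∧ om (kx H s (z / q)) ≠ 0 ∧ ∃ n : ℕ,
    c * L ≤ ‖∑ m ∈ Ioc n (n + L), φ (kx H s (z / q)) (p * m) * (starRingEnd ℂ) (φ (kx H s (z / p)) (q * m))‖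

/-- the sum over a block -/
noncomputable def SB (H s : ℕ) (om : ℕ → ℂ) (φ : ℕ → ℕ → ℂ) (p q L j : ℕ) : ℂ :=
  ∑ m ∈ Ioc (j * L) (j * L + L), Ft H s om φ (p * m) * (starRingEnd ℂ) (Ft H s om φ (q * m))

lemma norm_Ft_le (H s : ℕ) (om : ℕ → ℂ) (φ : ℕ → ℕ → ℂ) (hom : ∀ k, ‖om k‖ ≤ 1)
    (hφ : ∀ k, om k ≠ 0 → ∀ n, ‖φ k n‖ ≤ 1) (n : ℕ) : ‖Ft H s om φ n‖ ≤ 1 := by
  unfold Ft
  by_cases h : om (kx H s n) = 0
  · rw [h, zero_mul, norm_zero]
    exact zero_le_one
  · rw [norm_mul]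
    exact mul_le_one₀ (hom _) (norm_nonneg _) (hφ _ h n)

lemma norm_term_le (H s : ℕ) (om : ℕ → ℂ) (φ : ℕ → ℕ → ℂ) (hom : ∀ k, ‖om k‖ ≤ 1)
    (hφ : ∀ k, om k ≠ 0 → ∀ n, ‖φ k n‖ ≤ 1) (a b : ℕ) :
    ‖Ft H s om φ a * (starRingEnd ℂ) (Ft H s om φ b)‖ ≤ 1 := by
  rw [norm_mul, RCLike.norm_conj]
  exact mul_le_one₀ (norm_Ft_le H s om φ hom hφ a) (norm_nonneg _) (norm_Ft_le H s om φ hom hφ b)

lemma SB_le (H s : ℕ) (om : ℕ → ℂ) (φ : ℕ → ℕ → ℂ) (hom : ∀ k, ‖om k‖ ≤ 1)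
    (hφ : ∀ k, om k ≠ 0 → ∀ n, ‖φ k n‖ ≤ 1) (p q L j : ℕ) : ‖SB H s om φ p q L j‖ ≤ L := by
  unfold SB
  refine (norm_sum_le _ _).trans ?_
  refine (Finset.sum_le_sum fun m _ => norm_term_le H s om φ hom hφ (p * m) (q * m)).trans ?_
  rw [Finset.sum_const, Nat.card_Ioc, nsmul_eq_mul, mul_one]
  have : j * L + L - j * L = L := by omega
  rw [this]

/-- a good block with a large sum -/
lemma block_big (H s : ℕ) (om : ℕ → ℂ) (φ : ℕ → ℕ → ℂ) (hom : ∀ k, ‖om k‖ ≤ 1) (p q L j : ℕ) (hL : 1 ≤ L)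
    {c : ℝ} (hc : 0 < c) (hg : Good H s p q L j) (hS : c * L ≤ ‖SB H s om φ p q L j‖) :
    om (kx H s (p * (j * L))) ≠ 0 ∧ om (kx H s (q * (j * L))) ≠ 0 ∧ ∃ n : ℕ,
      c * L ≤ ‖∑ m ∈ Ioc n (n + L), φ (kx H s (p * (j * L))) (p * m) *
        (starRingEnd ℂ) (φ (kx H s (q * (j * L))) (q * m))‖ := by
  set k1 := kx H s (p * (j * L)) with hk1
  set k2 := kx H s (q * (j * L)) with hk2
  have hterm : ∀ m ∈ Ioc (j * L) (j * L + L), Ft H s om φ (p * m) * (starRingEnd ℂ) (Ft H s om φ (q * m)) =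
      om k1 * (starRingEnd ℂ) (om k2) * (φ k1 (p * m) * (starRingEnd ℂ) (φ k2 (q * m))) := by
    intro m hm
    rw [Finset.mem_Ioc] at hm
    have e1 : kx H s (p * m) = k1 := kx_block hg.1 (Nat.mul_le_mul le_rfl hm.1.le) (Nat.mul_le_mul le_rfl hm.2)
    have e2 : kx H s (q * m) = k2 := kx_block hg.2 (Nat.mul_le_mul le_rfl hm.1.le) (Nat.mul_le_mul le_rfl hm.2)
    unfold Ft
    rw [e1, e2, map_mul]
    ring
  have hSB : SB H s om φ p q L j = om k1 * (starRingEnd ℂ) (om k2) *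
      ∑ m ∈ Ioc (j * L) (j * L + L), φ k1 (p * m) * (starRingEnd ℂ) (φ k2 (q * m)) := by
    unfold SB
    rw [Finset.sum_congr rfl hterm, Finset.mul_sum]
  have hLR : (1 : ℝ) ≤ L := by exact_mod_cast hL
  have hpos : 0 < ‖SB H s om φ p q L j‖ := lt_of_lt_of_le (by positivity) hS
  rw [hSB] at hpos
  have hom1 : om k1 ≠ 0 := by
    intro h
    rw [h] at hpos
    simp at hpos
  have hom2 : om k2 ≠ 0 := by
    intro h
    rw [h] at hpos
    simp at hpos
  refine ⟨hom1, hom2, j * L, hS.trans ?_⟩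
  rw [hSB, norm_mul, norm_mul, RCLike.norm_conj]
  have a3 : ‖om k1‖ * ‖om k2‖ ≤ 1 := mul_le_one₀ (hom k1) (norm_nonneg _) (hom k2)
  exact mul_le_of_le_one_left (norm_nonneg _) a3

open Classical in
/-- the correlation is bounded through the number of good blocks with large sums -/
lemma cor_le (H s : ℕ) (om : ℕ → ℂ) (φ : ℕ → ℕ → ℂ) (hom : ∀ k, ‖om k‖ ≤ 1)
    (hφ : ∀ k, om k ≠ 0 → ∀ n, ‖φ k n‖ ≤ 1) (p q L M m : ℕ) (hL : 1 ≤ L)
    (hs : s < H) (hm : m ≤ M) (c : ℝ) (hc : 0 < c) :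
    ‖cor (Ft H s om φ) p q m‖ ≤ c * M + L * (((p * M : ℕ) : ℝ) / H + ((q * M : ℕ) : ℝ) / H + 3) +
      L * (((range (M / L)).filter (fun j => Good H s p q L j ∧ c * L ≤ ‖SB H s om φ p q L j‖)).card : ℝ) := by
  have hL0 : (0 : ℝ) < L := by exact_mod_cast hL
  have hH0 : (0 : ℝ) < H := by exact_mod_cast (by omega : 0 < H)
  set g : ℕ → ℂ := fun m => Ft H s om φ (p * m) * (starRingEnd ℂ) (Ft H s om φ (q * m)) with hg
  have h1 : cor (Ft H s om φ) p q m = ∑ j ∈ range (m / L), SB H s om φ p q L j + ∑ i ∈ Ioc (m / L * L) m, g i := by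
    unfold cor
    rw [← Finset.sum_Ioc_consecutive g (Nat.zero_le _) (Nat.div_mul_le_self m L), sum_blocks0]
    rfl
  have h2 : ‖∑ i ∈ Ioc (m / L * L) m, g i‖ ≤ L := by
    refine (norm_sum_le _ _).trans ?_
    refine (Finset.sum_le_sum fun i _ => norm_term_le H s om φ hom hφ (p * i) (q * i)).trans ?_
    rw [Finset.sum_const, Nat.card_Ioc, nsmul_eq_mul, mul_one]
    have h3 : m - m / L * L ≤ L := by
      have := Nat.div_add_mod m L
      have h4 := Nat.mod_lt m (by omega : 0 < L)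
      have h5 : L * (m / L) = m / L * L := mul_comm _ _
      omega
    exact_mod_cast h3
  have hml : m / L ≤ M / L := Nat.div_le_div_right hm
  have h3 : ‖∑ j ∈ range (m / L), SB H s om φ p q L j‖ ≤ ∑ j ∈ range (M / L), ‖SB H s om φ p q L j‖ :=
    (norm_sum_le _ _).trans (Finset.sum_le_sum_of_subset_of_nonneg (Finset.range_mono hml)
      (fun _ _ _ => norm_nonneg _))
  have h4 : ∀ j ∈ range (M / L), ‖SB H s om φ p q L j‖ ≤ c * L +
      L * (if kx H s (p * (j * L)) ≠ kx H s (p * (j * L + L)) then (1 : ℝ) else 0) +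
      L * (if kx H s (q * (j * L)) ≠ kx H s (q * (j * L + L)) then (1 : ℝ) else 0) +
      L * (if Good H s p q L j ∧ c * L ≤ ‖SB H s om φ p q L j‖ then (1 : ℝ) else 0) := by
    intro j _
    have a0 := SB_le H s om φ hom hφ p q L j
    have a1 : 0 < c * L := by positivity
    by_cases b1 : kx H s (p * (j * L)) ≠ kx H s (p * (j * L + L))
    · rw [if_pos b1]
      have : 0 ≤ (L : ℝ) * (if kx H s (q * (j * L)) ≠ kx H s (q * (j * L + L)) then (1 : ℝ) else 0) := by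
        split_ifs <;> simp
      have : 0 ≤ (L : ℝ) * (if Good H s p q L j ∧ c * L ≤ ‖SB H s om φ p q L j‖ then (1 : ℝ) else 0) := by
        split_ifs <;> simp
      linarith
    · rw [if_neg b1]
      push Not at b1
      by_cases b2 : kx H s (q * (j * L)) ≠ kx H s (q * (j * L + L))
      · rw [if_pos b2]
        have : 0 ≤ (L : ℝ) * (if Good H s p q L j ∧ c * L ≤ ‖SB H s om φ p q L j‖ then (1 : ℝ) else 0) := by
          split_ifs <;> simp
        linarith
      · rw [if_neg b2]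
        push Not at b2
        by_cases b3 : c * L ≤ ‖SB H s om φ p q L j‖
        · rw [if_pos ⟨⟨b1, b2⟩, b3⟩]
          linarith
        · rw [if_neg (fun h => b3 h.2)]
          push Not at b3
          linarith
  have h5 := Finset.sum_le_sum h4
  rw [Finset.sum_add_distrib, Finset.sum_add_distrib, Finset.sum_add_distrib, Finset.sum_const, ← Finset.mul_sum,
    ← Finset.mul_sum, ← Finset.mul_sum, card_range, nsmul_eq_mul] at h5
  have hcast : ∀ (Q : ℕ → Prop) [DecidablePred Q], ∑ j ∈ range (M / L), (if Q j then (1 : ℝ) else 0) =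
      (((range (M / L)).filter Q).card : ℝ) := by
    intro Q _
    rw [Finset.card_filter]
    push_cast
    rfl
  rw [hcast, hcast, hcast] at h5
  have hML : ((M / L * L : ℕ) : ℝ) ≤ M := by exact_mod_cast Nat.div_mul_le_self M L
  have hb : ∀ t : ℕ, (((t * (M / L * L) : ℕ)) : ℝ) / H ≤ ((t * M : ℕ) : ℝ) / H := by
    intro t
    have : t * (M / L * L) ≤ t * M := Nat.mul_le_mul le_rfl (Nat.div_mul_le_self M L)
    have : (((t * (M / L * L) : ℕ)) : ℝ) ≤ ((t * M : ℕ) : ℝ) := by exact_mod_cast this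
    gcongr
  have b1 := (bad_le H s p L (M / L) hs).trans (add_le_add (hb p) le_rfl)
  have b2 := (bad_le H s q L (M / L) hs).trans (add_le_add (hb q) le_rfl)
  have h6 : ((M / L : ℕ) : ℝ) * (c * L) ≤ c * M := by
    have : ((M / L : ℕ) : ℝ) * L ≤ M := by exact_mod_cast Nat.div_mul_le_self M L
    nlinarith
  rw [h1]
  refine (norm_add_le _ _).trans ?_
  have c1 := mul_le_mul_of_nonneg_left b1 hL0.le
  have c2 := mul_le_mul_of_nonneg_left b2 hL0.le
  linarith

open Classical in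
/-- many numbers `z` at which the pair `(p, q)` is related -/
lemma count_z (H s : ℕ) (om : ℕ → ℂ) (φ : ℕ → ℕ → ℂ) (hom : ∀ k, ‖om k‖ ≤ 1) (y L M : ℕ) (hL : 1 ≤ L) {c : ℝ}
    (hc : 0 < c) {p q : ℕ} (hp : p ∈ PB y) (hq : q ∈ PB y) :
    ((((range (M / L)).filter (fun j => Good H s p q L j ∧ c * L ≤ ‖SB H s om φ p q L j‖)).card : ℝ)) *
      ((y : ℝ) ^ 2 * L) ≤
      (((range (4 * y ^ 2 * (M + 1))).filter (fun z => Big H s om φ c L z p q)).card : ℝ) := by
  obtain ⟨hp1, hp2, hpp⟩ := PB_mem hp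
  obtain ⟨hq1, hq2, hqq⟩ := PB_mem hq
  set J := M / L with hJ
  have hJL : J * L ≤ M := Nat.div_mul_le_self M L
  have hpq : p * q ≤ 4 * y ^ 2 := by nlinarith
  have hsub : Ioc 0 (J * (p * q * L)) ⊆ range (4 * y ^ 2 * (M + 1)) := by
    intro z hz
    rw [Finset.mem_Ioc] at hz
    rw [Finset.mem_range]
    have h1 : J * (p * q * L) ≤ 4 * y ^ 2 * M := by
      calc J * (p * q * L) = (p * q) * (J * L) := by ring
        _ ≤ 4 * y ^ 2 * M := Nat.mul_le_mul hpq hJL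
    have hy : 0 < y := by
      by_contra h
      have : y = 0 := by omega
      subst this
      omega
    have h2 : 0 < 4 * y ^ 2 := by positivity
    nlinarith
  have h1 : ((((Ioc 0 (J * (p * q * L))).filter (fun z => Big H s om φ c L z p q)).card : ℕ) : ℝ) ≤
      (((range (4 * y ^ 2 * (M + 1))).filter (fun z => Big H s om φ c L z p q)).card : ℝ) := by
    exact_mod_cast Finset.card_le_card (Finset.filter_subset_filter _ hsub)
  refine le_trans ?_ h1
  have h2 : ((((Ioc 0 (J * (p * q * L))).filter (fun z => Big H s om φ c L z p q)).card : ℕ) : ℝ) =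
      ∑ j ∈ range J, ∑ z ∈ Ioc (j * (p * q * L)) (j * (p * q * L) + p * q * L),
        (if Big H s om φ c L z p q then (1 : ℝ) else 0) := by
    rw [← sum_blocks0, Finset.card_filter]
    push_cast
    rfl
  rw [h2, Finset.card_filter]
  push_cast
  rw [Finset.sum_mul]
  refine Finset.sum_le_sum fun j hj => ?_
  by_cases hg : Good H s p q L j ∧ c * L ≤ ‖SB H s om φ p q L j‖
  · rw [if_pos hg, one_mul]
    obtain ⟨hgood, hlarge⟩ := hg
    obtain ⟨o1, o2, n, hn⟩ := block_big H s om φ hom p q L j hL hc hgood hlarge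
    have hall : ∀ z ∈ Ioc (j * (p * q * L)) (j * (p * q * L) + p * q * L), Big H s om φ c L z p q := by
      intro z hz
      rw [Finset.mem_Ioc] at hz
      have hp0 : 0 < p := hpp.pos
      have hq0 : 0 < q := hqq.pos
      have e1 : q * (j * L) ≤ z / p := by
        rw [Nat.le_div_iff_mul_le hp0]
        have : q * (j * L) * p = j * (p * q * L) := by ring
        omega
      have e2 : z / p ≤ q * (j * L + L) := by
        refine Nat.div_le_of_le_mul ?_
        have : p * (q * (j * L + L)) = j * (p * q * L) + p * q * L := by ring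
        omega
      have e3 : p * (j * L) ≤ z / q := by
        rw [Nat.le_div_iff_mul_le hq0]
        have : p * (j * L) * q = j * (p * q * L) := by ring
        omega
      have e4 : z / q ≤ p * (j * L + L) := by
        refine Nat.div_le_of_le_mul ?_
        have : q * (p * (j * L + L)) = j * (p * q * L) + p * q * L := by ring
        omega
      have k1 : kx H s (z / p) = kx H s (q * (j * L)) := kx_block hgood.2 e1 e2
      have k2 : kx H s (z / q) = kx H s (p * (j * L)) := kx_block hgood.1 e3 e4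
      unfold Big
      rw [k1, k2]
      exact ⟨o2, o1, n, hn⟩
    rw [Finset.sum_congr rfl (fun z hz => if_pos (hall z hz)), Finset.sum_const, Nat.card_Ioc, nsmul_eq_mul, mul_one]
    have h3 : j * (p * q * L) + p * q * L - j * (p * q * L) = p * q * L := by omega
    rw [h3]
    have h4 : y ^ 2 * L ≤ p * q * L := by
      refine Nat.mul_le_mul ?_ le_rfl
      nlinarith
    exact_mod_cast h4
  · rw [if_neg hg, zero_mul]
    refine Finset.sum_nonneg fun z _ => ?_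
    split_ifs <;> norm_num

open Classical in
/-- **From correlations to relations.** -/
theorem corr_gen (c : ℝ) (hc : 0 < c) :
    ∃ C : ℕ, 1 ≤ C ∧ ∀ y H : ℕ, 1 ≤ y → C * y ≤ H → ∃ M0 : ℕ, ∀ M : ℕ, M0 ≤ M → ∀ s : ℕ, s < H →
      ∀ (om : ℕ → ℂ) (φ : ℕ → ℕ → ℂ), (∀ k, ‖om k‖ ≤ 1) → (∀ k, om k ≠ 0 → ∀ n, ‖φ k n‖ ≤ 1) →
      ∀ m : ℕ → ℕ → ℕ, (∀ p ∈ PB y, ∀ q ∈ PB y, m p q ≤ M) →
      c * ((PB y).card : ℝ) ^ 2 * M ≤ ∑ p ∈ PB y, ∑ q ∈ PB y, ‖cor (Ft H s om φ) p q (m p q)‖ →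
      ∃ z : ℕ, c / 16 * ((PB y).card : ℝ) ^ 2 ≤
        (((PB y ×ˢ PB y).filter (fun pq => Big H s om φ (c / 4) (H / (C * y)) z pq.1 pq.2)).card : ℝ) := by
  set C0 : ℕ := ⌈32 / c⌉₊ with hC0
  have hC0c : 32 / c ≤ (C0 : ℝ) := Nat.le_ceil _
  have hC01 : 1 ≤ C0 := by
    rw [hC0]
    exact Nat.one_le_ceil_iff.2 (by positivity)
  refine ⟨C0, hC01, ?_⟩
  intro y H hy hH
  have hy0 : (0 : ℝ) < y := by exact_mod_cast hy
  set L : ℕ := H / (C0 * y) with hLdef
  have hCy : 0 < C0 * y := Nat.mul_pos (by omega) (by omega)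
  have hHC : C0 * y ≤ H := hH
  have hL1 : 1 ≤ L := by
    rw [hLdef, Nat.le_div_iff_mul_le hCy]
    omega
  have hL0 : (0 : ℝ) < L := by exact_mod_cast hL1
  have hHpos : 0 < H := by omega
  have hH0 : (0 : ℝ) < H := by exact_mod_cast hHpos
  have hLH : (L : ℝ) * (C0 * y) ≤ H := by
    have : L * (C0 * y) ≤ H := Nat.div_mul_le_self H (C0 * y)
    exact_mod_cast this
  refine ⟨⌈24 * L / c⌉₊ + 1, ?_⟩
  intro M hM s hs om φ hom hφ m hm hcor
  have hML : 24 * L / c ≤ (M : ℝ) := (Nat.le_ceil _).trans (by exact_mod_cast (Nat.le_succ _).trans hM)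
  have hML' : 24 * (L : ℝ) ≤ c * M := by
    rw [div_le_iff₀ hc] at hML
    linarith
  have hM1' : 1 ≤ M := by omega
  have hM1 : (1 : ℝ) ≤ M := by exact_mod_cast hM1'
  set π : ℝ := ((PB y).card : ℝ) with hπ
  have hπ0 : 0 ≤ π := by positivity
  -- the sum of the numbers of good blocks
  set GB : ℕ → ℕ → ℝ := fun p q =>
    (((range (M / L)).filter (fun j => Good H s p q L j ∧ c / 4 * L ≤ ‖SB H s om φ p q L j‖)).card : ℝ)
    with hGL
  have hsum : c / 2 * π ^ 2 * M ≤ L * ∑ p ∈ PB y, ∑ q ∈ PB y, GB p q := by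
    have h1 : ∀ p ∈ PB y, ∀ q ∈ PB y, ‖cor (Ft H s om φ) p q (m p q)‖ ≤ c / 2 * M + L * GB p q := by
      intro p hp q hq
      have h2 := cor_le H s om φ hom hφ p q L M (m p q) hL1 hs (hm p hp q hq) (c / 4) (by positivity)
      have h3 : ∀ t ∈ PB y, (L : ℝ) * (((t * M : ℕ) : ℝ) / H) ≤ c / 16 * M := by
        intro t ht
        have ht2 : (t : ℝ) ≤ 2 * y := by exact_mod_cast (PB_mem ht).2.1
        push_cast
        have h4 : (L : ℝ) * y ≤ c / 32 * H := by
          have h5 : 32 ≤ c * C0 := by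
            rw [div_le_iff₀ hc] at hC0c
            linarith
          have h6 : (L : ℝ) * y * 32 ≤ (L : ℝ) * y * (c * C0) :=
            mul_le_mul_of_nonneg_left h5 (by positivity)
          have h7 : (L : ℝ) * y * (c * C0) = c * (L * (C0 * y)) := by ring
          have h8 : c * (L * (C0 * y)) ≤ c * H := mul_le_mul_of_nonneg_left hLH hc.le
          linarith
        rw [← mul_div_assoc, div_le_iff₀ hH0]
        calc (L : ℝ) * (t * M) ≤ L * (2 * y * M) := by gcongr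
          _ = 2 * (L * y) * M := by ring
          _ ≤ 2 * (c / 32 * H) * M := by gcongr
          _ = c / 16 * M * H := by ring
      have h4 := h3 p hp
      have h5 := h3 q hq
      have h7 : (L : ℝ) * (((p * M : ℕ) : ℝ) / H + ((q * M : ℕ) : ℝ) / H + 3) =
          L * (((p * M : ℕ) : ℝ) / H) + L * (((q * M : ℕ) : ℝ) / H) + 3 * L := by ring
      rw [h7] at h2
      simp only [hGL]
      linarith
    have h2 : ∑ p ∈ PB y, ∑ q ∈ PB y, ‖cor (Ft H s om φ) p q (m p q)‖ ≤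
        ∑ p ∈ PB y, ∑ q ∈ PB y, (c / 2 * M + L * GB p q) :=
      Finset.sum_le_sum fun p hp => Finset.sum_le_sum fun q hq => h1 p hp q hq
    have h3 : ∑ p ∈ PB y, ∑ q ∈ PB y, (c / 2 * M + L * GB p q) =
        π ^ 2 * (c / 2 * M) + L * ∑ p ∈ PB y, ∑ q ∈ PB y, GB p q := by
      simp only [Finset.sum_add_distrib, Finset.sum_const, nsmul_eq_mul, ← Finset.mul_sum]
      rw [hπ]
      ring
    rw [h3] at h2
    linarith [hcor.trans h2]
  by_contra hcon
  push Not at hcon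
  have hZne : (range (4 * y ^ 2 * (M + 1))).Nonempty := by
    rw [Finset.nonempty_range_iff]
    positivity
  have h1 : ∑ z ∈ range (4 * y ^ 2 * (M + 1)),
      (((PB y ×ˢ PB y).filter (fun pq => Big H s om φ (c / 4) L z pq.1 pq.2)).card : ℝ) <
      ∑ _z ∈ range (4 * y ^ 2 * (M + 1)), c / 16 * π ^ 2 :=
    Finset.sum_lt_sum_of_nonempty hZne fun z _ => hcon z
  have h2 : ∑ z ∈ range (4 * y ^ 2 * (M + 1)),
      (((PB y ×ˢ PB y).filter (fun pq => Big H s om φ (c / 4) L z pq.1 pq.2)).card : ℝ) =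
      ∑ p ∈ PB y, ∑ q ∈ PB y,
        (((range (4 * y ^ 2 * (M + 1))).filter (fun z => Big H s om φ (c / 4) L z p q)).card : ℝ) := by
    have a1 : ∀ z : ℕ, (((PB y ×ˢ PB y).filter (fun pq => Big H s om φ (c / 4) L z pq.1 pq.2)).card : ℝ) =
        ∑ p ∈ PB y, ∑ q ∈ PB y, (if Big H s om φ (c / 4) L z p q then (1 : ℝ) else 0) := by
      intro z
      rw [Finset.card_filter, Nat.cast_sum, Finset.sum_product]
      refine Finset.sum_congr rfl fun x _ => Finset.sum_congr rfl fun q _ => ?_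
      split_ifs <;> simp
    rw [Finset.sum_congr rfl (fun z _ => a1 z), Finset.sum_comm]
    refine Finset.sum_congr rfl fun p _ => ?_
    rw [Finset.sum_comm]
    refine Finset.sum_congr rfl fun q _ => ?_
    rw [Finset.card_filter]
    push_cast
    rfl
  have h3 : ∑ p ∈ PB y, ∑ q ∈ PB y, GB p q * ((y : ℝ) ^ 2 * L) ≤ ∑ p ∈ PB y, ∑ q ∈ PB y,
        (((range (4 * y ^ 2 * (M + 1))).filter (fun z => Big H s om φ (c / 4) L z p q)).card : ℝ) :=
    Finset.sum_le_sum fun p hp => Finset.sum_le_sum fun q hq =>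
      count_z H s om φ hom y L M hL1 (by positivity) hp hq
  have h4 : ∑ p ∈ PB y, ∑ q ∈ PB y, GB p q * ((y : ℝ) ^ 2 * L) =
      (y : ℝ) ^ 2 * (L * ∑ p ∈ PB y, ∑ q ∈ PB y, GB p q) := by
    simp only [← Finset.sum_mul]
    ring
  have h5 : (y : ℝ) ^ 2 * (c / 2 * π ^ 2 * M) ≤ (y : ℝ) ^ 2 * (L * ∑ p ∈ PB y, ∑ q ∈ PB y, GB p q) :=
    mul_le_mul_of_nonneg_left hsum (by positivity)
  rw [Finset.sum_const, card_range, nsmul_eq_mul] at h1
  have h6 : ((4 * y ^ 2 * (M + 1) : ℕ) : ℝ) * (c / 16 * π ^ 2) ≤ (y : ℝ) ^ 2 * (c / 2 * π ^ 2 * M) := by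
    push_cast
    have : (M : ℝ) + 1 ≤ 2 * M := by linarith
    calc 4 * (y : ℝ) ^ 2 * (M + 1) * (c / 16 * π ^ 2) ≤ 4 * (y : ℝ) ^ 2 * (2 * M) * (c / 16 * π ^ 2) := by gcongr
      _ = (y : ℝ) ^ 2 * (c / 2 * π ^ 2 * M) := by ring
  linarith

end Pool.Agent.U307.NP.G
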