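import Pool.Agent.U307.NP.B2
import Pool.Agent.U307.NP.G
import Pool.Agent.U307.NP.Fin
import Pool.Agent.U307.NP.Core

/-!
# Project NP (helper307): two-step nilsequences, the core
-/

set_option autoImplicit false

namespace Pool.Agent.U307.NP

open Finset MeasureTheory Polynomial
open Pool.Agent.H807R2.Dav (ee)
open Pool.Agent.W24.Katai (cor)
open Pool.Agent.U237.NF.Lite (PB kx)
open Pool.Agent.Helper44K9.FN
open Pool.Agent.Helper44K9.FN.InvL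
open Pool.Agent.Helper44K9.FU (S_PW S_TRIG2 S_CHB S_KAP)

/-- the vectors bounded by `K` -/
noncomputable def vecs (d K : ℕ) : Finset (Fin d → ℤ) := Fintype.piFinset fun _ => Icc (-(K : ℤ)) K

lemma mem_vecs {d K : ℕ} {ζ : Fin d → ℤ} (h : ∀ i, |ζ i| ≤ K) : ζ ∈ vecs d K := by
  unfold vecs
  rw [Fintype.mem_piFinset]
  intro i
  rw [mem_Icc]
  exact abs_le.1 (h i)

/-- the union of the images of `E` under the nonzero bounded forms -/
def Est {d : ℕ} (E : Set (Fin d → UnitAddCircle)) (K : ℕ) : Set UnitAddCircle :=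
  ⋃ ζ ∈ ((vecs d K).filter (fun ζ => ζ ≠ 0) : Finset (Fin d → ℤ)), Pool.Agent.Helper44K9.FB.lf ζ '' E

lemma Est_prop {d : ℕ} {E : Set (Fin d → UnitAddCircle)} (hE : IsCompact E) (hI : Irr E)
    (hv : ∀ k : Fin d → ℤ, k ≠ 0 → volume (Pool.Agent.Helper44K9.FB.lf k '' E) = 0) (K : ℕ) :
    IsCompact (Est E K) ∧ volume (Est E K) = 0 ∧ ∀ x ∈ Est E K, addOrderOf x = 0 := by
  have hc : ∀ k : Fin d → ℤ, Continuous (Pool.Agent.Helper44K9.FB.lf k) := by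
    intro k
    unfold Pool.Agent.Helper44K9.FB.lf
    exact continuous_finsetSum _ fun i _ => (continuous_apply i).zsmul (k i)
  refine ⟨?_, ?_, ?_⟩
  · unfold Est
    exact Finset.isCompact_biUnion _ fun ζ _ => hE.image (hc ζ)
  · unfold Est
    exact (measure_biUnion_null_iff (μ := (volume : Measure UnitAddCircle))
      (s := fun ζ : Fin d → ℤ => Pool.Agent.Helper44K9.FB.lf ζ '' E)
      (Finset.countable_toSet ((vecs d K).filter (fun ζ => ζ ≠ 0)))).2 fun ζ hζ =>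
        hv ζ (mem_filter.1 (Finset.mem_coe.1 hζ)).2
  · intro x hx
    unfold Est at hx
    rw [Set.mem_iUnion₂] at hx
    obtain ⟨ζ, hζ, z, hz, rfl⟩ := hx
    exact hI ζ (mem_filter.1 hζ).2 z hz

/-- pigeonhole -/
lemma pigeon {ι κ : Type*} [DecidableEq κ] (s : Finset ι) (t : Finset κ) (f : ι → κ) (hf : ∀ x ∈ s, f x ∈ t)
    (ht : t.Nonempty) : ∃ y ∈ t, (s.card : ℝ) / t.card ≤ ((s.filter (fun x => f x = y)).card : ℝ) := by
  by_contra hcon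
  push Not at hcon
  have h1 : (s.card : ℝ) = ∑ y ∈ t, ((s.filter (fun x => f x = y)).card : ℝ) := by
    exact_mod_cast Finset.card_eq_sum_card_fiberwise (f := f) (t := t) hf
  have h2 : ∑ y ∈ t, ((s.filter (fun x => f x = y)).card : ℝ) < ∑ _y ∈ t, (s.card : ℝ) / t.card :=
    Finset.sum_lt_sum_of_nonempty ht hcon
  rw [← h1, Finset.sum_const, nsmul_eq_mul] at h2
  have h3 : (0 : ℝ) < t.card := by exact_mod_cast ht.card_pos
  rw [mul_div_cancel₀ _ h3.ne'] at h2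
  exact lt_irrefl _ h2

theorem coreT_two (hPW : S_PW) (hTR : S_TRIG2) (hCHB : S_CHB) (hKAP : S_KAP) (hRED : S_RED) (hVDC : S_VDC)
    (hAFF : S_AFF) (d : ℕ) (b : Matrix (Fin d) (Fin d) ℤ) (φ : (Fin d → ℝ) → ℂ) (hφ : Th b φ)
    (hb : b.transpose ≠ b) (E : Set (Fin d → UnitAddCircle)) (hE : IsCompact E) (hI : Irr E)
    (hv : ∀ k : Fin d → ℤ, k ≠ 0 → volume (Pool.Agent.Helper44K9.FB.lf k '' E) = 0) : CoreT (Cl φ (Tg E)) := by
  classical
  intro ε hε hε1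
  obtain ⟨j, hj⟩ := exists_col b hb
  set c : ℝ := ε ^ 2 / 16 with hc
  have hc0 : 0 < c := by positivity
  have hc1 : c ≤ 1 := by
    rw [hc]
    nlinarith
  obtain ⟨C, hC1, hZ⟩ := G.corr_gen c hc0
  obtain ⟨s0, hrel⟩ := rel_pair hRED hVDC hAFF d b φ hφ j (c / 4) (by positivity)
  obtain ⟨b0, hb0, kb, hkb4, hkb⟩ := PB_lower hCHB
  have hl2 : 0 < Real.log 2 := Real.log_pos (by norm_num)
  obtain ⟨κ₀, hκ₀, y1, hslope⟩ := slope hPW hTR hCHB d b j hj E hE hI s0 (c / 32 * (b0 * Real.log 2)) (by positivity)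
  obtain ⟨K, L₀, hpair⟩ := hrel κ₀ hκ₀
  set Zc : Finset ((Fin d → ℤ) × (Fin d → ℤ)) := vecs d K ×ˢ vecs d K with hZc
  have h0v : (0 : Fin d → ℤ) ∈ vecs d K := mem_vecs fun i => by simp
  have hZne : Zc.Nonempty := ⟨(0, 0), by rw [hZc, mem_product]; exact ⟨h0v, h0v⟩⟩
  have hZ0 : (0 : ℝ) < Zc.card := by exact_mod_cast hZne.card_pos
  have hZ1 : (1 : ℝ) ≤ Zc.card := by exact_mod_cast hZne.card_pos
  set c4 : ℝ := c / 32 / Zc.card with hc4
  have hc40 : 0 < c4 := by positivity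
  have hc41 : c4 ≤ 1 := by
    rw [hc4, div_le_one hZ0]
    linarith
  obtain ⟨hEs1, hEs2, hEs3⟩ := Est_prop hE hI hv K
  obtain ⟨τ, hτ, y2, hfew⟩ := few hPW hTR hCHB hKAP 1 le_rfl (Est E K) hEs1 hEs2 hEs3 1 le_rfl
    (c4 ^ 2 / 8 * (b0 * Real.log 2)) (by positivity)
  set k0 : ℕ := max (max kb (max y1 y2)) ⌈4 / (b0 * c4 ^ 2)⌉₊ with hk0
  obtain ⟨k1, N0, hSK⟩ := Pool.Agent.U147.NF.K.t_K ε hε k0
  set Y : ℝ := (2 : ℝ) * 2 ^ k1 with hY
  have hY1 : 1 ≤ Y := by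
    rw [hY]
    have : (1 : ℝ) ≤ 2 ^ k1 := one_le_pow₀ (by norm_num)
    linarith
  set t : ℝ := min τ (1 / (8 * Y ^ 2)) with ht
  have ht0 : 0 < t := lt_min hτ (by positivity)
  set Lm : ℕ := max L₀ (⌈K / t⌉₊ + 1) with hLm
  refine ⟨C * 2 ^ k1 * Lm, ?_⟩
  intro H hH
  have hLm1 : 1 ≤ Lm := le_trans (by omega) (le_max_right _ _)
  have hC2 : 0 < C * 2 ^ k1 := Nat.mul_pos (by omega) (by positivity)
  have hHC : C * 2 ^ k1 ≤ H := le_trans (Nat.le_mul_of_pos_right _ (by omega)) hH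
  have hMex : ∀ k : ℕ, ∃ M0 : ℕ, k < k1 → ∀ M : ℕ, M0 ≤ M → ∀ s : ℕ, s < H →
      ∀ (om : ℕ → ℂ) (ψ : ℕ → ℕ → ℂ), (∀ k, ‖om k‖ ≤ 1) → (∀ k, om k ≠ 0 → ∀ n, ‖ψ k n‖ ≤ 1) →
      ∀ m : ℕ → ℕ → ℕ, (∀ p ∈ PB (2 ^ k), ∀ q ∈ PB (2 ^ k), m p q ≤ M) →
      c * ((PB (2 ^ k)).card : ℝ) ^ 2 * M ≤
        ∑ p ∈ PB (2 ^ k), ∑ q ∈ PB (2 ^ k), ‖cor (G.Ft H s om ψ) p q (m p q)‖ →
      ∃ z : ℕ, c / 16 * ((PB (2 ^ k)).card : ℝ) ^ 2 ≤
        (((PB (2 ^ k) ×ˢ PB (2 ^ k)).filter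
          (fun pq => G.Big H s om ψ (c / 4) (H / (C * 2 ^ k)) z pq.1 pq.2)).card : ℝ) := by
    intro k
    by_cases hk : k < k1
    · have h2 : (2 : ℕ) ^ k ≤ 2 ^ k1 := Nat.pow_le_pow_right (by norm_num) hk.le
      obtain ⟨M0, hM0⟩ := hZ (2 ^ k) H (Nat.one_le_two_pow) ((Nat.mul_le_mul le_rfl h2).trans hHC)
      exact ⟨M0, fun _ => hM0⟩
    · exact ⟨0, fun h => absurd h hk⟩
  choose M0 hM0 using hMex
  refine ⟨max N0 (2 ^ k1 * (∑ k ∈ range k1, M0 k + 1)), ?_⟩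
  intro N hN s hs f hf om ψ hom hψ
  by_contra hcon
  push Not at hcon
  have hψ1 : ∀ k, om k ≠ 0 → ∀ n, ‖ψ k n‖ ≤ 1 := by
    intro k hk n
    obtain ⟨α, -, x, P, -, h⟩ := hψ k hk
    rw [h, norm_mul, norm_ee, one_mul]
    exact hφ.2.1 _
  obtain ⟨k, hkk0, hkk1, hcor⟩ := hSK N ((le_max_left _ _).trans hN) (G.Ft H s om ψ) f
    (G.norm_Ft_le H s om ψ hom hψ1) hf hcon.le
  set y : ℕ := 2 ^ k with hy
  have hy1 : 1 ≤ y := Nat.one_le_two_pow
  have hyR : (0 : ℝ) < y := by exact_mod_cast hy1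
  have hyk1 : y ≤ 2 ^ k1 := Nat.pow_le_pow_right (by norm_num) hkk1.le
  have hNM : M0 k ≤ N / y := by
    rw [Nat.le_div_iff_mul_le (by omega)]
    have h1 : M0 k ≤ ∑ k ∈ range k1, M0 k :=
      Finset.single_le_sum (f := M0) (fun _ _ => Nat.zero_le _) (Finset.mem_range.2 hkk1)
    calc M0 k * y ≤ (∑ k ∈ range k1, M0 k + 1) * 2 ^ k1 := Nat.mul_le_mul (by omega) hyk1
      _ = 2 ^ k1 * (∑ k ∈ range k1, M0 k + 1) := mul_comm _ _
      _ ≤ N := (le_max_right _ _).trans hN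
  have hcor' : c * ((PB y).card : ℝ) ^ 2 * ((N / y : ℕ) : ℝ) ≤
      ∑ p ∈ PB y, ∑ q ∈ PB y, ‖cor (G.Ft H s om ψ) p q (min (N / p) (N / q))‖ := by
    refine le_trans ?_ hcor
    have h1 : ((N / y : ℕ) : ℝ) ≤ (N : ℝ) / 2 ^ k := by
      have : ((N / y : ℕ) : ℝ) ≤ (N : ℝ) / (y : ℝ) := Nat.cast_div_le
      rw [hy] at this
      push_cast at this
      exact this
    gcongr
  obtain ⟨z, hz⟩ := hM0 k hkk1 (N / y) hNM s hs om ψ hom hψ1
    (fun p q => min (N / p) (N / q)) (fun p hp q _ => (min_le_left _ _).trans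
      (Nat.div_le_div_left (PB_mem hp).1.le (by omega))) hcor'
  set L : ℕ := H / (C * 2 ^ k) with hL
  have hLLm : Lm ≤ L := by
    rw [hL, Nat.le_div_iff_mul_le (Nat.mul_pos (by omega) (by positivity))]
    calc Lm * (C * 2 ^ k) ≤ Lm * (C * 2 ^ k1) := Nat.mul_le_mul le_rfl (Nat.mul_le_mul le_rfl hyk1)
      _ = C * 2 ^ k1 * Lm := mul_comm _ _
      _ ≤ H := hH
  have hLL0 : L₀ ≤ L := (le_max_left _ _).trans hLLm
  have hLpos : (0 : ℝ) < L := by exact_mod_cast (by omega : 0 < L)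
  have hKL : (K : ℝ) / L ≤ t := by
    rw [div_le_iff₀ hLpos]
    have h1 : (K : ℝ) / t ≤ L := by
      refine (Nat.le_ceil _).trans ?_
      have : ⌈(K : ℝ) / t⌉₊ ≤ L := le_trans (by omega) ((le_max_right L₀ (⌈(K : ℝ) / t⌉₊ + 1)).trans hLLm)
      exact_mod_cast this
    rw [div_le_iff₀ ht0] at h1
    linarith
  -- the data of the windows
  have hdat : ∀ r : ℕ, ∃ (α x : Fin d → ℝ) (P : ℝ[X]), om (kx H s (z / r)) ≠ 0 → α ∈ Tg E ∧ P.natDegree ≤ 2 ∧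
      ∀ m : ℕ, ψ (kx H s (z / r)) m = ee (P.eval (m : ℝ)) * φ ((m : ℝ) • α + x) := by
    intro r
    by_cases hr : om (kx H s (z / r)) ≠ 0
    · obtain ⟨α, hα, x, P, hP, h⟩ := hψ _ hr
      exact ⟨α, x, P, fun _ => ⟨hα, hP, h⟩⟩
    · exact ⟨0, 0, 0, fun h => absurd h hr⟩
  choose α x P hdat using hdat
  have hkbk : kb ≤ k := ((le_max_left _ _).trans (le_max_left _ _)).trans hkk0
  have hk4 : 4 ≤ k := hkb4.trans hkbk
  have hkR : (0 : ℝ) < k := by exact_mod_cast (by omega : 0 < k)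
  have hlow := hkb k hkbk
  have hycast : ((y : ℕ) : ℝ) = 2 ^ k := by rw [hy]; push_cast; rfl
  have hlowy : b0 * y ≤ k * ((PB y).card : ℝ) := by
    rw [hycast]
    exact hlow
  have hlogy : Real.log y = k * Real.log 2 := by
    rw [hycast]
    rw [Real.log_pow]
  have hky : k < y := Nat.lt_two_pow_self
  have hy1y : y1 ≤ y := by
    have : y1 ≤ k := (((le_max_left _ _).trans (le_max_right _ _)).trans (le_max_left _ _)).trans hkk0
    omega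
  have hy2y : y2 ≤ y := by
    have : y2 ≤ k := (((le_max_right _ _).trans (le_max_right _ _)).trans (le_max_left _ _)).trans hkk0
    omega
  set π : ℝ := ((PB y).card : ℝ) with hπ
  have hklog : 0 < k * Real.log 2 := by positivity
  -- few bad primes
  have hbad : ∀ q : ℕ, om (kx H s (z / q)) ≠ 0 →
      (((PB y).filter (fun p => ¬ Slp b j s0 κ₀ p (α q))).card : ℝ) ≤ c / 32 * π := by
    intro q hq
    have h1 := hslope y hy1y (α q) (hdat q hq).1.2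
    rw [hlogy] at h1
    have h2 : c / 32 * (b0 * Real.log 2) * y ≤ c / 32 * π * (k * Real.log 2) := by
      calc c / 32 * (b0 * Real.log 2) * y = c / 32 * Real.log 2 * (b0 * y) := by ring
        _ ≤ c / 32 * Real.log 2 * (k * π) := by gcongr
        _ = c / 32 * π * (k * Real.log 2) := by ring
    exact le_of_mul_le_mul_right (h1.trans h2) hklog
  -- the good pairs
  set GP : Finset (ℕ × ℕ) := (PB y ×ˢ PB y).filter
    (fun pq => G.Big H s om ψ (c / 4) L z pq.1 pq.2 ∧ Slp b j s0 κ₀ pq.1 (α pq.2)) with hGP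
  have hGPcard : c / 32 * π ^ 2 ≤ (GP.card : ℝ) := by
    set BP : Finset (ℕ × ℕ) := (PB y ×ˢ PB y).filter
      (fun pq => om (kx H s (z / pq.2)) ≠ 0 ∧ ¬ Slp b j s0 κ₀ pq.1 (α pq.2)) with hBP
    have h1 : (BP.card : ℝ) ≤ c / 32 * π ^ 2 := by
      have h2 : (BP.card : ℝ) = ∑ q ∈ PB y, ∑ p ∈ PB y,
          (if om (kx H s (z / q)) ≠ 0 ∧ ¬ Slp b j s0 κ₀ p (α q) then (1 : ℝ) else 0) := by
        rw [hBP, Finset.card_filter, Nat.cast_sum, Finset.sum_product, Finset.sum_comm]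
        refine sum_congr rfl fun q _ => sum_congr rfl fun p _ => ?_
        split_ifs <;> simp
      rw [h2]
      have h3 : ∀ q ∈ PB y, ∑ p ∈ PB y,
          (if om (kx H s (z / q)) ≠ 0 ∧ ¬ Slp b j s0 κ₀ p (α q) then (1 : ℝ) else 0) ≤ c / 32 * π := by
        intro q _
        by_cases hq : om (kx H s (z / q)) = 0
        · have : ∀ p ∈ PB y, (if om (kx H s (z / q)) ≠ 0 ∧ ¬ Slp b j s0 κ₀ p (α q) then (1 : ℝ) else 0) = 0 :=
            fun p _ => if_neg fun h => h.1 hq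
          rw [sum_congr rfl this, sum_const_zero]
          positivity
        · refine le_trans (le_of_eq ?_) (hbad q hq)
          rw [Finset.card_filter]
          push_cast
          refine sum_congr rfl fun p _ => ?_
          simp [hq]
      refine (sum_le_sum h3).trans (le_of_eq ?_)
      rw [sum_const, nsmul_eq_mul]
      ring
    have h2 : (PB y ×ˢ PB y).filter (fun pq => G.Big H s om ψ (c / 4) L z pq.1 pq.2) ⊆ GP ∪ BP := by
      intro pq hpq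
      rw [mem_filter] at hpq
      rw [mem_union, hGP, hBP, mem_filter, mem_filter]
      by_cases h : Slp b j s0 κ₀ pq.1 (α pq.2)
      · exact Or.inl ⟨hpq.1, hpq.2, h⟩
      · exact Or.inr ⟨hpq.1, hpq.2.2.1, h⟩
    have h3 : c / 16 * π ^ 2 ≤ (GP.card : ℝ) + BP.card := by
      refine hz.trans ?_
      exact_mod_cast (Finset.card_le_card h2).trans (Finset.card_union_le _ _)
    linarith
  -- the colours
  have hcol : ∀ pq ∈ GP, ∃ ζζ : (Fin d → ℤ) × (Fin d → ℤ), ζζ ∈ Zc ∧ ζζ.1 ≠ 0 ∧ ∃ a : ℤ,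
      |((pq.1 : ℕ) : ℝ) * dt ζζ.1 (α pq.2) - ((pq.2 : ℕ) : ℝ) * dt ζζ.2 (α pq.1) - a| ≤ K / L := by
    intro pq hpq
    rw [hGP, mem_filter] at hpq
    obtain ⟨-, ⟨o1, o2, n, hn⟩, hS⟩ := hpq
    obtain ⟨-, hP1, hψ1⟩ := hdat pq.2 o2
    obtain ⟨-, hP2, hψ2⟩ := hdat pq.1 o1
    obtain ⟨ζ, ζ', h1, h2, h3, a, ha⟩ := hpair L hLL0 n pq.1 pq.2 _ _ (α pq.2) (α pq.1) (x pq.2) (x pq.1)
      (P pq.2) (P pq.1) hP1 hP2 hψ1 hψ2 hS hn
    exact ⟨(ζ, ζ'), mem_product.2 ⟨mem_vecs h2, mem_vecs h3⟩, h1, a, ha⟩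
  choose! col hcol1 hcol2 hcol3 using hcol
  obtain ⟨ζζ, -, hpop⟩ := pigeon GP Zc col hcol1 hZne
  set ζ := ζζ.1 with hζ
  set ζ' := ζζ.2 with hζ'
  set R : ℕ → ℕ → Prop := fun p q => om (kx H s (z / q)) ≠ 0 ∧ ζ ≠ 0 ∧ ζ ∈ vecs d K ∧ ∃ a : ℤ,
    |(p : ℝ) * dt ζ (α q) - (q : ℝ) * dt ζ' (α p) - a| ≤ K / L with hR
  have hcard : c4 * π ^ 2 ≤ (((PB y ×ˢ PB y).filter (fun pq => R pq.1 pq.2)).card : ℝ) := by
    have h1 : c4 * π ^ 2 ≤ (GP.card : ℝ) / Zc.card := by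
      rw [le_div_iff₀ hZ0, hc4]
      calc c / 32 / Zc.card * π ^ 2 * Zc.card = c / 32 * π ^ 2 := by field_simp
        _ ≤ _ := hGPcard
    refine h1.trans (hpop.trans ?_)
    exact_mod_cast Finset.card_le_card (fun pq hpq => by
      obtain ⟨h2, h3⟩ := mem_filter.1 hpq
      have h4 := hcol1 pq h2
      have h5 := hcol2 pq h2
      have h6 := hcol3 pq h2
      rw [h3] at h4 h5 h6
      have h7 := mem_filter.1 h2
      rw [mem_filter]
      exact ⟨h7.1, h7.2.1.2.1, h5, (mem_product.1 h4).1, h6⟩)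
  have hbig : 4 / c4 ^ 2 ≤ ((PB y).card : ℝ) := by
    have h1 : 4 / (b0 * c4 ^ 2) ≤ (k : ℝ) :=
      (Nat.le_ceil _).trans (by exact_mod_cast (le_max_right _ _).trans hkk0)
    have h2 : (k : ℝ) ^ 2 ≤ 2 ^ k := by
      exact_mod_cast sq_le_two_pow k hk4
    have h3 : b0 * (k : ℝ) ^ 2 ≤ k * ((PB y).card : ℝ) := le_trans (by gcongr) hlow
    have h4 : b0 * (k : ℝ) ≤ ((PB y).card : ℝ) := by
      have : k * (b0 * (k : ℝ)) ≤ k * ((PB y).card : ℝ) := by nlinarith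
      exact le_of_mul_le_mul_left this hkR
    refine le_trans ?_ h4
    rw [div_le_iff₀ (by positivity)] at h1 ⊢
    linarith
  obtain ⟨p0, hp0, p1, hp1, hne, hW⟩ := graph2 (PB y) R c4 hc40 hc41 hbig (by convert hcard)
  set W : Finset ℕ := (PB y).filter (fun q => q ≠ p0 ∧ q ≠ p1 ∧ R p0 q ∧ R p1 q) with hWdef
  have hπpos : 0 < π := lt_of_lt_of_le (by positivity) hbig
  have hW' : c4 ^ 2 / 8 * π ≤ (W.card : ℝ) := by convert hW
  have hWne : W.Nonempty := by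
    rw [← Finset.card_pos]
    have h1 : 0 < c4 ^ 2 / 8 * π := by positivity
    exact_mod_cast h1.trans_le hW'
  have hpY : ∀ p ∈ PB y, (p : ℝ) ≤ Y := by
    intro p hp
    rw [hY]
    have h2 := (PB_mem hp).2.1
    have h3 : 2 * y ≤ 2 * 2 ^ k1 := by omega
    exact_mod_cast h2.trans h3
  have he8 : 4 * Y ^ 2 * (K / L) < 1 := by
    have h1 : (K : ℝ) / L ≤ 1 / (8 * Y ^ 2) := hKL.trans (min_le_right _ _)
    have h2 : 4 * Y ^ 2 * ((K : ℝ) / L) ≤ 4 * Y ^ 2 * (1 / (8 * Y ^ 2)) := by gcongr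
    have h3 : 4 * Y ^ 2 * (1 / (8 * Y ^ 2)) = 1 / 2 := by
      field_simp
      norm_num
    linarith
  obtain ⟨β, hβ⟩ := root2 W (K / L) Y (fun q => dt ζ (α q)) (dt ζ' (α p0)) (dt ζ' (α p1)) p0 p1
    (PB_mem hp0).2.2 (PB_mem hp1).2.2 hne hWne
    (fun p hp => by
      obtain ⟨h1, h2, -⟩ := Finset.mem_filter.1 hp
      exact ⟨(PB_mem h1).2.2, h2, hpY p h1⟩) (hpY p0 hp0) (hpY p1 hp1) he8
    (fun q hq => (Finset.mem_filter.1 hq).2.2.2.1.2.2.2)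
    (fun q hq => (Finset.mem_filter.1 hq).2.2.2.2.2.2.2)
  have hfin := hfew y hy2y β W (Finset.filter_subset _ _) fun q hq => by
    obtain ⟨i, hi⟩ := hβ q hq
    have hRq : R p0 q := (Finset.mem_filter.1 hq).2.2.2.1
    refine ⟨dt ζ (α q), ?_, 1, le_rfl, le_rfl, -i, ?_⟩
    · unfold Est
      rw [Set.mem_iUnion₂]
      refine ⟨ζ, mem_filter.2 ⟨hRq.2.2.1, hRq.2.1⟩, md (α q), (hdat q hRq.1).1.2, ?_⟩
      exact (coe_dt ζ (α q)).symm
    · have h1 : ((1 : ℕ) : ℝ) * (dt ζ (α q) - (q : ℝ) ^ 1 * β) - ((-i : ℤ) : ℝ) =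
          -((q : ℝ) * β - dt ζ (α q) - i) := by
        push_cast
        ring
      rw [h1, abs_neg]
      exact hi.trans (hKL.trans (min_le_left _ _))
  rw [hlogy] at hfin
  have h1 : c4 ^ 2 / 8 * (b0 * Real.log 2) * y ≤ (W.card : ℝ) * (k * Real.log 2) := by
    calc c4 ^ 2 / 8 * (b0 * Real.log 2) * y = c4 ^ 2 / 8 * Real.log 2 * (b0 * y) := by ring
      _ ≤ c4 ^ 2 / 8 * Real.log 2 * (k * π) := by gcongr
      _ = (c4 ^ 2 / 8 * π) * (k * Real.log 2) := by ring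
      _ ≤ (W.card : ℝ) * (k * Real.log 2) := by gcongr
  linarith

end Pool.Agent.U307.NP
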