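import Pool.Agent.U307.NP.B4
import Pool.Agent.Helper44K9.FN.Red
import Pool.Agent.Helper44K9.FN.Aff
import Pool.Agent.Helper44K9.FN.Tru
import Pool.Agent.Helper44K9.FN.Vdc
import Pool.Agent.Helper44K9.FN.Vert
import Pool.Agent.Helper44K9.FN.Mean

/-!
# Project NP (helper307): two-step nilmanifolds, natural averages: the theorem, also for the Möbius function
-/

set_option autoImplicit false

namespace Pool.Agent.U307.NP

open Finset MeasureTheory Polynomial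
open Pool.Agent.H807R2.Dav (ee norm_ee)
open Pool.Agent.Helper44K9.FU (Mul1 wr pw trig2 chb kap)
open Pool.Agent.Helper44K9.FB (lf)
open Pool.Agent.Helper44K9.FN

/-- all multiplicative functions -/
theorem two_nat {d c : ℕ} (β : Fin c → Matrix (Fin d) (Fin d) ℤ)
    (hβ : ∀ k : Fin c → ℤ, k ≠ 0 → (vb β k).transpose ≠ vb β k)
    (F : (Fin d → ℝ) × (Fin c → ℝ) → ℂ) (hF : Continuous F)
    (hinv : ∀ (g : (Fin d → ℝ) × (Fin c → ℝ)) (m : Fin d → ℤ) (j : Fin c → ℤ), F (mulG β g (cst m, cst j)) = F g)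
    {E : Set (Fin d → UnitAddCircle)} (hEc : IsCompact E) (hEi : Irr E)
    (hEv : ∀ k : Fin d → ℤ, k ≠ 0 → volume (lf k '' E) = 0) (ε : ℝ) (hε : 0 < ε) :
    ∃ H₀ : ℕ, ∀ f : ℕ → ℂ, Mul1 f → ∀ N H : ℕ, H₀ ≤ H → H ≤ N →
      ∑ n ∈ Icc 1 N, nSup β (fun z => F z - meanF F) E f n H ≤ ε * H * N :=
  asmN (fun d b φ hφ hb E hE hI hv => coreT_two pw trig2 chb kap red (vdc tru) Pool.Agent.Helper44K9.FN.aff
    d b φ hφ hb E hE hI hv) red orb vert mean β hβ F hF hinv hEc hEi hEv ε hε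

/-- functions on the nilmanifold are bounded -/
theorem bdd_F {d c : ℕ} (β : Fin c → Matrix (Fin d) (Fin d) ℤ)
    (F : (Fin d → ℝ) × (Fin c → ℝ) → ℂ) (hF : Continuous F)
    (hinv : ∀ (g : (Fin d → ℝ) × (Fin c → ℝ)) (m : Fin d → ℤ) (j : Fin c → ℤ), F (mulG β g (cst m, cst j)) = F g) :
    ∃ B : ℝ, ∀ z, ‖F z‖ ≤ B := by
  obtain ⟨S, φ, M, hM, hφ, hS⟩ := vert d c β F hF hinv 1 one_pos
  refine ⟨1 + S.card * M, fun z => ?_⟩
  have h1 := hS z.1 z.2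
  have h2 : ‖∑ k ∈ S, ee (dt k z.2) * φ k z.1‖ ≤ S.card * M := by
    refine (norm_sum_le _ _).trans ?_
    rw [← nsmul_eq_mul, ← sum_const]
    refine sum_le_sum fun k _ => ?_
    rw [norm_mul, norm_ee, one_mul]
    exact (hφ k).2.1 _
  have h3 : F z = (F (z.1, z.2) - ∑ k ∈ S, ee (dt k z.2) * φ k z.1) + ∑ k ∈ S, ee (dt k z.2) * φ k z.1 := by
    rw [sub_add_cancel]
  rw [h3]
  exact (norm_add_le _ _).trans (add_le_add h1 h2)

/-- one function: from mean zero to all -/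
theorem sup_le_mean {d c : ℕ} (β : Fin c → Matrix (Fin d) (Fin d) ℤ)
    (F : (Fin d → ℝ) × (Fin c → ℝ) → ℂ) (hF : Continuous F)
    (hinv : ∀ (g : (Fin d → ℝ) × (Fin c → ℝ)) (m : Fin d → ℤ) (j : Fin c → ℤ), F (mulG β g (cst m, cst j)) = F g)
    (E : Set (Fin d → UnitAddCircle)) (f : ℕ → ℂ) (hf : ∀ n, ‖f n‖ ≤ 1) (n H : ℕ) :
    nSup β F E f n H ≤ nSup β (fun z => F z - meanF F) E f n H + ‖meanF F‖ * ‖∑ h ∈ Icc 1 H, f (n + h)‖ := by
  obtain ⟨B, hB⟩ := bdd_F β F hF hinv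
  have hbdd : BddAbove (Set.range fun p : {g : (Fin d → ℝ) × (Fin c → ℝ) // md g.1 ∈ E} ×
      ((Fin d → ℝ) × (Fin c → ℝ)) =>
      ‖∑ h ∈ Icc 1 H, f (n + h) * (F ((mulG β p.1.1)^[n + h] p.2) - meanF F)‖) := by
    refine ⟨∑ h ∈ Icc 1 H, (B + ‖meanF F‖), ?_⟩
    rintro _ ⟨p, rfl⟩
    refine (norm_sum_le _ _).trans (sum_le_sum fun h _ => ?_)
    rw [norm_mul]
    calc _ ≤ 1 * ‖F ((mulG β p.1.1)^[n + h] p.2) - meanF F‖ := mul_le_mul_of_nonneg_right (hf _) (norm_nonneg _)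
      _ ≤ _ := by
          rw [one_mul]
          exact (norm_sub_le _ _).trans (add_le_add (hB _) le_rfl)
  have hnn : 0 ≤ nSup β (fun z => F z - meanF F) E f n H + ‖meanF F‖ * ‖∑ h ∈ Icc 1 H, f (n + h)‖ :=
    add_nonneg (Real.iSup_nonneg fun _ => norm_nonneg _) (by positivity)
  refine Real.iSup_le (fun p => ?_) hnn
  have e3 : ∑ h ∈ Icc 1 H, f (n + h) * F ((mulG β p.1.1)^[n + h] p.2) =
      ∑ h ∈ Icc 1 H, f (n + h) * (F ((mulG β p.1.1)^[n + h] p.2) - meanF F) + meanF F * ∑ h ∈ Icc 1 H, f (n + h) := by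
    rw [mul_sum, ← sum_add_distrib]
    refine sum_congr rfl fun h _ => ?_
    ring
  rw [e3]
  refine (norm_add_le _ _).trans (add_le_add ?_ ?_)
  · exact le_ciSup hbdd p
  · rw [norm_mul]

end Pool.Agent.U307.NP
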