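import Pool.Agent.U307.NP.L2

/-!
# Project NP (helper307): few primes `p` of a dyadic block have `p ^ d β` near a null set of irrational numbers
-/

set_option autoImplicit false

namespace Pool.Agent.U307.NP

open Finset MeasureTheory
open Pool.Agent.U237.NF.Lite (PB)
open Pool.Agent.Helper44K9.FU (S_PW S_TRIG2 S_CHB S_KAP)

theorem few (hPW : S_PW) (hTR : S_TRIG2) (hCHB : S_CHB) (hKAP : S_KAP) (d : ℕ) (hd : 1 ≤ d)
    (E : Set UnitAddCircle) (hE : IsCompact E) (hE0 : volume E = 0) (htf : ∀ x ∈ E, addOrderOf x = 0)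
    (K : ℕ) (hK : 1 ≤ K) (c : ℝ) (hc : 0 < c) :
    ∃ τ : ℝ, 0 < τ ∧ ∃ y0 : ℕ, ∀ y : ℕ, y0 ≤ y → ∀ β : ℝ, ∀ W : Finset ℕ, W ⊆ PB y →
      (∀ p ∈ W, Near E K τ ((p : ℝ) ^ d * β)) → (W.card : ℝ) * Real.log y < c * y := by
  obtain ⟨Q, hQ1, τ1, hτ1, y1, h1⟩ := major hPW hTR hCHB d hd E hE hE0 K hK c hc
  have hQ0 : (0 : ℝ) < Q := by exact_mod_cast hQ1
  have hK0 : (0 : ℝ) < K := by exact_mod_cast hK
  obtain ⟨κ, hκ0, hκ⟩ := hKAP E hE htf (K * Q)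
  set l : ℝ := κ / (4 * (K * Q) * 2 ^ d) with hl
  have hl0 : 0 < l := by positivity
  obtain ⟨τ2, hτ2, y2, h2⟩ := centre d hd E hE hE0 (K * Q) Q (Nat.mul_pos (by omega) (by omega)) c hc l hl0
  set τ : ℝ := min τ1 (min (τ2 / Q) (κ / (4 * Q))) with hτ
  have hτ0 : 0 < τ := lt_min hτ1 (lt_min (by positivity) (by positivity))
  have hτle1 : τ ≤ τ1 := min_le_left _ _
  have hτle2 : τ ≤ τ2 / Q := (min_le_right _ _).trans (min_le_left _ _)
  have hτle3 : τ ≤ κ / (4 * Q) := (min_le_right _ _).trans (min_le_right _ _)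
  refine ⟨τ, hτ0, max (max y1 y2) 2, ?_⟩
  intro y hy β W hWP hnear
  by_contra hcon
  push Not at hcon
  have hy1 : y1 ≤ y := le_trans (le_trans (le_max_left _ _) (le_max_left _ _)) hy
  have hy2 : y2 ≤ y := le_trans (le_trans (le_max_right _ _) (le_max_left _ _)) hy
  have hy22 : 2 ≤ y := le_trans (le_max_right _ _) hy
  have hyR : (0 : ℝ) < y := by exact_mod_cast (by omega : 0 < y)
  obtain ⟨q, hq1, hqQ, a, ha⟩ := h1 y hy1 β W hWP hcon fun p hp => by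
    obtain ⟨x, hx, m, hm1, hmK, b, hb⟩ := hnear p hp
    exact ⟨x, hx, m, hm1, hmK, b, hb.trans hτle1⟩
  have hq0 : (0 : ℝ) < q := by exact_mod_cast hq1
  have hq1' : (1 : ℝ) ≤ q := by exact_mod_cast hq1
  have hqQ' : (q : ℝ) ≤ Q := by exact_mod_cast hqQ
  set θ : ℝ := β - a / q with hθ
  have hyd : (0 : ℝ) < (y : ℝ) ^ d := by positivity
  have hθQ : |θ| * (y : ℝ) ^ d ≤ Q := by
    have e1 : (q : ℝ) * β - a = q * θ := by rw [hθ]; field_simp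
    rw [e1, abs_mul, abs_of_pos hq0, le_div_iff₀ hyd] at ha
    have e2 : |θ| * (y : ℝ) ^ d ≤ q * (|θ| * (y : ℝ) ^ d) :=
      le_mul_of_one_le_left (by positivity) hq1'
    linarith
  -- relations for `θ`
  have hrel : ∀ p ∈ W, ∃ x : ℝ, (x : UnitAddCircle) ∈ E ∧ ∃ m : ℕ, 1 ≤ m ∧ m ≤ K ∧ ∃ b : ℤ,
      |((m * q : ℕ) : ℝ) * (x - (p : ℝ) ^ d * θ) - b| ≤ q * τ := by
    intro p hp
    obtain ⟨x, hx, m, hm1, hmK, b, hb⟩ := hnear p hp
    refine ⟨x, hx, m, hm1, hmK, q * b + m * (p : ℤ) ^ d * a, ?_⟩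
    have e1 : ((m * q : ℕ) : ℝ) * (x - (p : ℝ) ^ d * θ) - ((q * b + m * (p : ℤ) ^ d * a : ℤ) : ℝ) =
        q * (m * (x - (p : ℝ) ^ d * β) - b) := by
      rw [hθ]
      push_cast
      field_simp
      ring
    rw [e1, abs_mul, abs_of_pos hq0]
    exact mul_le_mul_of_nonneg_left hb hq0.le
  have hθl : |θ| * (y : ℝ) ^ d ≤ l := by
    refine h2 y hy2 θ hθQ W hWP hcon fun p hp => ?_
    obtain ⟨x, hx, m, hm1, hmK, b, hb⟩ := hrel p hp
    refine ⟨x, hx, m * q, Nat.mul_pos (by omega) (by omega), Nat.mul_le_mul hmK hqQ, b, hb.trans ?_⟩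
    rw [le_div_iff₀ hQ0] at hτle2
    calc (q : ℝ) * τ ≤ Q * τ := by gcongr
      _ ≤ τ2 := by linarith
  -- a point of `W`
  have hWne : W.Nonempty := by
    rw [Finset.nonempty_iff_ne_empty]
    intro h
    rw [h, Finset.card_empty, Nat.cast_zero, zero_mul] at hcon
    have : 0 < c * (y : ℝ) := by positivity
    linarith
  obtain ⟨p, hp⟩ := hWne
  obtain ⟨x, hx, m, hm1, hmK, b, hb⟩ := hrel p hp
  obtain ⟨hp1, hp2, -⟩ := PB_mem (hWP hp)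
  have hk := hκ x hx (m * q) (Nat.mul_pos (by omega) (by omega)) (Nat.mul_le_mul hmK hqQ) b
  have hpd : (p : ℝ) ^ d * |θ| ≤ 2 ^ d * l := by
    have h3 : (p : ℝ) ^ d ≤ (2 * y) ^ d := pow_le_pow_left₀ (Nat.cast_nonneg p) (by exact_mod_cast hp2) d
    calc (p : ℝ) ^ d * |θ| ≤ (2 * y) ^ d * |θ| := by gcongr
      _ = 2 ^ d * (|θ| * (y : ℝ) ^ d) := by rw [mul_pow]; ring
      _ ≤ 2 ^ d * l := by gcongr
  have hmq : ((m * q : ℕ) : ℝ) ≤ K * Q := by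
    exact_mod_cast Nat.mul_le_mul hmK hqQ
  have e1 : ((m * q : ℕ) : ℝ) * x - b = (((m * q : ℕ) : ℝ) * (x - (p : ℝ) ^ d * θ) - b) +
      ((m * q : ℕ) : ℝ) * ((p : ℝ) ^ d * θ) := by ring
  have h4 : |((m * q : ℕ) : ℝ) * x - b| ≤ q * τ + K * Q * (2 ^ d * l) := by
    rw [e1]
    refine (abs_add_le _ _).trans (add_le_add hb ?_)
    rw [abs_mul, abs_mul, abs_of_nonneg (Nat.cast_nonneg (m * q)),
      abs_of_nonneg (by positivity : (0 : ℝ) ≤ (p : ℝ) ^ d)]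
    gcongr
  have h5 : (q : ℝ) * τ ≤ κ / 4 := by
    rw [le_div_iff₀ (by positivity)] at hτle3
    have : (q : ℝ) * τ ≤ Q * τ := by gcongr
    linarith
  have h6 : (K : ℝ) * Q * (2 ^ d * l) = κ / 4 := by
    rw [hl]
    field_simp
  linarith

end Pool.Agent.U307.NP
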