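import Pool.Agent.U307.NP.Z

/-!
# Project NP (helper307): correlations give many relations at one point
-/

set_option autoImplicit false

namespace Pool.Agent.U307.NP

open Finset Polynomial
open Pool.Agent.H807R2.Dav (ee)
open Pool.Agent.W24.Katai (Mul1 cor)
open Pool.Agent.U237.NF.Lite (PB kx)
open Pool.Agent.Helper44K9.FU (S_WR)

lemma PB_mem {y p : ℕ} (h : p ∈ PB y) : y < p ∧ p ≤ 2 * y ∧ p.Prime := by
  unfold PB at h
  rw [Finset.mem_filter, Finset.mem_Ioc] at h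
  exact ⟨h.1.1, h.1.2, h.2⟩

open Classical in
/-- many numbers `z` at which the pair `(p, q)` is related -/
lemma count_z {d K : ℕ} {u : ℝ}
    (hK : ∀ (P : ℝ[X]) (n H : ℕ), P.natDegree ≤ d →
      1 ≤ H → (H : ℝ) ≤ u * ‖∑ m ∈ Ioc n (n + H), ee (P.eval (m : ℝ))‖ →
      ∃ m : ℕ, 1 ≤ m ∧ m ≤ K ∧ ∃ a : ℤ, |m * P.coeff d - a| ≤ K / (H : ℝ) ^ d)
    (hu : 0 < u) (H s : ℕ) (om : ℕ → ℂ) (P : ℕ → ℝ[X]) (hom : ∀ k, ‖om k‖ ≤ 1)
    (hP : ∀ k, om k ≠ 0 → (P k).natDegree ≤ d) (y L M : ℕ) (hL : 1 ≤ L) (e : ℝ) (he : K / (L : ℝ) ^ d ≤ e)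
    {p q : ℕ} (hp : p ∈ PB y) (hq : q ∈ PB y) :
    ((((range (M / L)).filter (fun j => Good H s p q L j ∧ 1 / u * L ≤ ‖SB H s om P p q L j‖)).card : ℝ)) *
      ((y : ℝ) ^ 2 * L) ≤
      (((range (4 * y ^ 2 * (M + 1))).filter (fun z => RelP d K H s om P e z p q)).card : ℝ) := by
  obtain ⟨hp1, hp2, hpp⟩ := PB_mem hp
  obtain ⟨hq1, hq2, hqq⟩ := PB_mem hq
  set J := M / L with hJ
  have hJL : J * L ≤ M := Nat.div_mul_le_self M L
  have hpq : p * q ≤ 4 * y ^ 2 := by nlinarith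
  have hsub : Ioc 0 (J * (p * q * L)) ⊆ range (4 * y ^ 2 * (M + 1)) := by
    intro z hz
    rw [Finset.mem_Ioc] at hz
    rw [Finset.mem_range]
    have h1 : J * (p * q * L) ≤ 4 * y ^ 2 * M := by
      calc J * (p * q * L) = (p * q) * (J * L) := by ring
        _ ≤ 4 * y ^ 2 * M := Nat.mul_le_mul hpq hJL
    have hy : 0 < y := by
      by_contra h
      have : y = 0 := by omega
      subst this
      omega
    have h2 : 0 < 4 * y ^ 2 := by positivity
    nlinarith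
  have h1 : ((((Ioc 0 (J * (p * q * L))).filter (fun z => RelP d K H s om P e z p q)).card : ℕ) : ℝ) ≤
      (((range (4 * y ^ 2 * (M + 1))).filter (fun z => RelP d K H s om P e z p q)).card : ℝ) := by
    exact_mod_cast Finset.card_le_card (Finset.filter_subset_filter _ hsub)
  refine le_trans ?_ h1
  have h2 : ((((Ioc 0 (J * (p * q * L))).filter (fun z => RelP d K H s om P e z p q)).card : ℕ) : ℝ) =
      ∑ j ∈ range J, ∑ z ∈ Ioc (j * (p * q * L)) (j * (p * q * L) + p * q * L),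
        (if RelP d K H s om P e z p q then (1 : ℝ) else 0) := by
    rw [← sum_blocks0, Finset.card_filter]
    push_cast
    rfl
  rw [h2, Finset.card_filter]
  push_cast
  rw [Finset.sum_mul]
  refine Finset.sum_le_sum fun j hj => ?_
  by_cases hg : Good H s p q L j ∧ 1 / u * L ≤ ‖SB H s om P p q L j‖
  · rw [if_pos hg, one_mul]
    obtain ⟨hgood, hlarge⟩ := hg
    have hlarge' : (L : ℝ) ≤ u * ‖SB H s om P p q L j‖ := by
      have := mul_le_mul_of_nonneg_left hlarge hu.le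
      rw [← mul_assoc, mul_one_div_cancel hu.ne', one_mul] at this
      exact this
    obtain ⟨o1, o2, m, hm1, hm2, a, ha⟩ := block_rel hK hu H s om P hom hP p q L j hL hgood hlarge'
    have hall : ∀ z ∈ Ioc (j * (p * q * L)) (j * (p * q * L) + p * q * L), RelP d K H s om P e z p q := by
      intro z hz
      rw [Finset.mem_Ioc] at hz
      have hp0 : 0 < p := hpp.pos
      have hq0 : 0 < q := hqq.pos
      have e1 : q * (j * L) ≤ z / p := by
        rw [Nat.le_div_iff_mul_le hp0]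
        have : q * (j * L) * p = j * (p * q * L) := by ring
        omega
      have e2 : z / p ≤ q * (j * L + L) := by
        refine Nat.div_le_of_le_mul ?_
        have : p * (q * (j * L + L)) = j * (p * q * L) + p * q * L := by ring
        omega
      have e3 : p * (j * L) ≤ z / q := by
        rw [Nat.le_div_iff_mul_le hq0]
        have : p * (j * L) * q = j * (p * q * L) := by ring
        omega
      have e4 : z / q ≤ p * (j * L + L) := by
        refine Nat.div_le_of_le_mul ?_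
        have : q * (p * (j * L + L)) = j * (p * q * L) + p * q * L := by ring
        omega
      have k1 : kx H s (z / p) = kx H s (q * (j * L)) := kx_block hgood.2 e1 e2
      have k2 : kx H s (z / q) = kx H s (p * (j * L)) := kx_block hgood.1 e3 e4
      unfold RelP
      rw [k1, k2]
      exact ⟨o2, o1, m, hm1, hm2, a, ha.trans he⟩
    rw [Finset.sum_congr rfl (fun z hz => if_pos (hall z hz)), Finset.sum_const, Nat.card_Ioc, nsmul_eq_mul, mul_one]
    have h3 : j * (p * q * L) + p * q * L - j * (p * q * L) = p * q * L := by omega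
    rw [h3]
    have h4 : y ^ 2 * L ≤ p * q * L := by
      refine Nat.mul_le_mul ?_ le_rfl
      nlinarith
    exact_mod_cast h4
  · rw [if_neg hg, zero_mul]
    refine Finset.sum_nonneg fun z _ => ?_
    split_ifs <;> norm_num

open Classical in
/-- **From correlations to relations.** -/
theorem corr_rel (hWR : S_WR) (d : ℕ) (hd : 1 ≤ d) (c : ℝ) (hc : 0 < c) (hc1 : c ≤ 1) :
    ∃ K C : ℕ, 1 ≤ K ∧ 1 ≤ C ∧ ∀ y H : ℕ, 1 ≤ y → C * y ≤ H → ∃ M0 : ℕ, ∀ M : ℕ, M0 ≤ M → ∀ s : ℕ, s < H →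
      ∀ (om : ℕ → ℂ) (P : ℕ → ℝ[X]), (∀ k, ‖om k‖ ≤ 1) → (∀ k, om k ≠ 0 → (P k).natDegree ≤ d) →
      ∀ m : ℕ → ℕ → ℕ, (∀ p ∈ PB y, ∀ q ∈ PB y, m p q ≤ M) →
      c * ((PB y).card : ℝ) ^ 2 * M ≤ ∑ p ∈ PB y, ∑ q ∈ PB y, ‖cor (Fp H s om P) p q (m p q)‖ →
      ∃ z : ℕ, c / 16 * ((PB y).card : ℝ) ^ 2 ≤
        (((PB y ×ˢ PB y).filter (fun pq => RelP d K H s om P (K * (C * y / H) ^ d) z pq.1 pq.2)).card : ℝ) := by
  have hu : (1 : ℝ) ≤ 4 / c := by
    rw [le_div_iff₀ hc]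
    linarith
  have hu0 : (0 : ℝ) < 4 / c := by linarith
  obtain ⟨K, hK1, hK⟩ := hWR d hd (4 / c) hu
  set C0 : ℕ := ⌈32 / c⌉₊ with hC0
  have hC0c : 32 / c ≤ (C0 : ℝ) := Nat.le_ceil _
  have hC01 : 1 ≤ C0 := by
    rw [hC0]
    exact Nat.one_le_ceil_iff.2 (by positivity)
  refine ⟨K, 2 * C0, hK1, by omega, ?_⟩
  intro y H hy hH
  have hy0 : (0 : ℝ) < y := by exact_mod_cast hy
  set L : ℕ := H / (C0 * y) with hLdef
  have hCy : 0 < C0 * y := Nat.mul_pos (by omega) (by omega)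
  have hHC : C0 * y ≤ H := le_trans (by nlinarith) hH
  have hL1 : 1 ≤ L := by
    rw [hLdef, Nat.le_div_iff_mul_le hCy]
    omega
  have hL0 : (0 : ℝ) < L := by exact_mod_cast hL1
  have hHpos : 0 < H := by omega
  have hH0 : (0 : ℝ) < H := by exact_mod_cast hHpos
  have hLH : (L : ℝ) * (C0 * y) ≤ H := by
    have : L * (C0 * y) ≤ H := Nat.div_mul_le_self H (C0 * y)
    exact_mod_cast this
  have hLH2 : (H : ℝ) ≤ 2 * L * (C0 * y) := by
    have h1 : H < (L + 1) * (C0 * y) := by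
      have := Nat.div_add_mod H (C0 * y)
      have h2 := Nat.mod_lt H hCy
      rw [← hLdef] at this
      nlinarith
    have h2 : (L + 1) * (C0 * y) ≤ 2 * L * (C0 * y) := Nat.mul_le_mul (by omega) le_rfl
    have h3 : H ≤ 2 * L * (C0 * y) := h1.le.trans h2
    exact_mod_cast h3
  refine ⟨⌈24 * L / c⌉₊, ?_⟩
  intro M hM s hs om P hom hP m hm hcor
  have hML : 24 * L / c ≤ (M : ℝ) := (Nat.le_ceil _).trans (by exact_mod_cast hM)
  have hML' : 24 * (L : ℝ) ≤ c * M := by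
    rw [div_le_iff₀ hc] at hML
    linarith
  have hM1 : (1 : ℝ) ≤ M := by
    have : (1 : ℝ) ≤ L := by exact_mod_cast hL1
    nlinarith
  have hM1' : 1 ≤ M := by exact_mod_cast hM1
  set e : ℝ := K * (((2 * C0 : ℕ) : ℝ) * y / H) ^ d with hedef
  have he : (K : ℝ) / (L : ℝ) ^ d ≤ e := by
    rw [hedef, div_eq_mul_inv, ← inv_pow]
    have h1 : (L : ℝ)⁻¹ ≤ ((2 * C0 : ℕ) : ℝ) * y / H := by
      rw [inv_eq_one_div, div_le_div_iff₀ hL0 hH0]
      push_cast
      linarith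
    gcongr
  set π : ℝ := ((PB y).card : ℝ) with hπ
  have hπ0 : 0 ≤ π := by positivity
  -- the sum of the numbers of good blocks
  set GB : ℕ → ℕ → ℝ := fun p q =>
    (((range (M / L)).filter (fun j => Good H s p q L j ∧ 1 / (4 / c) * L ≤ ‖SB H s om P p q L j‖)).card : ℝ)
    with hGL
  have hsum : c / 2 * π ^ 2 * M ≤ L * ∑ p ∈ PB y, ∑ q ∈ PB y, GB p q := by
    have h1 : ∀ p ∈ PB y, ∀ q ∈ PB y, ‖cor (Fp H s om P) p q (m p q)‖ ≤ c / 2 * M + L * GB p q := by
      intro p hp q hq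
      have h2 := cor_le H s om P hom p q L M (m p q) hL1 hs (hm p hp q hq) (1 / (4 / c)) (by positivity)
      have h3 : ∀ t ∈ PB y, (L : ℝ) * (((t * M : ℕ) : ℝ) / H) ≤ c / 16 * M := by
        intro t ht
        have ht2 : (t : ℝ) ≤ 2 * y := by exact_mod_cast (PB_mem ht).2.1
        push_cast
        have h4 : (L : ℝ) * y ≤ c / 32 * H := by
          have h5 : 32 ≤ c * C0 := by
            rw [div_le_iff₀ hc] at hC0c
            linarith
          have h6 : (L : ℝ) * y * 32 ≤ (L : ℝ) * y * (c * C0) :=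
            mul_le_mul_of_nonneg_left h5 (by positivity)
          have h7 : (L : ℝ) * y * (c * C0) = c * (L * (C0 * y)) := by ring
          have h8 : c * (L * (C0 * y)) ≤ c * H := mul_le_mul_of_nonneg_left hLH hc.le
          linarith
        rw [← mul_div_assoc, div_le_iff₀ hH0]
        calc (L : ℝ) * (t * M) ≤ L * (2 * y * M) := by gcongr
          _ = 2 * (L * y) * M := by ring
          _ ≤ 2 * (c / 32 * H) * M := by gcongr
          _ = c / 16 * M * H := by ring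
      have h4 := h3 p hp
      have h5 := h3 q hq
      have h6 : 1 / (4 / c) = c / 4 := by field_simp
      have h7 : (L : ℝ) * (((p * M : ℕ) : ℝ) / H + ((q * M : ℕ) : ℝ) / H + 3) =
          L * (((p * M : ℕ) : ℝ) / H) + L * (((q * M : ℕ) : ℝ) / H) + 3 * L := by ring
      rw [h7] at h2
      have h8 : 1 / (4 / c) * (M : ℝ) = c / 4 * M := by rw [h6]
      rw [h8] at h2
      simp only [hGL]
      linarith
    have h2 : ∑ p ∈ PB y, ∑ q ∈ PB y, ‖cor (Fp H s om P) p q (m p q)‖ ≤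
        ∑ p ∈ PB y, ∑ q ∈ PB y, (c / 2 * M + L * GB p q) :=
      Finset.sum_le_sum fun p hp => Finset.sum_le_sum fun q hq => h1 p hp q hq
    have h3 : ∑ p ∈ PB y, ∑ q ∈ PB y, (c / 2 * M + L * GB p q) =
        π ^ 2 * (c / 2 * M) + L * ∑ p ∈ PB y, ∑ q ∈ PB y, GB p q := by
      simp only [Finset.sum_add_distrib, Finset.sum_const, nsmul_eq_mul, ← Finset.mul_sum]
      rw [hπ]
      ring
    rw [h3] at h2
    linarith [hcor.trans h2]
  by_contra hcon
  push Not at hcon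
  have hZne : (range (4 * y ^ 2 * (M + 1))).Nonempty := by
    rw [Finset.nonempty_range_iff]
    positivity
  have h1 : ∑ z ∈ range (4 * y ^ 2 * (M + 1)),
      (((PB y ×ˢ PB y).filter (fun pq => RelP d K H s om P e z pq.1 pq.2)).card : ℝ) <
      ∑ _z ∈ range (4 * y ^ 2 * (M + 1)), c / 16 * π ^ 2 :=
    Finset.sum_lt_sum_of_nonempty hZne fun z _ => hcon z
  have h2 : ∑ z ∈ range (4 * y ^ 2 * (M + 1)),
      (((PB y ×ˢ PB y).filter (fun pq => RelP d K H s om P e z pq.1 pq.2)).card : ℝ) =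
      ∑ p ∈ PB y, ∑ q ∈ PB y,
        (((range (4 * y ^ 2 * (M + 1))).filter (fun z => RelP d K H s om P e z p q)).card : ℝ) := by
    have a1 : ∀ z : ℕ, (((PB y ×ˢ PB y).filter (fun pq => RelP d K H s om P e z pq.1 pq.2)).card : ℝ) =
        ∑ p ∈ PB y, ∑ q ∈ PB y, (if RelP d K H s om P e z p q then (1 : ℝ) else 0) := by
      intro z
      rw [Finset.card_filter, Nat.cast_sum, Finset.sum_product]
      refine Finset.sum_congr rfl fun x _ => Finset.sum_congr rfl fun q _ => ?_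
      split_ifs <;> simp
    rw [Finset.sum_congr rfl (fun z _ => a1 z), Finset.sum_comm]
    refine Finset.sum_congr rfl fun p _ => ?_
    rw [Finset.sum_comm]
    refine Finset.sum_congr rfl fun q _ => ?_
    rw [Finset.card_filter]
    push_cast
    rfl
  have h3 : ∑ p ∈ PB y, ∑ q ∈ PB y, GB p q * ((y : ℝ) ^ 2 * L) ≤ ∑ p ∈ PB y, ∑ q ∈ PB y,
        (((range (4 * y ^ 2 * (M + 1))).filter (fun z => RelP d K H s om P e z p q)).card : ℝ) :=
    Finset.sum_le_sum fun p hp => Finset.sum_le_sum fun q hq =>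
      count_z hK hu0 H s om P hom hP y L M hL1 e he hp hq
  have h4 : ∑ p ∈ PB y, ∑ q ∈ PB y, GB p q * ((y : ℝ) ^ 2 * L) =
      (y : ℝ) ^ 2 * (L * ∑ p ∈ PB y, ∑ q ∈ PB y, GB p q) := by
    simp only [← Finset.sum_mul]
    ring
  have h5 : (y : ℝ) ^ 2 * (c / 2 * π ^ 2 * M) ≤ (y : ℝ) ^ 2 * (L * ∑ p ∈ PB y, ∑ q ∈ PB y, GB p q) :=
    mul_le_mul_of_nonneg_left hsum (by positivity)
  rw [Finset.sum_const, card_range, nsmul_eq_mul] at h1
  have h6 : ((4 * y ^ 2 * (M + 1) : ℕ) : ℝ) * (c / 16 * π ^ 2) ≤ (y : ℝ) ^ 2 * (c / 2 * π ^ 2 * M) := by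
    push_cast
    have : (M : ℝ) + 1 ≤ 2 * M := by linarith
    calc 4 * (y : ℝ) ^ 2 * (M + 1) * (c / 16 * π ^ 2) ≤ 4 * (y : ℝ) ^ 2 * (2 * M) * (c / 16 * π ^ 2) := by gcongr
      _ = (y : ℝ) ^ 2 * (c / 2 * π ^ 2 * M) := by ring
  linarith

end Pool.Agent.U307.NP
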