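import Pool.Agent.Helper44K9.FU.Trig2
import Pool.Agent.U307.NP.Z2

/-!
# Project NP (helper307): `d`-th powers of primes whose dilates are near a null set, first half: the major arc
-/

set_option autoImplicit false

namespace Pool.Agent.U307.NP

open Finset MeasureTheory
open Pool.Agent.H807R2.Dav (ee)
open Pool.Agent.U237.NF.Lite (PB)
open Pool.Agent.Helper44K9.FU (S_PW S_TRIG2 S_CHB)

/-- `u` is within `τ` of `x + b / m` after multiplication by `m`, for some `x ∈ E`, `m ≤ K` -/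
def Near (E : Set UnitAddCircle) (K : ℕ) (τ u : ℝ) : Prop :=
  ∃ x : ℝ, (x : UnitAddCircle) ∈ E ∧ ∃ m : ℕ, 1 ≤ m ∧ m ≤ K ∧ ∃ b : ℤ, |m * (x - u) - b| ≤ τ

theorem major (hPW : S_PW) (hTR : S_TRIG2) (hCHB : S_CHB) (d : ℕ) (hd : 1 ≤ d) (E : Set UnitAddCircle)
    (hE : IsCompact E) (hE0 : volume E = 0) (K : ℕ) (hK : 1 ≤ K) (c : ℝ) (hc : 0 < c) :
    ∃ Q : ℕ, 1 ≤ Q ∧ ∃ τ : ℝ, 0 < τ ∧ ∃ y0 : ℕ, ∀ y : ℕ, y0 ≤ y → ∀ β : ℝ, ∀ W : Finset ℕ, W ⊆ PB y →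
      c * y ≤ W.card * Real.log y → (∀ p ∈ W, Near E K τ ((p : ℝ) ^ d * β)) →
      ∃ q : ℕ, 1 ≤ q ∧ q ≤ Q ∧ ∃ a : ℤ, |q * β - a| ≤ Q / (y : ℝ) ^ d := by
  obtain ⟨S, a, τ, hτ, h0, hnn, ha0, hge⟩ := hTR K hK (c / 16) (by positivity) E hE (by rw [hE0]; exact bot_le)
  obtain ⟨A, hA⟩ : ∃ A : ℝ, A = 1 + ∑ j ∈ S.erase 0, ‖a j‖ := ⟨_, rfl⟩
  have hA1 : 1 ≤ A := by
    rw [hA]
    have : 0 ≤ ∑ j ∈ S.erase 0, ‖a j‖ := Finset.sum_nonneg fun _ _ => norm_nonneg _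
    linarith
  obtain ⟨C, N0, hC1, hPW'⟩ := hPW d hd (c / (2 * A)) (by positivity)
  obtain ⟨-, N1, hN1⟩ := hCHB
  obtain ⟨B, hB⟩ : ∃ B : ℕ, B = ∑ j ∈ S, j.natAbs + 1 := ⟨_, rfl⟩
  refine ⟨C * B, Nat.mul_pos (by omega) (by omega), τ, hτ, max (max N0 N1) 2, ?_⟩
  intro y hy β W hWP hWc hnear
  have hy0 : N0 ≤ y := le_trans (le_trans (le_max_left _ _) (le_max_left _ _)) hy
  have hy1 : N1 ≤ y := le_trans (le_trans (le_max_right _ _) (le_max_left _ _)) hy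
  have hy2 : 2 ≤ y := le_trans (le_max_right _ _) hy
  have hyR : (0 : ℝ) < y := by exact_mod_cast (by omega : 0 < y)
  set ψ : ℝ → ℝ := fun x => (∑ j ∈ S, a j * ee (j * x)).re with hψ
  set Λ : ℕ → ℝ := fun n => ArithmeticFunction.vonMangoldt n with hΛ
  have hΛ0 : ∀ n, 0 ≤ Λ n := fun n => ArithmeticFunction.vonMangoldt_nonneg
  -- lower bound
  have hlow : c * y ≤ ∑ n ∈ Ioc y (2 * y), Λ n * ψ ((n : ℝ) ^ d * β) := by
    refine hWc.trans ?_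
    have hsub : W ⊆ Ioc y (2 * y) := by
      intro p hp
      have := PB_mem (hWP hp)
      rw [Finset.mem_Ioc]
      exact ⟨this.1, this.2.1⟩
    refine le_trans ?_ (Finset.sum_le_sum_of_subset_of_nonneg hsub
      (fun n _ _ => mul_nonneg (hΛ0 n) (hnn _)))
    rw [← nsmul_eq_mul, ← Finset.sum_const]
    refine Finset.sum_le_sum fun p hp => ?_
    obtain ⟨hp1, hp2, hpp⟩ := PB_mem (hWP hp)
    have h1 : Λ p = Real.log p := ArithmeticFunction.vonMangoldt_apply_prime hpp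
    obtain ⟨x, hxE, m, hm1, hmK, b, hb⟩ := hnear p hp
    have h2 : 1 ≤ ψ ((p : ℝ) ^ d * β) := hge _ x hxE m hm1 hmK b hb
    have h3 : Real.log y ≤ Real.log p := Real.log_le_log hyR (by exact_mod_cast hp1.le)
    have h4 : 0 ≤ Real.log y := Real.log_nonneg (by exact_mod_cast (by omega : 1 ≤ y))
    rw [h1]
    nlinarith
  -- expansion
  have hexp : ∑ n ∈ Ioc y (2 * y), Λ n * ψ ((n : ℝ) ^ d * β) =
      (∑ j ∈ S, a j * ∑ n ∈ Ioc y (2 * y), ((Λ n : ℝ) : ℂ) * ee ((j * β) * (n : ℝ) ^ d)).re := by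
    simp only [hψ]
    have h1 : ∀ n ∈ Ioc y (2 * y), Λ n * (∑ j ∈ S, a j * ee (j * ((n : ℝ) ^ d * β))).re =
        (((Λ n : ℝ) : ℂ) * ∑ j ∈ S, a j * ee (j * ((n : ℝ) ^ d * β))).re := by
      intro n _
      rw [Complex.re_ofReal_mul]
    rw [Finset.sum_congr rfl h1, ← Complex.re_sum]
    congr 1
    simp only [Finset.mul_sum]
    rw [Finset.sum_comm]
    refine Finset.sum_congr rfl fun j _ => Finset.sum_congr rfl fun n _ => ?_
    have : (j : ℝ) * ((n : ℝ) ^ d * β) = (j * β) * (n : ℝ) ^ d := by ring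
    rw [this]
    ring
  have hup : ∑ n ∈ Ioc y (2 * y), Λ n * ψ ((n : ℝ) ^ d * β) ≤ c / 16 * (3 * y) +
      ∑ j ∈ S.erase 0, ‖a j‖ * ‖∑ n ∈ Ioc y (2 * y), ((Λ n : ℝ) : ℂ) * ee ((j * β) * (n : ℝ) ^ d)‖ := by
    rw [hexp, ← Finset.add_sum_erase S _ h0, Complex.add_re]
    refine add_le_add ?_ ?_
    · have h1 : ∑ n ∈ Ioc y (2 * y), ((Λ n : ℝ) : ℂ) * ee (((0 : ℤ) * β) * (n : ℝ) ^ d) =
          ((∑ n ∈ Ioc y (2 * y), Λ n : ℝ) : ℂ) := by
        push_cast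
        refine Finset.sum_congr rfl fun n _ => ?_
        rw [zero_mul, zero_mul]
        unfold ee
        simp
      rw [h1, mul_comm, Complex.re_ofReal_mul, mul_comm]
      have h2 := hN1 y hy1
      have h3 : 0 ≤ ∑ n ∈ Ioc y (2 * y), Λ n := Finset.sum_nonneg fun n _ => hΛ0 n
      calc (a 0).re * ∑ n ∈ Ioc y (2 * y), Λ n ≤ c / 16 * ∑ n ∈ Ioc y (2 * y), Λ n :=
            mul_le_mul_of_nonneg_right ha0 h3
        _ ≤ c / 16 * (3 * y) := mul_le_mul_of_nonneg_left h2 (by positivity)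
    · refine (Complex.re_le_norm _).trans ((norm_sum_le _ _).trans (le_of_eq ?_))
      refine Finset.sum_congr rfl fun j _ => norm_mul _ _
  -- a large coefficient
  obtain ⟨j, hj, hjl⟩ : ∃ j ∈ S.erase 0, c / (2 * A) * y ≤
      ‖∑ n ∈ Ioc y (2 * y), ((Λ n : ℝ) : ℂ) * ee ((j * β) * (n : ℝ) ^ d)‖ := by
    by_contra hcon
    push Not at hcon
    have h1 : ∑ j ∈ S.erase 0, ‖a j‖ * ‖∑ n ∈ Ioc y (2 * y), ((Λ n : ℝ) : ℂ) * ee ((j * β) * (n : ℝ) ^ d)‖ ≤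
        ∑ j ∈ S.erase 0, ‖a j‖ * (c / (2 * A) * y) :=
      Finset.sum_le_sum fun j hj => mul_le_mul_of_nonneg_left (hcon j hj).le (norm_nonneg _)
    rw [← Finset.sum_mul] at h1
    have h2 : (∑ j ∈ S.erase 0, ‖a j‖) * (c / (2 * A) * y) ≤ A * (c / (2 * A) * y) := by
      refine mul_le_mul_of_nonneg_right ?_ (by positivity)
      rw [hA]
      linarith
    have h3 : A * (c / (2 * A) * y) = c / 2 * y := by
      field_simp
    have h4 : 0 < c * y := by positivity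
    linarith
  obtain ⟨q, hq1, hqC, b, hb⟩ := hPW' y hy0 ((j : ℝ) * β) hjl
  have hj0 : j ≠ 0 := Finset.ne_of_mem_erase hj
  have hjB : j.natAbs ≤ B := by
    have := Finset.single_le_sum (f := fun j : ℤ => j.natAbs) (fun _ _ => Nat.zero_le _)
      (Finset.mem_of_mem_erase hj)
    rw [hB]
    omega
  refine ⟨q * j.natAbs, Nat.mul_pos (by omega) (by omega), Nat.mul_le_mul hqC hjB, b * j.sign, ?_⟩
  have h1 : ((q * j.natAbs : ℕ) : ℝ) * β - ((b * j.sign : ℤ) : ℝ) = (j.sign : ℝ) * (q * (j * β) - b) := by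
    have h2 : ((j.natAbs : ℕ) : ℝ) = (j.sign : ℝ) * j := by
      have h3 : ((j.natAbs : ℕ) : ℤ) = j.sign * j := by rw [Int.sign_mul_self_eq_natAbs]
      rw [← Int.cast_natCast (R := ℝ) j.natAbs, h3, Int.cast_mul]
    rw [Nat.cast_mul, h2, Int.cast_mul]
    ring
  rw [h1, abs_mul]
  have h4 : |((j.sign : ℤ) : ℝ)| = 1 := by
    have : |j.sign| = 1 := by
      rcases lt_or_gt_of_ne hj0 with h | h
      · rw [Int.sign_eq_neg_one_of_neg h]; rfl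
      · rw [Int.sign_eq_one_of_pos h]; rfl
    exact_mod_cast this
  rw [h4, one_mul]
  refine hb.trans ?_
  have h5 : (C : ℝ) ≤ ((C * B : ℕ) : ℝ) := by
    have : C * 1 ≤ C * B := Nat.mul_le_mul le_rfl (by omega)
    rw [mul_one] at this
    exact_mod_cast this
  gcongr

end Pool.Agent.U307.NP
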