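import Pool.Agent.U307.NF.L1
import Pool.Agent.U951.NF.FA
import Pool.Agent.U307.NP.L1

/-!
# Project NP (helper307): `d`-th powers of primes whose dilates are near a null set, second half: the centre of the
major arc
-/

set_option autoImplicit false

namespace Pool.Agent.U307.NP

open Finset MeasureTheory Filter Topology
open Pool.Agent.U237.NF.Lite (PB ThinBy)
open Pool.Agent.U307.NF (rep coe_rep prime_count)

lemma pow_sub_ge {d p q y : ℕ} (hd : 1 ≤ d) (hqp : q ≤ p) (hy : y ≤ p) :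
    ((p : ℝ) - q) * (y : ℝ) ^ (d - 1) ≤ (p : ℝ) ^ d - (q : ℝ) ^ d := by
  obtain ⟨e, rfl⟩ : ∃ e, d = e + 1 := ⟨d - 1, by omega⟩
  have h1 : (0 : ℝ) ≤ q := Nat.cast_nonneg q
  have h2 : (q : ℝ) ≤ p := by exact_mod_cast hqp
  have h3 : (y : ℝ) ≤ p := by exact_mod_cast hy
  have h4 : (y : ℝ) ^ e ≤ (p : ℝ) ^ e := pow_le_pow_left₀ (Nat.cast_nonneg y) h3 e
  have h5 : (q : ℝ) ^ e ≤ (p : ℝ) ^ e := pow_le_pow_left₀ h1 h2 e
  rw [Nat.add_sub_cancel, pow_succ, pow_succ]
  have h6 : ((p : ℝ) - q) * (y : ℝ) ^ e ≤ ((p : ℝ) - q) * (p : ℝ) ^ e :=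
    mul_le_mul_of_nonneg_left h4 (by linarith)
  have h7 : (q : ℝ) ^ e * q ≤ (p : ℝ) ^ e * q := mul_le_mul_of_nonneg_right h5 h1
  linarith

theorem centre (d : ℕ) (hd : 1 ≤ d) (E : Set UnitAddCircle)
    (hE : IsCompact E) (hE0 : volume E = 0) (K C : ℕ) (hK : 1 ≤ K) (c : ℝ) (hc : 0 < c) (l : ℝ) (hl : 0 < l) :
    ∃ τ : ℝ, 0 < τ ∧ ∃ y0 : ℕ, ∀ y : ℕ, y0 ≤ y → ∀ θ : ℝ, |θ| * (y : ℝ) ^ d ≤ C → ∀ W : Finset ℕ, W ⊆ PB y →
      c * y ≤ W.card * Real.log y → (∀ p ∈ W, Near E K τ ((p : ℝ) ^ d * θ)) →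
      |θ| * (y : ℝ) ^ d ≤ l := by
  obtain ⟨η, hη, hthin⟩ := Pool.Agent.U951.NF.t_THN E hE hE0
  obtain ⟨A, hA⟩ : ∃ A : ℕ, A = K * (2 ^ d * C + 2) := ⟨_, rfl⟩
  set κ : ℝ := c * l / (32 * (K * (2 * A + 1))) with hκ
  have hK0 : (0 : ℝ) < K := by exact_mod_cast hK
  have hκ0 : 0 < κ := by positivity
  obtain ⟨X, hX⟩ := Filter.eventually_atTop.1 (hη.eventually (gt_mem_nhds hκ0))
  set x : ℝ := max X (max 4 (8 / l)) with hx
  have hxX : X ≤ x := le_max_left _ _
  have hx4 : 4 ≤ x := (le_max_left _ _).trans (le_max_right _ _)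
  have hxl : 8 / l ≤ x := (le_max_right _ _).trans (le_max_right _ _)
  have hx0 : 0 < x := by linarith
  have hηx := hX x hxX
  have hxl1 : 8 ≤ x * l := by
    rw [div_le_iff₀ hl] at hxl
    exact hxl
  have hxl0 : 0 < x * l := by linarith
  -- the length of the short intervals is `c₁ y`
  set c₁ : ℝ := 4 / (x * l) with hc₁
  have hc₁0 : 0 < c₁ := by positivity
  have hc₁1 : c₁ ≤ 1 / 2 := by
    rw [hc₁, div_le_iff₀ hxl0]
    linarith
  obtain ⟨y1, hy12, hpc⟩ := prime_count c₁ hc₁0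
  refine ⟨1 / x, by positivity, max y1 ⌈1 / c₁⌉₊, ?_⟩
  intro y hy θ hθC W hWP hWc hnear
  by_contra hcon
  push Not at hcon
  have hyy1 : y1 ≤ y := (le_max_left _ _).trans hy
  have hy2 : 2 ≤ y := hy12.trans hyy1
  have hy0 : (0 : ℝ) < y := by exact_mod_cast (by omega : 0 < y)
  have hlog : 0 < Real.log y := Real.log_pos (by exact_mod_cast (by omega : 1 < y))
  have hc₁y : 1 ≤ c₁ * y := by
    have h1 : 1 / c₁ ≤ (y : ℝ) := (Nat.le_ceil _).trans (by exact_mod_cast (le_max_right _ _).trans hy)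
    rw [div_le_iff₀ hc₁0] at h1
    linarith
  set L : ℝ := (y : ℝ) / Real.log y with hL
  have hL0 : 0 < L := div_pos hy0 hlog
  obtain ⟨F, hFc, hF⟩ := hthin x (by linarith)
  have hWy : ∀ p ∈ W, y < p ∧ p ≤ 2 * y ∧ p.Prime := fun p hp => PB_mem (hWP hp)
  have hbig : ∀ p ∈ W, |(p : ℝ) ^ d * θ| ≤ 2 ^ d * C := by
    intro p hp
    obtain ⟨hyp, hp2, -⟩ := hWy p hp
    have h1 : (p : ℝ) ^ d ≤ (2 * y) ^ d := pow_le_pow_left₀ (Nat.cast_nonneg p) (by exact_mod_cast hp2) d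
    rw [abs_mul, abs_of_nonneg (by positivity : (0 : ℝ) ≤ (p : ℝ) ^ d)]
    calc (p : ℝ) ^ d * |θ| ≤ (2 * y) ^ d * |θ| := by gcongr
      _ = 2 ^ d * (|θ| * (y : ℝ) ^ d) := by rw [mul_pow]; ring
      _ ≤ 2 ^ d * C := by gcongr
  have hnear2 : ∀ p ∈ W, ∃ t : UnitAddCircle × ℕ × ℤ, (t.1 ∈ F ∧ 1 ≤ t.2.1 ∧ t.2.1 ≤ K ∧ -(A : ℤ) ≤ t.2.2 ∧ t.2.2 ≤ A) ∧
      |(p : ℝ) ^ d * θ - (Int.fract (rep t.1) + t.2.2 / t.2.1)| ≤ 2 / x := by
    intro p hp
    obtain ⟨z, hz, m, hm1, hmK, b, hb⟩ := hnear p hp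
    obtain ⟨v, hv, hzv⟩ := hF _ hz
    have hm0 : (0 : ℝ) < m := by exact_mod_cast hm1
    have hm1' : (1 : ℝ) ≤ m := by exact_mod_cast hm1
    -- an integer
    have h1 : ‖((z - Int.fract (rep v) : ℝ) : UnitAddCircle)‖ ≤ 1 / x := by
      have h2 : ((z - Int.fract (rep v) : ℝ) : UnitAddCircle) = (z : UnitAddCircle) - v := by
        have h3 : z - Int.fract (rep v) = z - rep v + ((⌊rep v⌋ : ℤ) : ℝ) := by
          unfold Int.fract
          ring
        rw [h3, AddCircle.coe_add, AddCircle.coe_sub, coe_rep]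
        have h4 : (((⌊rep v⌋ : ℤ) : ℝ) : UnitAddCircle) = 0 := by
          rw [AddCircle.coe_eq_zero_iff]
          exact ⟨⌊rep v⌋, by simp⟩
        rw [h4, add_zero]
      rw [h2]
      exact hzv
    rw [UnitAddCircle.norm_eq] at h1
    set k : ℤ := round (z - Int.fract (rep v)) with hk
    have h5 : |(p : ℝ) ^ d * θ - (Int.fract (rep v) + ((k * m - b : ℤ) : ℝ) / m)| ≤ 2 / x := by
      have h6 : (p : ℝ) ^ d * θ - (Int.fract (rep v) + ((k * m - b : ℤ) : ℝ) / m) =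
          (z - Int.fract (rep v) - k) - (m * (z - (p : ℝ) ^ d * θ) - b) / m := by
        push_cast
        field_simp
        ring
      rw [h6]
      refine (abs_sub _ _).trans ?_
      have h7 : |(m * (z - (p : ℝ) ^ d * θ) - b) / m| ≤ 1 / x := by
        rw [abs_div, abs_of_pos hm0, div_le_iff₀ hm0]
        have : (0 : ℝ) < 1 / x := by positivity
        nlinarith
      have h8 : (2 : ℝ) / x = 1 / x + 1 / x := by ring
      rw [h8]
      exact add_le_add h1 h7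
    refine ⟨(v, m, k * m - b), ⟨hv, hm1, hmK, ?_⟩, h5⟩
    -- the bound for the integer
    have h9 := hbig p hp
    have h10 := Int.fract_nonneg (rep v)
    have h11 := Int.fract_lt_one (rep v)
    have h12 : 2 / x ≤ 1 / 2 := by
      rw [div_le_div_iff₀ hx0 two_pos]
      linarith
    have h13 : |((k * m - b : ℤ) : ℝ) / m| ≤ 2 ^ d * C + 2 := by
      have h14 := abs_le.1 h5
      have h15 := abs_le.1 h9
      rw [abs_le]
      constructor <;> linarith
    rw [abs_div, abs_of_pos hm0, div_le_iff₀ hm0] at h13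
    have h16 : |((k * m - b : ℤ) : ℝ)| ≤ A := by
      refine h13.trans ?_
      rw [hA]
      push_cast
      have : (m : ℝ) ≤ K := by exact_mod_cast hmK
      have h17 : (0 : ℝ) ≤ 2 ^ d * C + 2 := by positivity
      nlinarith
    have h18 : |k * m - b| ≤ (A : ℤ) := by exact_mod_cast h16
    exact abs_le.1 h18
  choose! φ hφm hφ using hnear2
  set T : Finset (UnitAddCircle × ℕ × ℤ) := F ×ˢ Icc 1 K ×ˢ Icc (-(A : ℤ)) A with hT
  have hmaps : ∀ p ∈ W, φ p ∈ T := by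
    intro p hp
    obtain ⟨h1, h2, h3, h4, h5⟩ := hφm p hp
    rw [hT, Finset.mem_product, Finset.mem_product, Finset.mem_Icc, Finset.mem_Icc]
    exact ⟨h1, ⟨h2, h3⟩, ⟨h4, h5⟩⟩
  have hfib : ∀ t ∈ T, ((W.filter (fun p => φ p = t)).card : ℝ) ≤ 4 * c₁ * L := by
    intro t _
    rcases (W.filter (fun p => φ p = t)).eq_empty_or_nonempty with he | hne
    · rw [he, Finset.card_empty, Nat.cast_zero]
      positivity
    set p₀ := (W.filter (fun p => φ p = t)).min' hne with hp₀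
    have hp₀m : p₀ ∈ W.filter (fun p => φ p = t) := Finset.min'_mem _ _
    obtain ⟨hp₀W, hp₀φ⟩ := Finset.mem_filter.1 hp₀m
    obtain ⟨hyp, hp2, hpp⟩ := hWy p₀ hp₀W
    set k : ℕ := ⌊c₁ * y⌋₊ + 1 with hk
    have hk1 : c₁ * y ≤ k := by
      rw [hk]
      push_cast
      exact (Nat.lt_floor_add_one _).le
    have hk2 : (k : ℝ) ≤ c₁ * y + 1 := by
      rw [hk]
      push_cast
      linarith [Nat.floor_le (by positivity : 0 ≤ c₁ * (y : ℝ))]
    have hy2' : (2 : ℝ) ≤ y := by exact_mod_cast hy2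
    have hk3 : (k : ℝ) ≤ y := by
      have : c₁ * y ≤ 1 / 2 * y := by gcongr
      linarith
    have hk4 : k ≤ y := by exact_mod_cast hk3
    have hsub : W.filter (fun p => φ p = t) ⊆ (Ioc (p₀ - 1) (p₀ - 1 + k)).filter Nat.Prime := by
      intro p hp
      have hmin : p₀ ≤ p := Finset.min'_le _ _ hp
      obtain ⟨hpW, hpφ⟩ := Finset.mem_filter.1 hp
      obtain ⟨hyp', -, hprime⟩ := hWy p hpW
      have h1 : φ p = φ p₀ := hpφ.trans hp₀φ.symm
      have h6 := hφ p hpW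
      have h7 := hφ p₀ hp₀W
      rw [h1] at h6
      have h8 : ((p : ℝ) ^ d - (p₀ : ℝ) ^ d) * |θ| ≤ 4 / x := by
        have h9 : ((p : ℝ) ^ d - (p₀ : ℝ) ^ d) * θ =
            ((p : ℝ) ^ d * θ - (Int.fract (rep (φ p₀).1) + (φ p₀).2.2 / (φ p₀).2.1)) -
            ((p₀ : ℝ) ^ d * θ - (Int.fract (rep (φ p₀).1) + (φ p₀).2.2 / (φ p₀).2.1)) := by ring
        have h10 : |((p : ℝ) ^ d - (p₀ : ℝ) ^ d) * θ| ≤ 4 / x := by
          rw [h9]
          refine (abs_sub _ _).trans ?_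
          have : (4 : ℝ) / x = 2 / x + 2 / x := by ring
          rw [this]
          exact add_le_add h6 h7
        rw [abs_mul, abs_of_nonneg (by
          have : (p₀ : ℝ) ^ d ≤ (p : ℝ) ^ d :=
            pow_le_pow_left₀ (Nat.cast_nonneg _) (by exact_mod_cast hmin) d
          linarith)] at h10
        exact h10
      have h11 : (p : ℝ) - p₀ ≤ c₁ * y := by
        have h12 := pow_sub_ge (d := d) (p := p) (q := p₀) (y := y) hd hmin hyp'.le
        have h120 : 0 ≤ (p : ℝ) - p₀ := by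
          have : (p₀ : ℝ) ≤ p := by exact_mod_cast hmin
          linarith
        have h13 : ((p : ℝ) - p₀) * l ≤ 4 / x * y := by
          calc ((p : ℝ) - p₀) * l ≤ ((p : ℝ) - p₀) * (|θ| * (y : ℝ) ^ d) := by gcongr
            _ = ((p : ℝ) - p₀) * (y : ℝ) ^ (d - 1) * |θ| * y := by
                have : (y : ℝ) ^ d = (y : ℝ) ^ (d - 1) * y := by
                  rw [← pow_succ]
                  congr 1
                  omega
                rw [this]
                ring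
            _ ≤ ((p : ℝ) ^ d - (p₀ : ℝ) ^ d) * |θ| * y := by gcongr
            _ ≤ 4 / x * y := by gcongr
        rw [hc₁]
        have h14 : 4 / (x * l) * (y : ℝ) = (4 / x * y) / l := by
          field_simp
        rw [h14, le_div_iff₀ hl]
        exact h13
      have h15 : p - p₀ ≤ ⌊c₁ * y⌋₊ := by
        refine Nat.le_floor ?_
        rw [Nat.cast_sub hmin]
        exact h11
      rw [Finset.mem_filter, Finset.mem_Ioc]
      refine ⟨⟨by omega, by omega⟩, hprime⟩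
    have h1 := hpc y hyy1 (p₀ - 1) k (by omega) (by omega) hk1 hk4
    calc ((W.filter (fun p => φ p = t)).card : ℝ)
        ≤ (((Ioc (p₀ - 1) (p₀ - 1 + k)).filter Nat.Prime).card : ℝ) := by
          exact_mod_cast Finset.card_le_card hsub
      _ ≤ 2 * (k / Real.log y) := h1
      _ ≤ 2 * ((2 * c₁ * y) / Real.log y) := by
          have : (k : ℝ) ≤ 2 * c₁ * y := by linarith
          gcongr
      _ = 4 * c₁ * L := by rw [hL]; ring
  have hcard : (W.card : ℝ) ≤ (T.card : ℝ) * (4 * c₁ * L) := by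
    rw [Finset.card_eq_sum_card_fiberwise (f := φ) (t := T) hmaps]
    push_cast
    refine (Finset.sum_le_sum hfib).trans (le_of_eq ?_)
    rw [Finset.sum_const, nsmul_eq_mul]
  have hcT : (T.card : ℝ) ≤ (κ * x) * (K * (2 * A + 1)) := by
    rw [hT, Finset.card_product, Finset.card_product, Nat.card_Icc, Int.card_Icc]
    push_cast
    have h1 : (((A : ℤ) + 1 - -(A : ℤ)).toNat : ℝ) = 2 * A + 1 := by
      have : ((A : ℤ) + 1 - -(A : ℤ)).toNat = 2 * A + 1 := by omega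
      rw [this]
      push_cast
      ring
    rw [h1]
    have h3 : (F.card : ℝ) ≤ κ * x := hFc.trans (mul_le_mul_of_nonneg_right hηx.le hx0.le)
    gcongr
  have hfin : c * L ≤ (κ * x) * (K * (2 * A + 1)) * (4 * c₁ * L) := by
    have h1 : c * L ≤ (W.card : ℝ) := by
      rw [hL, ← mul_div_assoc, div_le_iff₀ hlog]
      exact hWc
    exact h1.trans (hcard.trans (mul_le_mul_of_nonneg_right hcT (by positivity)))
  have hval : (κ * x) * (K * (2 * (A : ℝ) + 1)) * (4 * c₁ * L) = c * L / 2 := by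
    rw [hκ, hc₁]
    field_simp
    ring
  rw [hval] at hfin
  have h2 : 0 < c * L := by positivity
  linarith

end Pool.Agent.U307.NP
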