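import Pool.Agent.Helper44K9.FU.Stm
import Pool.Agent.U237.NF.Lite
import Pool.Agent.U307.NF.A

/-!
# Project NP (helper307): from correlations along pairs of primes to relations between the leading coefficients
-/

set_option autoImplicit false

namespace Pool.Agent.U307.NP

open Finset Polynomial
open Pool.Agent.H807R2.Dav (ee)
open Pool.Agent.W24.Katai (Mul1 cor)
open Pool.Agent.U237.NF.Lite (PB kx)
open Pool.Agent.Helper44K9.FU (S_WR)
open Pool.Agent.U307.NF (conj_ee)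

/-- the sequence which is `om k * e (P_k (n))` on the `k`-th window -/
noncomputable def Fp (H s : ℕ) (om : ℕ → ℂ) (P : ℕ → ℝ[X]) (n : ℕ) : ℂ :=
  om (kx H s n) * ee ((P (kx H s n)).eval (n : ℝ))

/-- the windows of `z / p` and of `z / q` are good and their leading coefficients are related -/
def RelP (d K H s : ℕ) (om : ℕ → ℂ) (P : ℕ → ℝ[X]) (e : ℝ) (z p q : ℕ) : Prop :=
  om (kx H s (z / p)) ≠ 0 ∧ om (kx H s (z / q)) ≠ 0 ∧ ∃ m : ℕ, 1 ≤ m ∧ m ≤ K ∧ ∃ a : ℤ,
    |(m : ℝ) * ((p : ℝ) ^ d * (P (kx H s (z / q))).coeff d - (q : ℝ) ^ d * (P (kx H s (z / p))).coeff d) - a| ≤ e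

lemma norm_ee (x : ℝ) : ‖ee x‖ = 1 := by
  rw [Pool.Agent.H807R2.Dav.ee_eq, Complex.norm_exp_ofReal_mul_I]

lemma kx_mono (H s : ℕ) {a b : ℕ} (h : a ≤ b) : kx H s a ≤ kx H s b := by
  unfold kx
  exact Nat.div_le_div_right (by omega)

lemma sum_blocks0 {M : Type*} [AddCommMonoid M] (g : ℕ → M) (L J : ℕ) :
    ∑ m ∈ Ioc 0 (J * L), g m = ∑ j ∈ range J, ∑ m ∈ Ioc (j * L) (j * L + L), g m := by
  induction J with
  | zero => simp
  | succ J ih =>
    rw [Finset.sum_range_succ, ← ih, Finset.sum_Ioc_consecutive _ (Nat.zero_le _) (Nat.le_add_right _ _)]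
    congr 1
    ring_nf

/-- few blocks are bad -/
lemma bad_le (H s p L J : ℕ) (hs : s < H) :
    (((range J).filter (fun j => kx H s (p * (j * L)) ≠ kx H s (p * (j * L + L)))).card : ℝ) ≤
      (p * (J * L) : ℕ) / (H : ℝ) + 1 := by
  have hH : 0 < H := by omega
  have h1 : ((range J).filter (fun j => kx H s (p * (j * L)) ≠ kx H s (p * (j * L + L)))).card ≤
      ∑ j ∈ range J, (kx H s (p * (j * L + L)) - kx H s (p * (j * L))) := by
    rw [Finset.card_filter]
    refine Finset.sum_le_sum fun j _ => ?_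
    have := kx_mono H s (a := p * (j * L)) (b := p * (j * L + L)) (Nat.mul_le_mul le_rfl (by omega))
    split_ifs with h
    · omega
    · exact Nat.zero_le _
  have h2 : ∀ J : ℕ, ∑ j ∈ range J, (kx H s (p * (j * L + L)) - kx H s (p * (j * L))) =
      kx H s (p * (J * L)) - kx H s 0 := by
    intro J
    induction J with
    | zero => simp
    | succ J ih =>
      rw [Finset.sum_range_succ, ih]
      have e1 : J * L + L = (J + 1) * L := by ring
      have a1 := kx_mono H s (a := 0) (b := p * (J * L)) (Nat.zero_le _)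
      have a2 := kx_mono H s (a := p * (J * L)) (b := p * ((J + 1) * L))
        (Nat.mul_le_mul le_rfl (Nat.mul_le_mul (by omega) le_rfl))
      rw [e1]
      omega
  have h3 : ((kx H s (p * (J * L)) : ℕ) : ℝ) ≤ (p * (J * L) : ℕ) / (H : ℝ) + 1 := by
    unfold kx
    have : ((((p * (J * L) + s) / H : ℕ)) : ℝ) ≤ ((p * (J * L) + s : ℕ) : ℝ) / H := Nat.cast_div_le
    refine this.trans ?_
    have hH' : (0 : ℝ) < H := by exact_mod_cast hH
    rw [div_add_one hH'.ne', div_le_div_iff_of_pos_right hH']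
    have : (s : ℝ) ≤ H := by exact_mod_cast hs.le
    push_cast
    linarith
  have h4 : ((range J).filter (fun j => kx H s (p * (j * L)) ≠ kx H s (p * (j * L + L)))).card ≤
      kx H s (p * (J * L)) := by
    rw [h2] at h1
    omega
  exact (by exact_mod_cast h4 : (_ : ℝ) ≤ _).trans h3

/-- the block is good for both primes -/
def Good (H s p q L j : ℕ) : Prop :=
  kx H s (p * (j * L)) = kx H s (p * (j * L + L)) ∧ kx H s (q * (j * L)) = kx H s (q * (j * L + L))

lemma kx_block {H s p L j : ℕ} (h : kx H s (p * (j * L)) = kx H s (p * (j * L + L))) {n : ℕ}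
    (h1 : p * (j * L) ≤ n) (h2 : n ≤ p * (j * L + L)) : kx H s n = kx H s (p * (j * L)) := by
  have a1 := kx_mono H s h1
  have a2 := kx_mono H s h2
  omega

/-- the sum over a block -/
noncomputable def SB (H s : ℕ) (om : ℕ → ℂ) (P : ℕ → ℝ[X]) (p q L j : ℕ) : ℂ :=
  ∑ m ∈ Ioc (j * L) (j * L + L), Fp H s om P (p * m) * (starRingEnd ℂ) (Fp H s om P (q * m))

lemma norm_Fp_le (H s : ℕ) (om : ℕ → ℂ) (P : ℕ → ℝ[X]) (hom : ∀ k, ‖om k‖ ≤ 1) (n : ℕ) : ‖Fp H s om P n‖ ≤ 1 := by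
  unfold Fp
  rw [norm_mul, norm_ee, mul_one]
  exact hom _

lemma norm_term_le (H s : ℕ) (om : ℕ → ℂ) (P : ℕ → ℝ[X]) (hom : ∀ k, ‖om k‖ ≤ 1) (a b : ℕ) :
    ‖Fp H s om P a * (starRingEnd ℂ) (Fp H s om P b)‖ ≤ 1 := by
  rw [norm_mul, RCLike.norm_conj]
  have h1 := norm_Fp_le H s om P hom a
  have h2 := norm_Fp_le H s om P hom b
  have h3 := norm_nonneg (Fp H s om P a)
  have h4 := norm_nonneg (Fp H s om P b)
  nlinarith

lemma SB_le (H s : ℕ) (om : ℕ → ℂ) (P : ℕ → ℝ[X]) (hom : ∀ k, ‖om k‖ ≤ 1) (p q L j : ℕ) :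
    ‖SB H s om P p q L j‖ ≤ L := by
  unfold SB
  refine (norm_sum_le _ _).trans ?_
  refine (Finset.sum_le_sum fun m _ => norm_term_le H s om P hom (p * m) (q * m)).trans ?_
  rw [Finset.sum_const, Nat.card_Ioc, nsmul_eq_mul, mul_one]
  have : j * L + L - j * L = L := by omega
  rw [this]

/-- on a good block a large sum gives a relation -/
lemma block_rel {d K : ℕ} {u : ℝ}
    (hK : ∀ (P : ℝ[X]) (n H : ℕ), P.natDegree ≤ d →
      1 ≤ H → (H : ℝ) ≤ u * ‖∑ m ∈ Ioc n (n + H), ee (P.eval (m : ℝ))‖ →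
      ∃ m : ℕ, 1 ≤ m ∧ m ≤ K ∧ ∃ a : ℤ, |m * P.coeff d - a| ≤ K / (H : ℝ) ^ d)
    (hu : 0 < u) (H s : ℕ) (om : ℕ → ℂ) (P : ℕ → ℝ[X]) (hom : ∀ k, ‖om k‖ ≤ 1)
    (hP : ∀ k, om k ≠ 0 → (P k).natDegree ≤ d) (p q L j : ℕ) (hL : 1 ≤ L)
    (hg : Good H s p q L j) (hS : (L : ℝ) ≤ u * ‖SB H s om P p q L j‖) :
    om (kx H s (p * (j * L))) ≠ 0 ∧ om (kx H s (q * (j * L))) ≠ 0 ∧ ∃ m : ℕ, 1 ≤ m ∧ m ≤ K ∧ ∃ a : ℤ,
      |(m : ℝ) * ((p : ℝ) ^ d * (P (kx H s (p * (j * L)))).coeff d -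
        (q : ℝ) ^ d * (P (kx H s (q * (j * L)))).coeff d) - a| ≤ K / (L : ℝ) ^ d := by
  set k1 := kx H s (p * (j * L)) with hk1
  set k2 := kx H s (q * (j * L)) with hk2
  set Q : ℝ[X] := (P k1).comp (C (p : ℝ) * X) - (P k2).comp (C (q : ℝ) * X) with hQ
  have hterm : ∀ m ∈ Ioc (j * L) (j * L + L), Fp H s om P (p * m) * (starRingEnd ℂ) (Fp H s om P (q * m)) =
      om k1 * (starRingEnd ℂ) (om k2) * ee (Q.eval (m : ℝ)) := by
    intro m hm
    rw [Finset.mem_Ioc] at hm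
    have e1 : kx H s (p * m) = k1 := kx_block hg.1 (Nat.mul_le_mul le_rfl hm.1.le) (Nat.mul_le_mul le_rfl hm.2)
    have e2 : kx H s (q * m) = k2 := kx_block hg.2 (Nat.mul_le_mul le_rfl hm.1.le) (Nat.mul_le_mul le_rfl hm.2)
    unfold Fp
    rw [e1, e2, map_mul, conj_ee]
    have e3 : ee (Q.eval (m : ℝ)) = ee ((P k1).eval ((p * m : ℕ) : ℝ)) * ee (-((P k2).eval ((q * m : ℕ) : ℝ))) := by
      rw [← Pool.Agent.H807R2.Dav.ee_add]
      congr 1
      rw [hQ, eval_sub, eval_comp, eval_comp]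
      simp only [eval_mul, eval_C, eval_X]
      push_cast
      ring
    rw [e3]
    ring
  have hSB : SB H s om P p q L j = om k1 * (starRingEnd ℂ) (om k2) *
      ∑ m ∈ Ioc (j * L) (j * L + L), ee (Q.eval (m : ℝ)) := by
    unfold SB
    rw [Finset.sum_congr rfl hterm, Finset.mul_sum]
  have hLR : (1 : ℝ) ≤ L := by exact_mod_cast hL
  have hpos : 0 < ‖SB H s om P p q L j‖ := by
    by_contra h
    push Not at h
    have h0 : ‖SB H s om P p q L j‖ = 0 := le_antisymm h (norm_nonneg _)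
    rw [h0, mul_zero] at hS
    linarith
  rw [hSB] at hpos
  have hom1 : om k1 ≠ 0 := by
    intro h
    rw [h] at hpos
    simp at hpos
  have hom2 : om k2 ≠ 0 := by
    intro h
    rw [h] at hpos
    simp at hpos
  refine ⟨hom1, hom2, ?_⟩
  have hdeg : Q.natDegree ≤ d := by
    have h1 : ∀ (R : ℝ[X]) (t : ℕ), R.natDegree ≤ d → (R.comp (C (t : ℝ) * X)).natDegree ≤ d := by
      intro R t hR
      refine natDegree_comp_le.trans ?_
      have h3 : (C (t : ℝ) * X : ℝ[X]).natDegree ≤ 1 := (natDegree_C_mul_le _ _).trans natDegree_X_le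
      calc R.natDegree * (C (t : ℝ) * X : ℝ[X]).natDegree ≤ d * 1 := Nat.mul_le_mul hR h3
        _ = d := mul_one d
    rw [hQ]
    exact (natDegree_sub_le _ _).trans (max_le (h1 _ _ (hP _ hom1)) (h1 _ _ (hP _ hom2)))
  have hcoef : Q.coeff d = (p : ℝ) ^ d * (P k1).coeff d - (q : ℝ) ^ d * (P k2).coeff d := by
    rw [hQ, coeff_sub, comp_C_mul_X_coeff, comp_C_mul_X_coeff]
    ring
  have hle : (L : ℝ) ≤ u * ‖∑ m ∈ Ioc (j * L) (j * L + L), ee (Q.eval (m : ℝ))‖ := by
    refine hS.trans (mul_le_mul_of_nonneg_left ?_ hu.le)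
    rw [hSB, norm_mul, norm_mul, RCLike.norm_conj]
    have a1 := hom k1
    have a2 := hom k2
    have a3 : ‖om k1‖ * ‖om k2‖ ≤ 1 := by
      have := norm_nonneg (om k1)
      have := norm_nonneg (om k2)
      nlinarith
    have a4 := norm_nonneg (∑ m ∈ Ioc (j * L) (j * L + L), ee (Q.eval (m : ℝ)))
    nlinarith
  obtain ⟨m, hm1, hm2, a, ha⟩ := hK Q (j * L) L hdeg hL hle
  rw [hcoef] at ha
  exact ⟨m, hm1, hm2, a, ha⟩

open Classical in
/-- the correlation is bounded through the number of good blocks with large sums -/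
lemma cor_le (H s : ℕ) (om : ℕ → ℂ) (P : ℕ → ℝ[X]) (hom : ∀ k, ‖om k‖ ≤ 1) (p q L M m : ℕ) (hL : 1 ≤ L)
    (hs : s < H) (hm : m ≤ M) (c : ℝ) (hc : 0 < c) :
    ‖cor (Fp H s om P) p q m‖ ≤ c * M + L * (((p * M : ℕ) : ℝ) / H + ((q * M : ℕ) : ℝ) / H + 3) +
      L * (((range (M / L)).filter (fun j => Good H s p q L j ∧ c * L ≤ ‖SB H s om P p q L j‖)).card : ℝ) := by
  have hL0 : (0 : ℝ) < L := by exact_mod_cast hL
  have hH0 : (0 : ℝ) < H := by exact_mod_cast (by omega : 0 < H)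
  set g : ℕ → ℂ := fun m => Fp H s om P (p * m) * (starRingEnd ℂ) (Fp H s om P (q * m)) with hg
  have h1 : cor (Fp H s om P) p q m = ∑ j ∈ range (m / L), SB H s om P p q L j + ∑ i ∈ Ioc (m / L * L) m, g i := by
    unfold cor
    rw [← Finset.sum_Ioc_consecutive g (Nat.zero_le _) (Nat.div_mul_le_self m L), sum_blocks0]
    rfl
  have h2 : ‖∑ i ∈ Ioc (m / L * L) m, g i‖ ≤ L := by
    refine (norm_sum_le _ _).trans ?_
    refine (Finset.sum_le_sum fun i _ => norm_term_le H s om P hom (p * i) (q * i)).trans ?_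
    rw [Finset.sum_const, Nat.card_Ioc, nsmul_eq_mul, mul_one]
    have h3 : m - m / L * L ≤ L := by
      have := Nat.div_add_mod m L
      have h4 := Nat.mod_lt m (by omega : 0 < L)
      have h5 : L * (m / L) = m / L * L := mul_comm _ _
      omega
    exact_mod_cast h3
  have hml : m / L ≤ M / L := Nat.div_le_div_right hm
  have h3 : ‖∑ j ∈ range (m / L), SB H s om P p q L j‖ ≤ ∑ j ∈ range (M / L), ‖SB H s om P p q L j‖ :=
    (norm_sum_le _ _).trans (Finset.sum_le_sum_of_subset_of_nonneg (Finset.range_mono hml)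
      (fun _ _ _ => norm_nonneg _))
  have h4 : ∀ j ∈ range (M / L), ‖SB H s om P p q L j‖ ≤ c * L +
      L * (if kx H s (p * (j * L)) ≠ kx H s (p * (j * L + L)) then (1 : ℝ) else 0) +
      L * (if kx H s (q * (j * L)) ≠ kx H s (q * (j * L + L)) then (1 : ℝ) else 0) +
      L * (if Good H s p q L j ∧ c * L ≤ ‖SB H s om P p q L j‖ then (1 : ℝ) else 0) := by
    intro j _
    have a0 := SB_le H s om P hom p q L j
    have a1 : 0 < c * L := by positivity
    by_cases b1 : kx H s (p * (j * L)) ≠ kx H s (p * (j * L + L))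
    · rw [if_pos b1]
      have : 0 ≤ (L : ℝ) * (if kx H s (q * (j * L)) ≠ kx H s (q * (j * L + L)) then (1 : ℝ) else 0) := by
        split_ifs <;> simp
      have : 0 ≤ (L : ℝ) * (if Good H s p q L j ∧ c * L ≤ ‖SB H s om P p q L j‖ then (1 : ℝ) else 0) := by
        split_ifs <;> simp
      linarith
    · rw [if_neg b1]
      push Not at b1
      by_cases b2 : kx H s (q * (j * L)) ≠ kx H s (q * (j * L + L))
      · rw [if_pos b2]
        have : 0 ≤ (L : ℝ) * (if Good H s p q L j ∧ c * L ≤ ‖SB H s om P p q L j‖ then (1 : ℝ) else 0) := by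
          split_ifs <;> simp
        linarith
      · rw [if_neg b2]
        push Not at b2
        by_cases b3 : c * L ≤ ‖SB H s om P p q L j‖
        · rw [if_pos ⟨⟨b1, b2⟩, b3⟩]
          linarith
        · rw [if_neg (fun h => b3 h.2)]
          push Not at b3
          linarith
  have h5 := Finset.sum_le_sum h4
  rw [Finset.sum_add_distrib, Finset.sum_add_distrib, Finset.sum_add_distrib, Finset.sum_const, ← Finset.mul_sum,
    ← Finset.mul_sum, ← Finset.mul_sum, card_range, nsmul_eq_mul] at h5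
  have hcast : ∀ (Q : ℕ → Prop) [DecidablePred Q], ∑ j ∈ range (M / L), (if Q j then (1 : ℝ) else 0) =
      (((range (M / L)).filter Q).card : ℝ) := by
    intro Q _
    rw [Finset.card_filter]
    push_cast
    rfl
  rw [hcast, hcast, hcast] at h5
  have hML : ((M / L * L : ℕ) : ℝ) ≤ M := by exact_mod_cast Nat.div_mul_le_self M L
  have hb : ∀ t : ℕ, (((t * (M / L * L) : ℕ)) : ℝ) / H ≤ ((t * M : ℕ) : ℝ) / H := by
    intro t
    have : t * (M / L * L) ≤ t * M := Nat.mul_le_mul le_rfl (Nat.div_mul_le_self M L)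
    have : (((t * (M / L * L) : ℕ)) : ℝ) ≤ ((t * M : ℕ) : ℝ) := by exact_mod_cast this
    gcongr
  have b1 := (bad_le H s p L (M / L) hs).trans (add_le_add (hb p) le_rfl)
  have b2 := (bad_le H s q L (M / L) hs).trans (add_le_add (hb q) le_rfl)
  have h6 : ((M / L : ℕ) : ℝ) * (c * L) ≤ c * M := by
    have : ((M / L : ℕ) : ℝ) * L ≤ M := by exact_mod_cast Nat.div_mul_le_self M L
    nlinarith
  rw [h1]
  refine (norm_add_le _ _).trans ?_
  have c1 := mul_le_mul_of_nonneg_left b1 hL0.le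
  have c2 := mul_le_mul_of_nonneg_left b2 hL0.le
  linarith

end Pool.Agent.U307.NP
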